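import Mathlib

namespace Pool.Agent.Helper218.NV

open scoped BigOperators commutatorElement

/-- `x` is nonvanishing: no irreducible complex character of `G` vanishes at `x`. -/
def Nonvanishing {G : Type} [Group G] (x : G) : Prop :=
  ∀ (V : Type) [AddCommGroup V] [Module ℂ V] [FiniteDimensional ℂ V]
    (ρ : Representation ℂ G V), ρ.IsIrreducible → ρ.character x ≠ 0

/-- The Fitting subgroup, the join of all nilpotent normal subgroups. -/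
def fitting (G : Type) [Group G] : Subgroup G :=
  sSup {N : Subgroup G | N.Normal ∧ Group.IsNilpotent N}

/-- The centraliser of the section `K/L`, for `L` and `K` normal. -/
def cent {G : Type} [Group G] (K L : Subgroup G) [K.Normal] [L.Normal] : Subgroup G where
  carrier := {g | ∀ k ∈ K, g * k * g⁻¹ * k⁻¹ ∈ L}
  one_mem' := by
    intro k hk
    simp [L.one_mem]
  mul_mem' := by
    intro a b ha hb k hk
    have h1 := hb k hk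
    have h2 : b * k * b⁻¹ ∈ K := (inferInstance : K.Normal).conj_mem k hk b
    have h3 := ha _ h2
    have h4 := L.mul_mem h3 h1
    have e : a * b * k * (a * b)⁻¹ * k⁻¹ =
      (a * (b * k * b⁻¹) * a⁻¹ * (b * k * b⁻¹)⁻¹) * (b * k * b⁻¹ * k⁻¹) := by group
    rw [e]; exact h4
  inv_mem' := by
    intro a ha k hk
    have h2 : a⁻¹ * k * a ∈ K := by
      have := (inferInstance : K.Normal).conj_mem k hk a⁻¹
      simpa using this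
    have h3 := ha _ h2
    have h4 := L.inv_mem h3
    have e : a⁻¹ * k * a⁻¹⁻¹ * k⁻¹ = (a * (a⁻¹ * k * a) * a⁻¹ * (a⁻¹ * k * a)⁻¹)⁻¹ := by group
    rw [e]; exact h4

/-- Decomposition data: a complete family of orthogonal idempotents of `End V`, permuted by `H`,
which is as fine as possible. -/
structure Dec {H : Type} [Group H] {q : ℕ} {V : Type} [AddCommGroup V] [Module (ZMod q) V]
    (ρ : Representation (ZMod q) H V) (E : Finset (Module.End (ZMod q) V)) : Prop where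
  idem : ∀ e ∈ E, e * e = e
  ne : ∀ e ∈ E, e ≠ 0
  orth : ∀ e ∈ E, ∀ f ∈ E, e ≠ f → e * f = 0
  sum : ∑ e ∈ E, e = 1
  inv : ∀ h : H, ∀ e ∈ E, ρ h * e * ρ h⁻¹ ∈ E
  max : ∀ f : Module.End (ZMod q) V, f * f = f → (∀ e ∈ E, f * e = e * f) →
    (∀ g h : H, (ρ g * f * ρ g⁻¹) * (ρ h * f * ρ h⁻¹) = (ρ h * f * ρ h⁻¹) * (ρ g * f * ρ g⁻¹)) →
    ∀ e ∈ E, f * e = 0 ∨ f * e = e

/-- No nontrivial idempotents in the algebra generated by an abelian normal subgroup inside `N`. -/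
def QP {Γ : Type} [Group Γ] {q : ℕ} {D : Type} [AddCommGroup D] [Module (ZMod q) D]
    (τ : Representation (ZMod q) Γ D) (N : Subgroup Γ) : Prop :=
  ∀ A : Subgroup Γ, A.Normal → A ≤ N → (∀ a ∈ A, ∀ b ∈ A, τ a * τ b = τ b * τ a) →
    ∀ f ∈ Algebra.adjoin (ZMod q) (τ '' (A : Set Γ)), f * f = f → f = 0 ∨ f = 1

/-- `c` acts on `D` like the square of an element of the derived subgroup of `N`. -/
def Sq {Γ : Type} [Group Γ] {q : ℕ} {D : Type} [AddCommGroup D] [Module (ZMod q) D]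
    (τ : Representation (ZMod q) Γ D) (N : Subgroup Γ) (c : Γ) : Prop :=
  ∃ s ∈ ⁅N, N⁆, τ c = τ (s * s)

/-- Structure of the action of the normal `p`-subgroup `N` on one block. -/
structure LS {Γ : Type} [Group Γ] {q : ℕ} {D : Type} [AddCommGroup D] [Module (ZMod q) D]
    (τ : Representation (ZMod q) Γ D) (N : Subgroup Γ) (p : ℕ) (A X : Subgroup Γ) (g : Γ) :
    Prop where
  gN : g ∈ N
  An : A.Normal
  Xn : X.Normal
  AX : A ≤ X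
  XN : X ≤ N
  comm : ∀ a ∈ A, ∀ b ∈ A, τ a * τ b = τ b * τ a
  field : ∀ f ∈ Algebra.adjoin (ZMod q) (τ '' (A : Set Γ)), f ≠ 0 →
    ∃ f' ∈ Algebra.adjoin (ZMod q) (τ '' (A : Set Γ)), f * f' = 1 ∧ f' * f = 1
  XA : ∀ x ∈ X, ∀ a ∈ A, τ x * τ a = τ a * τ x
  memX : ∀ n ∈ N, (∀ a ∈ A, τ n * τ a = τ a * τ n) → n ∈ X
  der : ∀ u ∈ N, ∀ v ∈ N, ⁅u, v⁆ ∈ A
  pow : ∀ x ∈ X, ∀ y ∈ X, τ (⁅x, y⁆ ^ p) = 1
  cyc : ∀ n ∈ N, ∃ j : ℕ, ∃ x ∈ X, n = g ^ j * x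
  cen : ∀ z ∈ X, (∀ x ∈ X, τ z * τ x = τ x * τ z) → z ∈ A

/-- The properties of a block used when `p = 2`. -/
structure Loc2 {Γ : Type} [Group Γ] {q : ℕ} {D : Type} [AddCommGroup D] [Module (ZMod q) D]
    (τ : Representation (ZMod q) Γ D) (N : Subgroup Γ) : Prop where
  comm : ∀ c ∈ ⁅N, N⁆, ∀ c' ∈ ⁅N, N⁆, τ c * τ c' = τ c' * τ c
  fpf : ∀ c ∈ ⁅N, N⁆, ∀ d : D, d ≠ 0 → τ c d = d → τ c = 1
  ab : (∀ u ∈ N, ∀ v ∈ N, τ u * τ v = τ v * τ u) → ∀ n ∈ N, ∀ d : D, d ≠ 0 → τ n d = d → τ n = 1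
  idx : ∀ c ∈ ⁅N, N⁆, ∀ c' ∈ ⁅N, N⁆, Sq τ N c ∨ Sq τ N c' ∨ Sq τ N (c * c')
  dich : (∀ c ∈ ⁅N, N⁆, τ (c * c) = 1) ∨
    (∀ u ∈ N, ∀ v ∈ N, Sq τ N ⁅u, v⁆ → (∃ w ∈ N, ¬ Sq τ N ⁅u, w⁆) → (∃ w ∈ N, ¬ Sq τ N ⁅v, w⁆) →
      ∀ w ∈ N, (Sq τ N ⁅u, w⁆ ↔ Sq τ N ⁅v, w⁆))

/-- `Sq` on the block of the idempotent `e`. -/
def SqV {H : Type} [Group H] {q : ℕ} {V : Type} [AddCommGroup V] [Module (ZMod q) V]
    (ρ : Representation (ZMod q) H V) (N : Subgroup H) (e : Module.End (ZMod q) V) (c : H) : Prop :=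
  ∃ s ∈ ⁅N, N⁆, ρ c * e = ρ (s * s) * e

/-- `Loc2` on the block of the idempotent `e`. -/
structure Loc2V {H : Type} [Group H] {q : ℕ} {V : Type} [AddCommGroup V] [Module (ZMod q) V]
    (ρ : Representation (ZMod q) H V) (N : Subgroup H) (e : Module.End (ZMod q) V) : Prop where
  comm : ∀ c ∈ ⁅N, N⁆, ∀ c' ∈ ⁅N, N⁆, ρ c * ρ c' * e = ρ c' * ρ c * e
  fpf : ∀ c ∈ ⁅N, N⁆, ∀ v : V, v ≠ 0 → e v = v → ρ c v = v → ρ c * e = e
  ab : (∀ u ∈ N, ∀ v ∈ N, ρ u * ρ v * e = ρ v * ρ u * e) →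
    ∀ n ∈ N, ∀ v : V, v ≠ 0 → e v = v → ρ n v = v → ρ n * e = e
  idx : ∀ c ∈ ⁅N, N⁆, ∀ c' ∈ ⁅N, N⁆, SqV ρ N e c ∨ SqV ρ N e c' ∨ SqV ρ N e (c * c')
  dich : (∀ c ∈ ⁅N, N⁆, ρ (c * c) * e = e) ∨
    (∀ u ∈ N, ∀ v ∈ N, SqV ρ N e ⁅u, v⁆ → (∃ w ∈ N, ¬ SqV ρ N e ⁅u, w⁆) →
      (∃ w ∈ N, ¬ SqV ρ N e ⁅v, w⁆) → ∀ w ∈ N, (SqV ρ N e ⁅u, w⁆ ↔ SqV ρ N e ⁅v, w⁆))

open Classical in
/-- The commutator form of the block `e`. -/
noncomputable def Bf {H : Type} [Group H] {q : ℕ} {V : Type} [AddCommGroup V] [Module (ZMod q) V]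
    (ρ : Representation (ZMod q) H V) (N : Subgroup H) (e : Module.End (ZMod q) V) (c : H) :
    ZMod 2 :=
  if SqV ρ N e c then 0 else 1

end Pool.Agent.Helper218.NV
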