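import Pool.Agent.Helper218.NV.Defs



namespace Pool.Agent.Helper218.NV
open scoped BigOperators commutatorElement


/-- the stabiliser -/
def j21750_S {H : Type} [Group H] {q : ℕ} {V : Type} [AddCommGroup V] [Module (ZMod q) V]
    (ρ : Representation (ZMod q) H V) (J : Subgroup H) (v : V) : Subgroup H where
  carrier := {u | u ∈ J ∧ ρ u v = v}
  one_mem' := ⟨J.one_mem, by rw [map_one]; rfl⟩
  mul_mem' := by
    rintro a b ⟨ha, ha'⟩ ⟨hb, hb'⟩
    refine ⟨J.mul_mem ha hb, ?_⟩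
    rw [map_mul, Module.End.mul_apply, hb', ha']
  inv_mem' := by
    rintro a ⟨ha, ha'⟩
    refine ⟨J.inv_mem ha, ?_⟩
    have h1 : ρ a⁻¹ (ρ a v) = v := by
      rw [← Module.End.mul_apply, ← map_mul, inv_mul_cancel, map_one]
      rfl
    rw [ha'] at h1
    exact h1

theorem j21750_mem {H : Type} [Group H] {q : ℕ} {V : Type} [AddCommGroup V] [Module (ZMod q) V]
    (ρ : Representation (ZMod q) H V) (J : Subgroup H) (v : V) (u : H) :
    u ∈ j21750_S ρ J v ↔ u ∈ J ∧ ρ u v = v := Iff.rfl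

theorem abelian_stab {H : Type} [Group H] [Finite H] {q : ℕ} [Fact q.Prime] {V : Type}
    [AddCommGroup V] [Module (ZMod q) V] [Finite V] (ρ : Representation (ZMod q) H V)
    (J : Subgroup H) (hcop : Nat.Coprime (Nat.card J) q) (e : Module.End (ZMod q) V)
    (he : e * e = e) (hne : e ≠ 0) (hJe : ∀ u ∈ J, ρ u * e = e * ρ u)
    (hJ : ∀ u ∈ J, ∀ v ∈ J, ρ u * ρ v * e = ρ v * ρ u * e) :
    ∃ v : V, v ≠ 0 ∧ e v = v ∧ ∀ u ∈ J, ρ u v = v → ρ u * e = e := by
  classical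
  have hnon : {v : V | v ≠ 0 ∧ e v = v}.Nonempty := by
    by_contra hcon
    apply hne
    ext x
    by_contra hx
    apply hcon
    refine ⟨e x, hx, ?_⟩
    rw [← Module.End.mul_apply, he]
  obtain ⟨v, ⟨hv0, hev⟩, hmin⟩ := WellFounded.has_min
    (measure (fun v : V => Nat.card (j21750_S ρ J v))).wf {v : V | v ≠ 0 ∧ e v = v} hnon
  refine ⟨v, hv0, hev, fun u0 hu0 hu0v => ?_⟩
  by_contra hcon
  haveI : Fintype (j21750_S ρ J v) := Fintype.ofFinite _
  have hSJ : j21750_S ρ J v ≤ J := fun u hu => hu.1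
  have hcard : ((Nat.card (j21750_S ρ J v) : ℕ) : ZMod q) ≠ 0 := by
    intro h0
    rw [ZMod.natCast_eq_zero_iff] at h0
    have h1 := h0.trans (Subgroup.card_dvd_of_le hSJ)
    have h2 : q ∣ Nat.gcd (Nat.card J) q := Nat.dvd_gcd h1 dvd_rfl
    rw [hcop] at h2
    exact (Fact.out : q.Prime).one_lt.ne' (Nat.dvd_one.1 h2)
  obtain ⟨P, hP⟩ : ∃ P : Module.End (ZMod q) V,
      P = ((Nat.card (j21750_S ρ J v) : ℕ) : ZMod q)⁻¹ • ∑ s : j21750_S ρ J v, ρ (s : H) :=
    ⟨_, rfl⟩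
  have hPapp : ∀ x, P x = ((Nat.card (j21750_S ρ J v) : ℕ) : ZMod q)⁻¹ •
      ∑ s : j21750_S ρ J v, ρ (s : H) x := by
    intro x
    rw [hP, LinearMap.smul_apply, LinearMap.sum_apply]
  have hconst : ∀ x : V, ((Nat.card (j21750_S ρ J v) : ℕ) : ZMod q)⁻¹ •
      ∑ _s : j21750_S ρ J v, x = x := by
    intro x
    rw [Finset.sum_const, Finset.card_univ, ← Nat.card_eq_fintype_card,
      ← Nat.cast_smul_eq_nsmul (ZMod q), smul_smul, inv_mul_cancel₀ hcard, one_smul]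
  have ha : ∀ s ∈ j21750_S ρ J v, ∀ x, ρ s (P x) = P x := by
    intro s hs x
    rw [hPapp, map_smul, map_sum]
    congr 1
    have h1 : ∀ s' : j21750_S ρ J v, ρ s (ρ (s' : H) x) =
        ρ (((Equiv.mulLeft (⟨s, hs⟩ : j21750_S ρ J v)) s' : j21750_S ρ J v) : H) x := by
      intro s'
      rw [← Module.End.mul_apply, ← map_mul]
      rfl
    rw [Finset.sum_congr rfl (fun s' _ => h1 s')]
    exact Equiv.sum_comp (Equiv.mulLeft (⟨s, hs⟩ : j21750_S ρ J v))
      (fun s' : j21750_S ρ J v => ρ (s' : H) x)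
  have hfix : ∀ x, (∀ s ∈ j21750_S ρ J v, ρ s x = x) → P x = x := by
    intro x hx
    rw [hPapp, Finset.sum_congr rfl (fun s _ => hx s.1 s.2)]
    exact hconst x
  have hPv : P v = v := hfix v (fun s hs => hs.2)
  have hPP : ∀ x, P (P x) = P x := fun x => hfix (P x) (fun s hs => ha s hs x)
  have hPu : ∀ u ∈ J, ∀ x, ρ u (P (e x)) = P (ρ u (e x)) := by
    intro u hu x
    rw [hPapp, hPapp, map_smul, map_sum]
    congr 1
    refine Finset.sum_congr rfl fun s _ => ?_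
    have h1 := LinearMap.congr_fun (hJ u hu s.1 (hSJ s.2)) x
    exact h1
  have hPe : ∀ x, P (e x) = e (P x) := by
    intro x
    rw [hPapp, hPapp, map_smul, map_sum]
    congr 1
    refine Finset.sum_congr rfl fun s _ => ?_
    exact LinearMap.congr_fun (hJe s.1 (hSJ s.2)) x
  have hw : ∃ w, e w = w ∧ P w ≠ w := by
    by_contra hno
    push Not at hno
    apply hcon
    ext x
    have h1 : e (e x) = e x := by rw [← Module.End.mul_apply, he]
    have h2 := hno (e x) h1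
    have h3 := ha u0 ⟨hu0, hu0v⟩ (e x)
    rw [h2] at h3
    exact h3
  obtain ⟨w, hew, hPw⟩ := hw
  have hm0 : w - P w ≠ 0 := fun h => hPw (sub_eq_zero.1 h).symm
  have hem : e (w - P w) = w - P w := by
    rw [map_sub, ← hPe, hew]
  have hPm : P (w - P w) = 0 := by
    rw [map_sub, hPP, sub_self]
  obtain ⟨m, hm⟩ : ∃ m, m = w - P w := ⟨_, rfl⟩
  rw [← hm] at hm0 hem hPm
  have hev' : e (v + m) = v + m := by rw [map_add, hev, hem]
  have hPv' : P (v + m) = v := by rw [map_add, hPv, hPm, add_zero]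
  have hv'0 : v + m ≠ 0 := by
    intro h0
    rw [h0, map_zero] at hPv'
    exact hv0 hPv'.symm
  have hsub : ∀ u ∈ J, ρ u (v + m) = v + m → ρ u v = v ∧ ρ u m = m := by
    intro u hu h1
    have h2 := hPu u hu (v + m)
    rw [hev', h1, hPv'] at h2
    refine ⟨h2, ?_⟩
    rw [map_add, h2] at h1
    exact add_left_cancel h1
  have hle : j21750_S ρ J (v + m) ≤ j21750_S ρ J v := fun u hu => ⟨hu.1, (hsub u hu.1 hu.2).1⟩
  have hlt : ¬ Nat.card (j21750_S ρ J (v + m)) < Nat.card (j21750_S ρ J v) :=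
    hmin (v + m) ⟨hv'0, hev'⟩
  have heq := Subgroup.eq_of_le_of_card_ge hle (not_lt.1 hlt)
  apply hm0
  rw [← hfix m, hPm]
  intro s hs
  rw [← heq] at hs
  exact (hsub s hs.1 hs.2).2

end Pool.Agent.Helper218.NV
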