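import Pool.Agent.Helper218.NV.Defs



namespace Pool.Agent.Helper218.NV
open scoped BigOperators commutatorElement


theorem bf_hom {H : Type} [Group H] {q : ℕ} {V : Type} [AddCommGroup V] [Module (ZMod q) V]
    (ρ : Representation (ZMod q) H V) (N : Subgroup H) (hNn : N.Normal)
    (e : Module.End (ZMod q) V) (hc : ∀ n ∈ N, ρ n * e = e * ρ n) (hL : Loc2V ρ N e) :
    ∀ c ∈ ⁅N, N⁆, ∀ c' ∈ ⁅N, N⁆, Bf ρ N e (c * c') = Bf ρ N e c + Bf ρ N e c' := by
  have hle : ⁅N, N⁆ ≤ N := by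
    rw [Subgroup.commutator_le]
    intro a ha b hb
    exact N.mul_mem (N.mul_mem (N.mul_mem ha hb) (N.inv_mem ha)) (N.inv_mem hb)
  have hmul : ∀ c ∈ ⁅N, N⁆, ∀ c' ∈ ⁅N, N⁆, SqV ρ N e c → SqV ρ N e c' → SqV ρ N e (c * c') := by
    rintro c hcc c' hcc' ⟨s, hs, h1⟩ ⟨s', hs', h2⟩
    refine ⟨s * s', Subgroup.mul_mem _ hs hs', ?_⟩
    have e1 : ρ (s' * s') * e = e * ρ (s' * s') := hc _ (N.mul_mem (hle hs') (hle hs'))
    have e2 : ρ s' * e = e * ρ s' := hc _ (hle hs')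
    have e3 := hL.comm s hs s' hs'
    calc ρ (c * c') * e = ρ c * (ρ c' * e) := by rw [map_mul, mul_assoc]
      _ = ρ c * e * ρ (s' * s') := by rw [h2, e1, mul_assoc]
      _ = ρ (s * s) * (e * ρ (s' * s')) := by rw [h1, mul_assoc]
      _ = ρ s * ((ρ s * ρ s') * (ρ s' * e)) := by
        rw [← e1, map_mul, map_mul]; simp only [mul_assoc]
      _ = ρ s * ((ρ s * ρ s' * e) * ρ s') := by rw [e2]; simp only [mul_assoc]
      _ = ρ s * ((ρ s' * ρ s * e) * ρ s') := by rw [e3]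
      _ = ρ (s * s' * (s * s')) * e := by
        rw [mul_assoc (ρ s' * ρ s) e, ← e2]
        simp only [map_mul, mul_assoc]
  have hinv : ∀ c ∈ ⁅N, N⁆, SqV ρ N e c → SqV ρ N e c⁻¹ := by
    rintro c hcc ⟨s, hs, h1⟩
    refine ⟨s⁻¹, Subgroup.inv_mem _ hs, ?_⟩
    have e1 : ρ (s * s) * e = e * ρ (s * s) := hc _ (N.mul_mem (hle hs) (hle hs))
    have e2 : ρ (s⁻¹ * s⁻¹) * e = e * ρ (s⁻¹ * s⁻¹) :=
      hc _ (N.mul_mem (N.inv_mem (hle hs)) (N.inv_mem (hle hs)))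
    have e3 : ρ c⁻¹ * ρ c = 1 := by rw [← map_mul, inv_mul_cancel, map_one]
    have e4 : ρ (s * s) * ρ (s⁻¹ * s⁻¹) = 1 := by
      rw [← map_mul]
      have : s * s * (s⁻¹ * s⁻¹) = 1 := by group
      rw [this, map_one]
    calc ρ c⁻¹ * e = ρ c⁻¹ * (e * (ρ (s * s) * ρ (s⁻¹ * s⁻¹))) := by rw [e4, mul_one]
      _ = ρ c⁻¹ * ((e * ρ (s * s)) * ρ (s⁻¹ * s⁻¹)) := by rw [mul_assoc e]
      _ = ρ c⁻¹ * ((ρ c * e) * ρ (s⁻¹ * s⁻¹)) := by rw [← e1, ← h1]
      _ = (ρ c⁻¹ * ρ c) * (e * ρ (s⁻¹ * s⁻¹)) := by simp only [mul_assoc]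
      _ = ρ (s⁻¹ * s⁻¹) * e := by rw [e3, one_mul, ← e2]
  intro c hcc c' hcc'
  have hci := Subgroup.inv_mem _ hcc
  have hci' := Subgroup.inv_mem _ hcc'
  have hcm := Subgroup.mul_mem _ hcc hcc'
  by_cases h1 : SqV ρ N e c
  · by_cases h2 : SqV ρ N e c'
    · simp only [Bf, if_pos h1, if_pos h2, if_pos (hmul c hcc c' hcc' h1 h2), add_zero]
    · have h3 : ¬ SqV ρ N e (c * c') := by
        intro h
        apply h2
        have := hmul c⁻¹ hci (c * c') hcm (hinv c hcc h1) h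
        rwa [inv_mul_cancel_left] at this
      simp only [Bf, if_pos h1, if_neg h2, if_neg h3, zero_add]
  · by_cases h2 : SqV ρ N e c'
    · have h3 : ¬ SqV ρ N e (c * c') := by
        intro h
        apply h1
        have := hmul (c * c') hcm c'⁻¹ hci' h (hinv c' hcc' h2)
        rwa [mul_inv_cancel_right] at this
      simp only [Bf, if_neg h1, if_pos h2, if_neg h3, add_zero]
    · have h3 : SqV ρ N e (c * c') := by
        rcases hL.idx c hcc c' hcc' with h | h | h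
        · exact absurd h h1
        · exact absurd h h2
        · exact h
      simp only [Bf, if_neg h1, if_neg h2, if_pos h3]
      decide

end Pool.Agent.Helper218.NV
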