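import Pool.Agent.Helper218.NV.Defs
import Pool.Agent.Helper218.NV.P_bf_hom



namespace Pool.Agent.Helper218.NV
open scoped BigOperators commutatorElement


theorem bf_conj_aux {H : Type} [Group H] {q : ℕ} {V : Type} [AddCommGroup V] [Module (ZMod q) V]
    (ρ : Representation (ZMod q) H V) (N : Subgroup H) (hNn : N.Normal)
    (e : Module.End (ZMod q) V) (hc : ∀ n ∈ N, ρ n * e = e * ρ n) (u : H) (hu : u ∈ N) (c : H)
    (h : SqV ρ N e c) : SqV ρ N e (u * c * u⁻¹) := by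
  obtain ⟨s, hs, hse⟩ := h
  have hu' := hc u⁻¹ (N.inv_mem hu)
  have hN : (⁅N, N⁆ : Subgroup H).Normal := Subgroup.commutator_normal N N
  refine ⟨u * s * u⁻¹, hN.conj_mem s hs u, ?_⟩
  have h1 : u * s * u⁻¹ * (u * s * u⁻¹) = u * (s * s) * u⁻¹ := by group
  rw [h1, map_mul, map_mul, map_mul ρ (u * (s * s)), map_mul ρ u (s * s), mul_assoc, hu',
    mul_assoc (ρ u * ρ (s * s)), hu']
  rw [← mul_assoc, mul_assoc (ρ u), hse]
  simp only [mul_assoc]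

theorem bf_bilin {H : Type} [Group H] {q : ℕ} {V : Type} [AddCommGroup V] [Module (ZMod q) V]
    (ρ : Representation (ZMod q) H V) (N : Subgroup H) (hNn : N.Normal)
    (e : Module.End (ZMod q) V) (hc : ∀ n ∈ N, ρ n * e = e * ρ n) (hL : Loc2V ρ N e) :
    (∀ u ∈ N, ∀ u' ∈ N, ∀ v ∈ N, Bf ρ N e ⁅u * u', v⁆ = Bf ρ N e ⁅u, v⁆ + Bf ρ N e ⁅u', v⁆) ∧
    (∀ u ∈ N, ∀ v ∈ N, Bf ρ N e ⁅u, v⁆ = Bf ρ N e ⁅v, u⁆) ∧
    (∀ u ∈ N, Bf ρ N e ⁅u, u⁆ = 0) := by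
  have h1 : Bf ρ N e 1 = 0 := by
    unfold Bf
    rw [if_pos]
    exact ⟨1, Subgroup.one_mem _, by rw [mul_one]⟩
  have hconj : ∀ u ∈ N, ∀ c, Bf ρ N e (u * c * u⁻¹) = Bf ρ N e c := by
    intro u hu c
    unfold Bf
    have hiff : SqV ρ N e (u * c * u⁻¹) ↔ SqV ρ N e c := by
      constructor
      · intro h
        have h2 := bf_conj_aux ρ N hNn e hc u⁻¹ (N.inv_mem hu) _ h
        have h3 : u⁻¹ * (u * c * u⁻¹) * u⁻¹⁻¹ = c := by group
        rw [h3] at h2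
        exact h2
      · exact bf_conj_aux ρ N hNn e hc u hu c
    by_cases h : SqV ρ N e c
    · rw [if_pos h, if_pos (hiff.2 h)]
    · rw [if_neg h, if_neg (fun h' => h (hiff.1 h'))]
  have hhom := bf_hom ρ N hNn e hc hL
  have hN : (⁅N, N⁆ : Subgroup H).Normal := Subgroup.commutator_normal N N
  refine ⟨?_, ?_, ?_⟩
  · intro u hu u' hu' v hv
    have h2 : ⁅u * u', v⁆ = (u * ⁅u', v⁆ * u⁻¹) * ⁅u, v⁆ := by
      simp only [commutatorElement_def]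
      group
    have h3 : ⁅u', v⁆ ∈ ⁅N, N⁆ := Subgroup.commutator_mem_commutator hu' hv
    have h4 : ⁅u, v⁆ ∈ ⁅N, N⁆ := Subgroup.commutator_mem_commutator hu hv
    rw [h2, hhom _ (hN.conj_mem _ h3 u) _ h4, hconj u hu, add_comm]
  · intro u hu v hv
    have h4 : ⁅u, v⁆ ∈ ⁅N, N⁆ := Subgroup.commutator_mem_commutator hu hv
    have h5 : ⁅v, u⁆ ∈ ⁅N, N⁆ := Subgroup.commutator_mem_commutator hv hu
    have h6 := hhom _ h4 _ h5
    have h7 : ⁅u, v⁆ * ⁅v, u⁆ = 1 := by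
      simp only [commutatorElement_def]
      group
    rw [h7, h1] at h6
    generalize Bf ρ N e ⁅u, v⁆ = x at h6
    generalize Bf ρ N e ⁅v, u⁆ = y at h6
    revert x y
    decide
  · intro u hu
    rw [commutatorElement_self]
    exact h1
end Pool.Agent.Helper218.NV
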