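import Pool.Agent.Helper218.NV.Defs



namespace Pool.Agent.Helper218.NV
open scoped BigOperators commutatorElement


theorem sqv_fwd {H : Type} [Group H] {q : ℕ} {V : Type} [AddCommGroup V] [Module (ZMod q) V]
    (ρ : Representation (ZMod q) H V) (N : Subgroup H) (hNn : N.Normal)
    (e : Module.End (ZMod q) V) (h c : H) (hc : SqV ρ N e c) :
    SqV ρ N (ρ h * e * ρ h⁻¹) (h * c * h⁻¹) := by
  obtain ⟨s, hs, hse⟩ := hc
  have hn : (⁅N, N⁆ : Subgroup H).Normal := by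
    haveI := hNn
    infer_instance
  refine ⟨h * s * h⁻¹, hn.conj_mem s hs h, ?_⟩
  have hh : ρ h⁻¹ * ρ h = 1 := by rw [← map_mul, inv_mul_cancel, map_one]
  have e1 : ρ (h * c * h⁻¹) * (ρ h * e * ρ h⁻¹) = ρ h * (ρ c * e) * ρ h⁻¹ := by
    rw [map_mul, map_mul]
    calc ρ h * ρ c * ρ h⁻¹ * (ρ h * e * ρ h⁻¹) = ρ h * ρ c * (ρ h⁻¹ * ρ h) * e * ρ h⁻¹ := by
          simp only [mul_assoc]
      _ = ρ h * (ρ c * e) * ρ h⁻¹ := by rw [hh, mul_one]; simp only [mul_assoc]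
  have e2 : ρ (h * s * h⁻¹ * (h * s * h⁻¹)) * (ρ h * e * ρ h⁻¹) = ρ h * (ρ (s * s) * e) * ρ h⁻¹ := by
    have : h * s * h⁻¹ * (h * s * h⁻¹) = h * (s * s) * h⁻¹ := by group
    rw [this, map_mul, map_mul]
    calc ρ h * ρ (s * s) * ρ h⁻¹ * (ρ h * e * ρ h⁻¹)
        = ρ h * ρ (s * s) * (ρ h⁻¹ * ρ h) * e * ρ h⁻¹ := by
          simp only [mul_assoc]
      _ = ρ h * (ρ (s * s) * e) * ρ h⁻¹ := by rw [hh, mul_one]; simp only [mul_assoc]
  rw [e1, e2, hse]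

theorem bf_conj {H : Type} [Group H] {q : ℕ} {V : Type} [AddCommGroup V] [Module (ZMod q) V]
    (ρ : Representation (ZMod q) H V) (N : Subgroup H) (hNn : N.Normal)
    (e : Module.End (ZMod q) V) (h c : H) :
    Bf ρ N (ρ h * e * ρ h⁻¹) (h * c * h⁻¹) = Bf ρ N e c := by
  have key : SqV ρ N (ρ h * e * ρ h⁻¹) (h * c * h⁻¹) ↔ SqV ρ N e c := by
    constructor
    · intro hc
      have h1 := sqv_fwd ρ N hNn _ h⁻¹ _ hc
      have e1 : ρ h⁻¹ * (ρ h * e * ρ h⁻¹) * ρ h⁻¹⁻¹ = e := by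
        have hh : ρ h⁻¹ * ρ h = 1 := by rw [← map_mul, inv_mul_cancel, map_one]
        rw [inv_inv]
        calc ρ h⁻¹ * (ρ h * e * ρ h⁻¹) * ρ h = (ρ h⁻¹ * ρ h) * e * (ρ h⁻¹ * ρ h) := by
              simp only [mul_assoc]
          _ = e := by rw [hh, one_mul, mul_one]
      have e2 : h⁻¹ * (h * c * h⁻¹) * h⁻¹⁻¹ = c := by group
      rw [e1, e2] at h1
      exact h1
    · exact sqv_fwd ρ N hNn e h c
  unfold Bf
  by_cases hc : SqV ρ N e c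
  · rw [if_pos hc, if_pos (key.2 hc)]
  · rw [if_neg hc, if_neg (fun h' => hc (key.1 h'))]

end Pool.Agent.Helper218.NV
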