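import Pool.Agent.Helper218.NV.Defs



namespace Pool.Agent.Helper218.NV
open scoped BigOperators commutatorElement


/-- elements of `N` commuting with the action of `N` on `Ω` -/
def ZZ {H : Type} [Group H] (N : Subgroup H) (Ω : Type) [MulAction H Ω] : Set H :=
  {z | z ∈ N ∧ ∀ n ∈ N, ∀ w : Ω, z • n • w = n • z • w}

theorem ZZ_one {H : Type} [Group H] {Ω : Type} [MulAction H Ω] (N : Subgroup H) :
    (1 : H) ∈ ZZ N Ω := ⟨N.one_mem, fun n _ w => by simp⟩

theorem ZZ_mul {H : Type} [Group H] {Ω : Type} [MulAction H Ω] {N : Subgroup H} {a b : H}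
    (ha : a ∈ ZZ N Ω) (hb : b ∈ ZZ N Ω) : a * b ∈ ZZ N Ω :=
  ⟨N.mul_mem ha.1 hb.1, fun n hn w => by rw [mul_smul, mul_smul, hb.2 n hn, ha.2 n hn]⟩

theorem ZZ_inv {H : Type} [Group H] {Ω : Type} [MulAction H Ω] {N : Subgroup H} {a : H}
    (ha : a ∈ ZZ N Ω) : a⁻¹ ∈ ZZ N Ω :=
  ⟨N.inv_mem ha.1, fun n hn w => by
    rw [inv_smul_eq_iff, ha.2 n hn, smul_inv_smul]⟩

theorem ZZ_conj {H : Type} [Group H] {Ω : Type} [MulAction H Ω] {N : Subgroup H} [hN : N.Normal]
    {a : H} (ha : a ∈ ZZ N Ω) (h : H) : h * a * h⁻¹ ∈ ZZ N Ω :=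
  ⟨hN.conj_mem a ha.1 h, fun n hn w => by
    have hn' : h⁻¹ * n * h ∈ N := by
      have := hN.conj_mem n hn h⁻¹
      rwa [inv_inv] at this
    have := ha.2 (h⁻¹ * n * h) hn' (h⁻¹ • w)
    simp only [mul_smul] at this ⊢
    rw [smul_inv_smul] at this
    rw [this, smul_inv_smul]⟩

/-- orbit equivalence relation of `ZZ` -/
def stZ {H : Type} [Group H] (N : Subgroup H) (Ω : Type) [MulAction H Ω] : Setoid Ω where
  r a b := ∃ z ∈ ZZ N Ω, z • a = b
  iseqv :=
    { refl := fun a => ⟨1, ZZ_one N, one_smul H a⟩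
      symm := by
        rintro a b ⟨z, hz, rfl⟩
        exact ⟨z⁻¹, ZZ_inv hz, inv_smul_smul z a⟩
      trans := by
        rintro a b c ⟨z, hz, rfl⟩ ⟨w, hw, rfl⟩
        exact ⟨w * z, ZZ_mul hw hz, mul_smul w z a⟩ }

/-- action on the quotient -/
@[reducible] def actZ {H : Type} [Group H] (N : Subgroup H) [N.Normal] (Ω : Type)
    [MulAction H Ω] : MulAction H (Quotient (stZ N Ω)) where
  smul h := Quotient.map (fun a => h • a) (by
    rintro a b ⟨z, hz, rfl⟩
    refine ⟨h * z * h⁻¹, ZZ_conj hz h, ?_⟩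
    simp only [mul_smul, inv_smul_smul])
  one_smul := by
    intro q
    induction q using Quotient.inductionOn with
    | h a => exact congrArg (Quotient.mk _) (one_smul H a)
  mul_smul := by
    intro g h q
    induction q using Quotient.inductionOn with
    | h a => exact congrArg (Quotient.mk _) (mul_smul g h a)

theorem exists_ZZ {H : Type} [Group H] [Finite H] (Ω : Type) [MulAction H Ω] (p : ℕ)
    [Fact p.Prime] (N : Subgroup H) (hN : IsPGroup p N)
    (hmove : ∃ n ∈ N, ∃ ω : Ω, n • ω ≠ ω) : ∃ z ∈ ZZ N Ω, ∃ ω : Ω, z • ω ≠ ω := by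
  obtain ⟨n, hn, ω, hω⟩ := hmove
  set φ : N →* Equiv.Perm Ω := (MulAction.toPermHom H Ω).comp N.subtype with hφ
  have happ : ∀ (a : N) (w : Ω), φ a w = (a : H) • w := fun a w => rfl
  have hR : IsPGroup p φ.range := hN.of_surjective φ.rangeRestrict φ.rangeRestrict_surjective
  haveI : Nontrivial φ.range := by
    refine ⟨⟨φ ⟨n, hn⟩, ⟨_, rfl⟩⟩, 1, fun h => hω ?_⟩
    have h1 : φ ⟨n, hn⟩ = 1 := congrArg Subtype.val h
    have h2 := happ ⟨n, hn⟩ ω
    rw [h1] at h2
    exact h2.symm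
  haveI : Finite φ.range := Finite.of_surjective φ.rangeRestrict φ.rangeRestrict_surjective
  haveI : Nontrivial (Subgroup.center φ.range) := hR.center_nontrivial
  obtain ⟨⟨⟨c, ⟨z, hz⟩⟩, hc⟩, hne⟩ := exists_ne (1 : Subgroup.center φ.range)
  subst hz
  have hcomm : ∀ a : N, φ a * φ z = φ z * φ a := by
    intro a
    have := Subgroup.mem_center_iff.1 hc ⟨φ a, ⟨a, rfl⟩⟩
    exact congrArg Subtype.val this
  refine ⟨z, ⟨z.2, fun m hm w => ?_⟩, ?_⟩
  · have h1 := congrArg (fun e : Equiv.Perm Ω => e w) (hcomm ⟨m, hm⟩)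
    exact h1.symm
  · by_contra hcon
    push Not at hcon
    apply hne
    apply Subtype.ext
    apply Subtype.ext
    change φ z = 1
    ext w
    exact hcon w

theorem perm_aux {H : Type} [Group H] [Finite H] (p : ℕ)
    [Fact p.Prime] (N : Subgroup H) [N.Normal] (hN : IsPGroup p N) (y : H)
    (hy : Subgroup.normalClosure {y} = N) (m : ℕ) :
    ∀ (Ω : Type) [Finite Ω] [MulAction H Ω], Nat.card Ω = m →
      (∃ n ∈ N, ∃ ω : Ω, n • ω ≠ ω) →
      ∃ Δ : Set Ω, ∀ g : H, ∃ ω : Ω, ¬ ((g * y * g⁻¹) • ω ∈ Δ ↔ ω ∈ Δ) := by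
  induction m using Nat.strong_induction_on with
  | _ m ih =>
    intro Ω _ _ hcard hmove
    obtain ⟨z, hz, ω0, hω0⟩ := exists_ZZ Ω p N hN hmove
    letI := actZ N Ω
    have hyN : y ∈ N := hy ▸ Subgroup.subset_normalClosure rfl
    have hlt : Nat.card (Quotient (stZ N Ω)) < m := by
      rw [← hcard]
      have hsurj : Function.Surjective (Quotient.mk (stZ N Ω)) := Quotient.mk_surjective
      refine lt_of_le_of_ne (Nat.card_le_card_of_surjective _ hsurj) fun heq => ?_
      have hinj : Function.Injective (Quotient.mk (stZ N Ω)) := by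
        haveI := Fintype.ofFinite Ω
        haveI := Fintype.ofFinite (Quotient (stZ N Ω))
        have hbij : Function.Bijective (Quotient.mk (stZ N Ω)) := by
          rw [Fintype.bijective_iff_surjective_and_card]
          refine ⟨hsurj, ?_⟩
          rw [← Nat.card_eq_fintype_card, ← Nat.card_eq_fintype_card, heq]
        exact hbij.1
      have h1 : Quotient.mk (stZ N Ω) ω0 = Quotient.mk (stZ N Ω) (z • ω0) :=
        Quotient.sound ⟨z, hz, rfl⟩
      exact hω0 (hinj h1).symm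
    have hmk : ∀ (h : H) (w : Ω), h • (Quotient.mk (stZ N Ω) w) = Quotient.mk (stZ N Ω) (h • w) :=
      fun h w => rfl
    by_cases hc : ∃ n ∈ N, ∃ q : Quotient (stZ N Ω), n • q ≠ q
    · obtain ⟨Δ, hΔ⟩ := ih _ hlt (Quotient (stZ N Ω)) rfl hc
      refine ⟨{w | Quotient.mk (stZ N Ω) w ∈ Δ}, fun g => ?_⟩
      obtain ⟨q, hq⟩ := hΔ g
      obtain ⟨w, rfl⟩ := Quotient.exists_rep q
      exact ⟨w, hq⟩
    · push Not at hc
      refine ⟨Set.range (Quotient.out : Quotient (stZ N Ω) → Ω), fun g => ?_⟩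
      by_contra hcon
      push Not at hcon
      have huN : g * y * g⁻¹ ∈ N := (inferInstance : N.Normal).conj_mem y hyN g
      have hfix : ∀ q : Quotient (stZ N Ω), (g * y * g⁻¹) • q.out = q.out := by
        intro q
        obtain ⟨q', hq'⟩ := (hcon q.out).2 ⟨q, rfl⟩
        have h1 : q' = q := by
          have h2 : Quotient.mk (stZ N Ω) (q'.out) = Quotient.mk (stZ N Ω) ((g * y * g⁻¹) • q.out) :=
            congrArg _ hq'
          rw [Quotient.out_eq, ← hmk, Quotient.out_eq, hc _ huN q] at h2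
          exact h2
        rw [← hq', h1]
      have hall : ∀ w : Ω, (g * y * g⁻¹) • w = w := by
        intro w
        have h1 : Quotient.mk (stZ N Ω) ((Quotient.mk (stZ N Ω) w).out) = Quotient.mk (stZ N Ω) w :=
          Quotient.out_eq _
        obtain ⟨t, ht, htw⟩ : ∃ t ∈ ZZ N Ω, t • (Quotient.mk (stZ N Ω) w).out = w :=
          Quotient.exact h1
        rw [← htw, ← ht.2 _ huN, hfix]
      have hyall : ∀ w : Ω, y • w = w := by
        intro w
        have h1 := hall (g • w)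
        rw [mul_smul, mul_smul, inv_smul_smul] at h1
        exact (MulAction.injective g) h1
      have hle : N ≤ (MulAction.toPermHom H Ω).ker := by
        rw [← hy]
        apply Subgroup.normalClosure_le_normal
        rintro x rfl
        rw [SetLike.mem_coe, MonoidHom.mem_ker]
        ext w
        exact hyall w
      obtain ⟨n, hn, w, hw⟩ := hmove
      have h2 := hle hn
      rw [MonoidHom.mem_ker] at h2
      exact hw (congrArg (fun e : Equiv.Perm Ω => e w) h2)

theorem perm_lemma {H : Type} [Group H] [Finite H] (Ω : Type) [Finite Ω] [MulAction H Ω] (p : ℕ)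
    [Fact p.Prime] (N : Subgroup H) [N.Normal] (hN : IsPGroup p N) (y : H)
    (hy : Subgroup.normalClosure {y} = N) (hmove : ∃ n ∈ N, ∃ ω : Ω, n • ω ≠ ω) :
    ∃ Δ : Set Ω, ∀ g : H, ∃ ω : Ω, ¬ ((g * y * g⁻¹) • ω ∈ Δ ↔ ω ∈ Δ) :=
  perm_aux p N hN y hy _ Ω rfl hmove

end Pool.Agent.Helper218.NV
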