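import Pool.Agent.Helper218.NV.Defs
import Pool.Agent.Helper218.NV.P_perm_lemma



namespace Pool.Agent.Helper218.NV
open scoped BigOperators commutatorElement


theorem block_fix {H : Type} [Group H] [Finite H] {q : ℕ} [Fact q.Prime] {V : Type}
    [AddCommGroup V] [Module (ZMod q) V] [Finite V] (ρ : Representation (ZMod q) H V)
    (E : Finset (Module.End (ZMod q) V)) (hE : Dec ρ E) (p : ℕ) [Fact p.Prime] (N : Subgroup H)
    [N.Normal] (hN : IsPGroup p N) (y : H) (hy : Subgroup.normalClosure {y} = N)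
    (hfix : ∀ v : V, ∃ g : H, ρ (g * y * g⁻¹) v = v) :
    ∀ n ∈ N, ∀ e ∈ E, ρ n * e = e * ρ n := by
  classical
  by_contra hcon
  push Not at hcon
  obtain ⟨n, hn, e, he, hne⟩ := hcon
  have hrr : ∀ g : H, ρ g * ρ g⁻¹ = 1 := fun g => by rw [← map_mul, mul_inv_cancel, map_one]
  have hrr' : ∀ g : H, ρ g⁻¹ * ρ g = 1 := fun g => by rw [← map_mul, inv_mul_cancel, map_one]
  letI act : MulAction H {e // e ∈ E} :=
    { smul := fun h ω => ⟨ρ h * ω.1 * ρ h⁻¹, hE.inv h ω.1 ω.2⟩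
      one_smul := fun ω => Subtype.ext (by
        show ρ 1 * ω.1 * ρ 1⁻¹ = ω.1
        rw [inv_one, map_one, one_mul, mul_one])
      mul_smul := fun g h ω => Subtype.ext (by
        show ρ (g * h) * ω.1 * ρ (g * h)⁻¹ = ρ g * (ρ h * ω.1 * ρ h⁻¹) * ρ g⁻¹
        rw [mul_inv_rev, map_mul, map_mul]
        simp only [mul_assoc]) }
  have hsm : ∀ (h : H) (ω : {e // e ∈ E}), (h • ω).1 = ρ h * ω.1 * ρ h⁻¹ := fun _ _ => rfl
  obtain ⟨Δ, hΔ⟩ := perm_lemma {e // e ∈ E} p N hN y hy ⟨n, hn, ⟨e, he⟩, by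
    intro h
    apply hne
    have h1 : ρ n * e * ρ n⁻¹ = e := congrArg Subtype.val h
    calc ρ n * e = ρ n * e * (ρ n⁻¹ * ρ n) := by rw [hrr', mul_one]
      _ = (ρ n * e * ρ n⁻¹) * ρ n := by simp only [mul_assoc]
      _ = e * ρ n := by rw [h1]⟩
  have hex : ∀ ω : {e // e ∈ E}, ∃ w : V, w ≠ 0 ∧ ω.1 w = w := by
    intro ω
    have h1 : ∃ w, ω.1 w ≠ 0 := by
      by_contra hc
      push Not at hc
      exact hE.ne ω.1 ω.2 (LinearMap.ext fun w => by rw [hc w]; rfl)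
    obtain ⟨w, hw⟩ := h1
    refine ⟨ω.1 w, hw, ?_⟩
    rw [← Module.End.mul_apply, hE.idem ω.1 ω.2]
  choose vv hv0 hvv using hex
  set v : V := ∑ ω ∈ Finset.univ.filter (fun ω : {e // e ∈ E} => ω ∈ Δ), vv ω with hv
  have hval : ∀ ω : {e // e ∈ E}, ω.1 v = if ω ∈ Δ then vv ω else 0 := by
    intro ω
    rw [hv, map_sum]
    have h1 : ∀ ω' : {e // e ∈ E}, ω.1 (vv ω') = if ω = ω' then vv ω else 0 := by
      intro ω'
      by_cases h : ω = ω'
      · subst h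
        rw [if_pos rfl, hvv]
      · rw [if_neg h, ← hvv ω', ← Module.End.mul_apply,
          hE.orth ω.1 ω.2 ω'.1 ω'.2 (fun h' => h (Subtype.ext h'))]
        rfl
    simp only [h1]
    rw [Finset.sum_ite_eq]
    simp
  have hiff : ∀ ω : {e // e ∈ E}, ω ∈ Δ ↔ ω.1 v ≠ 0 := by
    intro ω
    rw [hval]
    by_cases h : ω ∈ Δ
    · simp [h, hv0]
    · simp [h]
  obtain ⟨g, hg⟩ := hfix v
  obtain ⟨ω, hω⟩ := hΔ g
  apply hω
  rw [hiff, hiff, hsm]
  have hg' : ρ (g * y * g⁻¹)⁻¹ v = v := by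
    have h1 : ρ (g * y * g⁻¹)⁻¹ (ρ (g * y * g⁻¹) v) = v := by
      rw [← Module.End.mul_apply, hrr']
      rfl
    rwa [hg] at h1
  have h2 : (ρ (g * y * g⁻¹) * ω.1 * ρ (g * y * g⁻¹)⁻¹) v = ρ (g * y * g⁻¹) (ω.1 v) := by
    rw [Module.End.mul_apply, Module.End.mul_apply, hg']
  rw [h2]
  apply not_congr
  constructor
  · intro h
    have h3 := congrArg (ρ (g * y * g⁻¹)⁻¹) h
    rw [map_zero, ← Module.End.mul_apply, hrr'] at h3
    exact h3
  · intro h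
    rw [h, map_zero]

end Pool.Agent.Helper218.NV
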