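import Pool.Agent.Helper218.NV.Defs



namespace Pool.Agent.Helper218.NV
open scoped BigOperators commutatorElement


theorem exists_res {H : Type} [Group H] {q : ℕ} {V : Type}
    [AddCommGroup V] [Module (ZMod q) V] (ρ : Representation (ZMod q) H V)
    (e : Module.End (ZMod q) V) (he : e * e = e) (Γ : Subgroup H)
    (hΓ : ∀ h ∈ Γ, ρ h * e = e * ρ h) :
    ∃ τ : Representation (ZMod q) Γ (LinearMap.range e),
      ∀ (h : Γ) (d : LinearMap.range e), ((τ h d : LinearMap.range e) : V) = ρ (h : H) (d : V) := by
  have hmem : ∀ h : Γ, ∀ d ∈ LinearMap.range e, ρ (h : H) d ∈ LinearMap.range e := by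
    rintro h d ⟨w, rfl⟩
    refine ⟨ρ (h : H) w, ?_⟩
    have h1 := hΓ h.1 h.2
    exact (LinearMap.congr_fun h1 w).symm
  let τ : Γ →* Module.End (ZMod q) (LinearMap.range e) :=
    { toFun := fun h => (ρ (h : H)).restrict (hmem h)
      map_one' := by
        ext d
        simp [LinearMap.restrict_apply]
      map_mul' := by
        intro a b
        ext d
        simp [LinearMap.restrict_apply] }
  exact ⟨τ, fun h d => rfl⟩

end Pool.Agent.Helper218.NV
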