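import Pool.Agent.Helper218.NV.Defs



namespace Pool.Agent.Helper218.NV
open scoped BigOperators commutatorElement


theorem loc2V_transfer {H : Type} [Group H] {q : ℕ} {V : Type}
    [AddCommGroup V] [Module (ZMod q) V] (ρ : Representation (ZMod q) H V)
    (e : Module.End (ZMod q) V) (he : e * e = e) (N Γ : Subgroup H) (hNΓ : N ≤ Γ)
    (hΓ : ∀ h ∈ Γ, ρ h * e = e * ρ h)
    (τ : Representation (ZMod q) Γ (LinearMap.range e))
    (hτ : ∀ (h : Γ) (d : LinearMap.range e),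
      ((τ h d : LinearMap.range e) : V) = ρ (h : H) (d : V))
    (hL : Loc2 τ (N.subgroupOf Γ)) : Loc2V ρ N e := by
  have heq : ∀ h h' : Γ, τ h = τ h' ↔ ρ (h : H) * e = ρ (h' : H) * e := by
    intro h h'
    constructor
    · intro hh
      ext v
      have h1 := congrArg (fun f => ((f ⟨e v, ⟨v, rfl⟩⟩ : LinearMap.range e) : V)) hh
      simp only [hτ] at h1
      exact h1
    · intro hh
      apply LinearMap.ext
      intro d
      obtain ⟨d, w, rfl⟩ := d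
      apply Subtype.ext
      rw [hτ, hτ]
      exact LinearMap.congr_fun hh w
  have heq1 : ∀ h : Γ, τ h = 1 ↔ ρ (h : H) * e = e := by
    intro h
    have h1 := heq h 1
    rw [map_one, Subgroup.coe_one, map_one, one_mul] at h1
    exact h1
  have hmem : ∀ c : Γ, c ∈ ⁅N.subgroupOf Γ, N.subgroupOf Γ⁆ ↔ (c : H) ∈ ⁅N, N⁆ := by
    intro c
    have h1 : Subgroup.map Γ.subtype ⁅N.subgroupOf Γ, N.subgroupOf Γ⁆ = ⁅N, N⁆ := by
      rw [Subgroup.map_commutator, Subgroup.map_subgroupOf_eq_of_le hNΓ]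
    rw [← h1]
    constructor
    · intro hc
      exact Subgroup.mem_map_of_mem Γ.subtype hc
    · intro hc
      rw [Subgroup.mem_map] at hc
      obtain ⟨c', hc', hcc⟩ := hc
      have : c' = c := Subtype.ext hcc
      rwa [← this]
  have hle : ⁅N, N⁆ ≤ N := by
    rw [Subgroup.commutator_le]
    intro a ha b hb
    rw [commutatorElement_def]
    exact N.mul_mem (N.mul_mem (N.mul_mem ha hb) (N.inv_mem ha)) (N.inv_mem hb)
  have hSq : ∀ c : Γ, Sq τ (N.subgroupOf Γ) c ↔ SqV ρ N e (c : H) := by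
    intro c
    constructor
    · rintro ⟨s, hs, h1⟩
      exact ⟨(s : H), (hmem s).mp hs, (heq _ _).mp h1⟩
    · rintro ⟨s, hs, h1⟩
      exact ⟨⟨s, hNΓ (hle hs)⟩, (hmem _).mpr hs, (heq _ _).mpr h1⟩
  have hfix : ∀ (c : Γ) (v : V) (hv : e v = v), ρ (c : H) v = v → τ c ⟨v, ⟨v, hv⟩⟩ = ⟨v, ⟨v, hv⟩⟩ := by
    intro c v hv h1
    apply Subtype.ext
    rw [hτ]
    exact h1
  have hsub : ∀ (u : H) (hu : u ∈ N), (⟨u, hNΓ hu⟩ : Γ) ∈ N.subgroupOf Γ := fun u hu => by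
    rw [Subgroup.mem_subgroupOf]
    exact hu
  refine ⟨?_, ?_, ?_, ?_, ?_⟩
  · intro c hc c' hc'
    have h1 := hL.comm ⟨c, hNΓ (hle hc)⟩ ((hmem _).mpr hc) ⟨c', hNΓ (hle hc')⟩ ((hmem _).mpr hc')
    rw [← map_mul, ← map_mul, heq] at h1
    rw [← map_mul, ← map_mul]
    exact h1
  · intro c hc v hv0 hev hcv
    have h1 := hL.fpf ⟨c, hNΓ (hle hc)⟩ ((hmem _).mpr hc) ⟨v, ⟨v, hev⟩⟩
      (fun h => hv0 (congrArg Subtype.val h)) (hfix _ v hev hcv)
    exact (heq1 _).mp h1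
  · intro hab n hn v hv0 hev hnv
    have h1 := hL.ab (fun u hu w hw => by
      rw [← map_mul, ← map_mul, heq]
      have h2 := hab (u : H) (Subgroup.mem_subgroupOf.mp hu) (w : H) (Subgroup.mem_subgroupOf.mp hw)
      rw [← map_mul, ← map_mul] at h2
      exact h2) ⟨n, hNΓ hn⟩ (hsub n hn) ⟨v, ⟨v, hev⟩⟩
      (fun h => hv0 (congrArg Subtype.val h)) (hfix _ v hev hnv)
    exact (heq1 _).mp h1
  · intro c hc c' hc'
    have h1 := hL.idx ⟨c, hNΓ (hle hc)⟩ ((hmem _).mpr hc) ⟨c', hNΓ (hle hc')⟩ ((hmem _).mpr hc')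
    rw [hSq, hSq, hSq] at h1
    exact h1
  · rcases hL.dich with h1 | h1
    · left
      intro c hc
      exact (heq1 _).mp (h1 ⟨c, hNΓ (hle hc)⟩ ((hmem _).mpr hc))
    · right
      intro u hu v hv huv hu' hv' w hw
      have hS : ∀ (a b : H) (ha : a ∈ N) (hb : b ∈ N),
          Sq τ (N.subgroupOf Γ) ⁅(⟨a, hNΓ ha⟩ : Γ), ⟨b, hNΓ hb⟩⁆ ↔ SqV ρ N e ⁅a, b⁆ := by
        intro a b ha hb
        rw [hSq]
        rfl
      obtain ⟨x, hx, hxu⟩ := hu'
      obtain ⟨y, hy, hyv⟩ := hv'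
      have h2 := h1 ⟨u, hNΓ hu⟩ (hsub u hu) ⟨v, hNΓ hv⟩ (hsub v hv) ((hS u v hu hv).mpr huv)
        ⟨⟨x, hNΓ hx⟩, hsub x hx, fun h => hxu ((hS u x hu hx).mp h)⟩
        ⟨⟨y, hNΓ hy⟩, hsub y hy, fun h => hyv ((hS v y hv hy).mp h)⟩
        ⟨w, hNΓ hw⟩ (hsub w hw)
      rw [hS u w hu hw, hS v w hv hw] at h2
      exact h2

end Pool.Agent.Helper218.NV
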