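import Pool.Agent.Helper218.NV.Defs



namespace Pool.Agent.Helper218.NV
open scoped BigOperators commutatorElement


theorem loc2_idx {Γ D : Type} [Group Γ] [Finite Γ] {q : ℕ} [Fact q.Prime]
    [AddCommGroup D] [Module (ZMod q) D] [Finite D] [Nontrivial D]
    (τ : Representation (ZMod q) Γ D) (N A X : Subgroup Γ) (g : Γ) (h : LS τ N 2 A X g) :
    ∀ c ∈ ⁅N, N⁆, ∀ c' ∈ ⁅N, N⁆, Sq τ N c ∨ Sq τ N c' ∨ Sq τ N (c * c') := by
  classical
  have hNA : ⁅N, N⁆ ≤ A := Subgroup.commutator_le.2 h.der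
  have hcomm : ∀ a ∈ (τ '' (A : Set Γ)), ∀ b ∈ (τ '' (A : Set Γ)), a * b = b * a := by
    rintro _ ⟨a, ha, rfl⟩ _ ⟨b, hb, rfl⟩
    exact h.comm a ha b hb
  letI : CommRing (Algebra.adjoin (ZMod q) (τ '' (A : Set Γ))) :=
    Algebra.adjoinCommRingOfComm (ZMod q) hcomm
  haveI : Nontrivial (Algebra.adjoin (ZMod q) (τ '' (A : Set Γ))) := by
    refine ⟨0, 1, ?_⟩
    intro h0
    have h1 : (0 : Module.End (ZMod q) D) = 1 := congrArg Subtype.val h0
    exact zero_ne_one h1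
  haveI : NoZeroDivisors (Algebra.adjoin (ZMod q) (τ '' (A : Set Γ))) := by
    constructor
    intro a b hab
    by_contra hc
    push Not at hc
    obtain ⟨ha, hb⟩ := hc
    have ha' : (a : Module.End (ZMod q) D) ≠ 0 := fun h0 => ha (Subtype.ext h0)
    obtain ⟨f', hf', _, h2⟩ := h.field a a.2 ha'
    have hab' : (a : Module.End (ZMod q) D) * b = 0 := congrArg Subtype.val hab
    apply hb
    apply Subtype.ext
    calc (b : Module.End (ZMod q) D) = (f' * a) * b := by rw [h2, one_mul]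
      _ = f' * (a * b) := by rw [mul_assoc]
      _ = 0 := by rw [hab', mul_zero]
  haveI : IsDomain (Algebra.adjoin (ZMod q) (τ '' (A : Set Γ))) := NoZeroDivisors.to_isDomain _
  let f : ↥(⁅N, N⁆) →* (Algebra.adjoin (ZMod q) (τ '' (A : Set Γ))) :=
    { toFun := fun c => ⟨τ c, Algebra.subset_adjoin ⟨c, hNA c.2, rfl⟩⟩
      map_one' := by
        apply Subtype.ext
        simp
      map_mul' := by
        intro a b
        apply Subtype.ext
        simp }
  let φ := f.toHomUnits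
  haveI : Finite φ.range := (Set.finite_range φ).to_subtype
  haveI : IsCyclic φ.range := subgroup_units_cyclic _
  obtain ⟨⟨y, t, hty⟩, hy⟩ := IsCyclic.exists_generator (α := φ.range)
  have key : ∀ c (hc : c ∈ ⁅N, N⁆), ∃ i : ℤ, τ c = τ ((t : Γ) ^ i) := by
    intro c hc
    have h1 := hy ⟨φ ⟨c, hc⟩, ⟨c, hc⟩, rfl⟩
    obtain ⟨i, hi⟩ := Subgroup.mem_zpowers_iff.1 h1
    refine ⟨i, ?_⟩
    have h2 : y ^ i = φ ⟨c, hc⟩ := congrArg Subtype.val hi
    rw [← hty, ← map_zpow] at h2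
    have h3 : f (t ^ i) = f ⟨c, hc⟩ := congrArg Units.val h2
    have h4 := congrArg Subtype.val h3
    exact h4.symm
  intro c hc c' hc'
  obtain ⟨i, hi⟩ := key c hc
  obtain ⟨j, hj⟩ := key c' hc'
  have ht : (t : Γ) ∈ ⁅N, N⁆ := t.2
  rcases Int.even_or_odd i with ⟨k, hk⟩ | hio
  · left
    exact ⟨(t : Γ) ^ k, Subgroup.zpow_mem _ ht k, by rw [hi, hk, zpow_add]⟩
  · rcases Int.even_or_odd j with ⟨k, hk⟩ | hjo
    · right; left
      exact ⟨(t : Γ) ^ k, Subgroup.zpow_mem _ ht k, by rw [hj, hk, zpow_add]⟩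
    · right; right
      obtain ⟨k, hk⟩ := hio.add_odd hjo
      refine ⟨(t : Γ) ^ k, Subgroup.zpow_mem _ ht k, ?_⟩
      rw [map_mul, hi, hj, ← map_mul, ← zpow_add, hk, zpow_add]

end Pool.Agent.Helper218.NV
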