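import Pool.Agent.Helper218.NV.Defs
import Pool.Agent.Helper218.NV.P_loc2_idx



namespace Pool.Agent.Helper218.NV
open scoped BigOperators commutatorElement


theorem loc2_dich_F2 : ∀ a b c d : ZMod 2, a * d + c * b = 0 → ¬ (a = 0 ∧ b = 0) →
    ¬ (c = 0 ∧ d = 0) → a = c ∧ b = d := by decide

theorem loc2_dich_sig {Γ D : Type} [Group Γ] {q : ℕ}
    [AddCommGroup D] [Module (ZMod q) D]
    (τ : Representation (ZMod q) Γ D) (N : Subgroup Γ) (hNn : N.Normal)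
    (hcomm : ∀ a ∈ ⁅N, N⁆, ∀ b ∈ ⁅N, N⁆, τ a * τ b = τ b * τ a)
    (hidx : ∀ c ∈ ⁅N, N⁆, ∀ c' ∈ ⁅N, N⁆, Sq τ N c ∨ Sq τ N c' ∨ Sq τ N (c * c')) :
    ∃ σ : Γ → ZMod 2, (∀ c, σ c = 0 ↔ Sq τ N c) ∧
      (∀ a ∈ ⁅N, N⁆, ∀ b ∈ ⁅N, N⁆, σ (a * b) = σ a + σ b) ∧
      (∀ a, σ a⁻¹ = σ a) ∧ (∀ n a, σ (n * a * n⁻¹) = σ a) := by
  classical
  haveI : (⁅N, N⁆ : Subgroup Γ).Normal := Subgroup.commutator_normal N N
  have S2 : ∀ a b, Sq τ N a → Sq τ N b → Sq τ N (a * b) := by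
    rintro a b ⟨s, hs, e⟩ ⟨t, ht, e'⟩
    refine ⟨s * t, Subgroup.mul_mem _ hs ht, ?_⟩
    rw [map_mul, e, e', map_mul, map_mul, map_mul, map_mul]
    have := hcomm s hs t ht
    calc τ s * τ s * (τ t * τ t) = τ s * (τ s * τ t) * τ t := by simp only [mul_assoc]
      _ = τ s * (τ t * τ s) * τ t := by rw [this]
      _ = τ s * τ t * (τ s * τ t) := by simp only [mul_assoc]
  have S3 : ∀ a, Sq τ N a → Sq τ N a⁻¹ := by
    rintro a ⟨s, hs, e⟩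
    refine ⟨s⁻¹, Subgroup.inv_mem _ hs, ?_⟩
    have h1 : τ a⁻¹ * τ a = 1 := by rw [← map_mul, inv_mul_cancel, map_one]
    have h2 : τ (s * s) * τ (s⁻¹ * s⁻¹) = 1 := by
      rw [← map_mul]
      have : s * s * (s⁻¹ * s⁻¹) = 1 := by group
      rw [this, map_one]
    calc τ a⁻¹ = τ a⁻¹ * (τ (s * s) * τ (s⁻¹ * s⁻¹)) := by rw [h2, mul_one]
      _ = (τ a⁻¹ * τ a) * τ (s⁻¹ * s⁻¹) := by rw [e, mul_assoc]
      _ = τ (s⁻¹ * s⁻¹) := by rw [h1, one_mul]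
  have S4 : ∀ n a, Sq τ N a → Sq τ N (n * a * n⁻¹) := by
    rintro n a ⟨s, hs, e⟩
    refine ⟨n * s * n⁻¹, (inferInstance : (⁅N, N⁆ : Subgroup Γ).Normal).conj_mem s hs n, ?_⟩
    have : n * s * n⁻¹ * (n * s * n⁻¹) = n * (s * s) * n⁻¹ := by group
    rw [this, map_mul, map_mul, e, ← map_mul, ← map_mul]
  have S3' : ∀ a, Sq τ N a⁻¹ ↔ Sq τ N a := fun a => ⟨fun h => by simpa using S3 _ h, S3 a⟩
  have S4' : ∀ n a, Sq τ N (n * a * n⁻¹) ↔ Sq τ N a := fun n a => by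
    refine ⟨fun h => ?_, S4 n a⟩
    have h1 := S4 n⁻¹ _ h
    have : n⁻¹ * (n * a * n⁻¹) * n⁻¹⁻¹ = a := by group
    rwa [this] at h1
  refine ⟨fun c => if Sq τ N c then 0 else 1, ?_, ?_, ?_, ?_⟩
  · intro c
    by_cases hc : Sq τ N c <;> simp [hc]
  · intro a ha b hb
    by_cases h1 : Sq τ N a
    · by_cases h2 : Sq τ N b
      · have h3 := S2 a b h1 h2
        simp [h1, h2, h3]
      · have h3 : ¬ Sq τ N (a * b) := fun h => h2 (by
          have := S2 _ _ (S3 a h1) h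
          rwa [inv_mul_cancel_left] at this)
        simp [h1, h2, h3]
    · by_cases h2 : Sq τ N b
      · have h3 : ¬ Sq τ N (a * b) := fun h => h1 (by
          have := S2 _ _ h (S3 b h2)
          rwa [mul_inv_cancel_right] at this)
        simp [h1, h2, h3]
      · have h3 : Sq τ N (a * b) := by
          rcases hidx a ha b hb with h | h | h
          · exact absurd h h1
          · exact absurd h h2
          · exact h
        simp only [h1, h2, h3, if_true, if_false]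
        decide
  · intro a
    simp only [S3']
  · intro n a
    simp only [S4']

theorem loc2_dich {Γ D : Type} [Group Γ] [Finite Γ] {q : ℕ} [Fact q.Prime] (hq : q ≠ 2)
    [AddCommGroup D] [Module (ZMod q) D] [Finite D] [Nontrivial D]
    (τ : Representation (ZMod q) Γ D) (N A X : Subgroup Γ) (g : Γ) (hNn : N.Normal)
    (hN : IsPGroup 2 N) (h : LS τ N 2 A X g) :
    (∀ c ∈ ⁅N, N⁆, τ (c * c) = 1) ∨
    (∀ u ∈ N, ∀ v ∈ N, Sq τ N ⁅u, v⁆ → (∃ w ∈ N, ¬ Sq τ N ⁅u, w⁆) → (∃ w ∈ N, ¬ Sq τ N ⁅v, w⁆) →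
      ∀ w ∈ N, (Sq τ N ⁅u, w⁆ ↔ Sq τ N ⁅v, w⁆)) := by
  classical
  by_cases hall : ∀ c ∈ ⁅N, N⁆, τ (c * c) = 1
  · exact Or.inl hall
  right
  push Not at hall
  obtain ⟨c0, hc0, hne⟩ := hall
  have hCA : ⁅N, N⁆ ≤ A := Subgroup.commutator_le.2 h.der
  have hCN : ⁅N, N⁆ ≤ N := fun x hx => h.XN (h.AX (hCA hx))
  have hmemK : ∀ a ∈ A, τ a ∈ Algebra.adjoin (ZMod q) (τ '' (A : Set Γ)) := fun a ha =>
    Algebra.subset_adjoin ⟨a, ha, rfl⟩
  have hpm : ∀ f ∈ Algebra.adjoin (ZMod q) (τ '' (A : Set Γ)), f * f = 1 → f = 1 ∨ f = -1 := by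
    intro f hf hff
    by_cases h1 : f - 1 = 0
    · left; exact sub_eq_zero.1 h1
    · right
      obtain ⟨f', -, -, hf'2⟩ := h.field (f - 1) (Subalgebra.sub_mem _ hf (Subalgebra.one_mem _)) h1
      have h3 : (f - 1) * (f + 1) = 0 := by
        have : (f - 1) * (f + 1) = f * f - 1 := by noncomm_ring
        rw [this, hff, sub_self]
      have h2 : f + 1 = 0 := by
        calc f + 1 = f' * (f - 1) * (f + 1) := by rw [hf'2, one_mul]
          _ = f' * ((f - 1) * (f + 1)) := mul_assoc _ _ _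
          _ = 0 := by rw [h3, mul_zero]
      exact eq_neg_of_add_eq_zero_left h2
  -- an element with `τ (c * c) = -1`
  obtain ⟨c, hc, hcneg⟩ : ∃ c ∈ ⁅N, N⁆, τ (c * c) = -1 := by
    have hex : ∃ k : ℕ, τ (c0 ^ (2 ^ k)) = 1 := by
      obtain ⟨k, hk⟩ := hN ⟨c0, hCN hc0⟩
      refine ⟨k, ?_⟩
      have : c0 ^ (2 ^ k) = 1 := by
        have := congrArg Subtype.val hk
        simpa using this
      rw [this, map_one]
    have hm := Nat.find_spec hex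
    have hmin := fun k hk => Nat.find_min hex (m := k) hk
    set m := Nat.find hex with hmdef
    have hm0 : m ≠ 0 := by
      intro h0
      rw [h0, pow_zero, pow_one] at hm
      exact hne (by rw [map_mul, hm, one_mul])
    have hm1 : m ≠ 1 := by
      intro h0
      rw [h0, pow_one, pow_two] at hm
      exact hne hm
    obtain ⟨k, hk⟩ : ∃ k, m = k + 2 := ⟨m - 2, by omega⟩
    have hsq : ∀ i, c0 ^ 2 ^ i * c0 ^ 2 ^ i = c0 ^ 2 ^ (i + 1) := by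
      intro i
      rw [← pow_add, ← two_mul, pow_succ']
    refine ⟨c0 ^ (2 ^ k), Subgroup.pow_mem _ hc0 _, ?_⟩
    rw [hsq]
    have h1 : τ (c0 ^ 2 ^ (k + 1)) * τ (c0 ^ 2 ^ (k + 1)) = 1 := by
      rw [← map_mul, hsq, ← hk]
      exact hm
    rcases hpm _ (hmemK _ (hCA (Subgroup.pow_mem _ hc0 _))) h1 with h2 | h2
    · exact absurd h2 (hmin (k + 1) (by omega))
    · exact h2
  obtain ⟨σ, hσ0, hσmul, hσinv, hσconj⟩ := loc2_dich_sig τ N hNn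
    (fun a ha b hb => h.comm a (hCA ha) b (hCA hb)) (loc2_idx τ N A X g h)
  have hcm : ∀ u ∈ N, ∀ v ∈ N, ⁅u, v⁆ ∈ ⁅N, N⁆ := fun u hu v hv =>
    Subgroup.commutator_mem_commutator hu hv
  have hFl : ∀ u ∈ N, ∀ u' ∈ N, ∀ v ∈ N, σ ⁅u * u', v⁆ = σ ⁅u, v⁆ + σ ⁅u', v⁆ := by
    intro u hu u' hu' v hv
    have e : ⁅u * u', v⁆ = (u * ⁅u', v⁆ * u⁻¹) * ⁅u, v⁆ := by
      simp only [commutatorElement_def]; group
    have hn : (⁅N, N⁆ : Subgroup Γ).Normal := Subgroup.commutator_normal N N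
    rw [e, hσmul _ (hn.conj_mem _ (hcm u' hu' v hv) u) _ (hcm u hu v hv), hσconj, add_comm]
  have hFs : ∀ u v, σ ⁅u, v⁆ = σ ⁅v, u⁆ := by
    intro u v
    rw [← commutatorElement_inv, hσinv]
  have hFr : ∀ u ∈ N, ∀ v ∈ N, ∀ v' ∈ N, σ ⁅u, v * v'⁆ = σ ⁅u, v⁆ + σ ⁅u, v'⁆ := by
    intro u hu v hv v' hv'
    rw [hFs, hFl v hv v' hv' u hu, hFs v u, hFs v' u]
  have hFpow : ∀ (k : ℕ), ∀ v ∈ N, σ ⁅g ^ k, v⁆ = (k : ZMod 2) * σ ⁅g, v⁆ := by
    intro k v hv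
    induction k with
    | zero =>
      rw [pow_zero, commutatorElement_one_left, Nat.cast_zero, zero_mul, hσ0]
      exact ⟨1, Subgroup.one_mem _, by rw [mul_one]⟩
    | succ k ih =>
      rw [pow_succ, hFl _ (Subgroup.pow_mem _ h.gN k) g h.gN v hv, ih, Nat.cast_succ, add_mul,
        one_mul]
  have hFself : ∀ u, σ ⁅u, u⁆ = 0 := by
    intro u
    rw [commutatorElement_self, hσ0]
    exact ⟨1, Subgroup.one_mem _, by rw [mul_one]⟩
  have hFX : ∀ x ∈ X, ∀ y ∈ X, σ ⁅x, y⁆ = 0 := by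
    intro x hx y hy
    rw [hσ0]
    have h1 : τ ⁅x, y⁆ * τ ⁅x, y⁆ = 1 := by
      rw [← map_mul, ← pow_two]
      exact h.pow x hx y hy
    rcases hpm _ (hmemK _ (h.der x (h.XN hx) y (h.XN hy))) h1 with h2 | h2
    · exact ⟨1, Subgroup.one_mem _, by rw [h2, mul_one, map_one]⟩
    · exact ⟨c, hc, by rw [h2, hcneg]⟩
  choose! j x hx hjx using h.cyc
  have key : ∀ u ∈ N, ∀ v ∈ N, σ ⁅u, v⁆ = (j u : ZMod 2) * σ ⁅g, x v⁆ + (j v : ZMod 2) * σ ⁅g, x u⁆ := by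
    intro u hu v hv
    have hxu := h.XN (hx u hu)
    have hxv := h.XN (hx v hv)
    have hgu : g ^ j u ∈ N := Subgroup.pow_mem _ h.gN _
    have hgv : g ^ j v ∈ N := Subgroup.pow_mem _ h.gN _
    conv_lhs => rw [hjx u hu, hjx v hv]
    rw [hFl _ hgu _ hxu _ (Subgroup.mul_mem _ hgv hxv), hFr _ hgu _ hgv _ hxv,
      hFr _ hxu _ hgv _ hxv, hFX _ (hx u hu) _ (hx v hv), hFpow _ _ hgv, hFpow _ _ hxv,
      hFs (x u) (g ^ j v), hFpow _ _ hxu, hFs g (g ^ j v), hFpow _ _ h.gN, hFself]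
    ring
  intro u hu v hv huv hwu hwv w hw
  obtain ⟨w1, hw1, hn1⟩ := hwu
  obtain ⟨w2, hw2, hn2⟩ := hwv
  rw [← hσ0, key u hu v hv] at huv
  rw [← hσ0, key u hu w1 hw1] at hn1
  rw [← hσ0, key v hv w2 hw2] at hn2
  have e := loc2_dich_F2 (j u) (σ ⁅g, x u⁆) (j v) (σ ⁅g, x v⁆) huv
    (fun hh => hn1 (by rw [hh.1, hh.2]; ring)) (fun hh => hn2 (by rw [hh.1, hh.2]; ring))
  rw [← hσ0, ← hσ0, key u hu w hw, key v hv w hw, e.1, e.2]

end Pool.Agent.Helper218.NV
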