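import Pool.Agent.Helper218.NV.Defs



namespace Pool.Agent.Helper218.NV
open scoped BigOperators commutatorElement


theorem ls_fpf {Γ D : Type} [Group Γ] {q : ℕ} {p : ℕ} [AddCommGroup D] [Module (ZMod q) D]
    (τ : Representation (ZMod q) Γ D) (N A X : Subgroup Γ) (g : Γ) (h : LS τ N p A X g) :
    ∀ a ∈ A, ∀ d : D, d ≠ 0 → τ a d = d → τ a = 1 := by
  intro a ha d hd had
  by_contra hne
  have hmem : τ a - 1 ∈ Algebra.adjoin (ZMod q) (τ '' (A : Set Γ)) :=
    Subalgebra.sub_mem _ (Algebra.subset_adjoin ⟨a, ha, rfl⟩) (Subalgebra.one_mem _)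
  obtain ⟨f', _, _, h2⟩ := h.field (τ a - 1) hmem (sub_ne_zero.2 hne)
  apply hd
  have h3 : (τ a - 1) d = 0 := by
    rw [LinearMap.sub_apply, had]
    simp
  have h4 : (f' * (τ a - 1)) d = d := by rw [h2]; rfl
  rw [Module.End.mul_apply, h3, map_zero] at h4
  exact h4.symm

end Pool.Agent.Helper218.NV
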