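import Pool.Agent.Helper218.NV.Defs
import Pool.Agent.Helper218.NV.P_ls_fpf
import Pool.Agent.Helper218.NV.P_loc2_idx
import Pool.Agent.Helper218.NV.P_loc2_dich



namespace Pool.Agent.Helper218.NV
open scoped BigOperators commutatorElement


theorem loc2_of_ls {Γ D : Type} [Group Γ] [Finite Γ] {q : ℕ} [Fact q.Prime] (hq : q ≠ 2)
    [AddCommGroup D] [Module (ZMod q) D] [Finite D] [Nontrivial D]
    (τ : Representation (ZMod q) Γ D) (N A X : Subgroup Γ) (g : Γ) (hNn : N.Normal)
    (hN : IsPGroup 2 N) (h : LS τ N 2 A X g) : Loc2 τ N := by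
  have hle : ⁅N, N⁆ ≤ A := Subgroup.commutator_le.2 h.der
  exact
    { comm := fun c hc c' hc' => h.comm c (hle hc) c' (hle hc')
      fpf := fun c hc d hd hcd => ls_fpf τ N A X g h c (hle hc) d hd hcd
      ab := fun hab n hn d hd hnd => by
        have h1 : n ∈ X := h.memX n hn (fun a ha => hab n hn a (h.XN (h.AX ha)))
        have h2 : n ∈ A := h.cen n h1 (fun x hx => hab n hn x (h.XN hx))
        exact ls_fpf τ N A X g h n h2 d hd hnd
      idx := loc2_idx τ N A X g h
      dich := loc2_dich hq τ N A X g hNn hN h }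

end Pool.Agent.Helper218.NV
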