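import Pool.Agent.Helper218.NV.Defs



namespace Pool.Agent.Helper218.NV
open scoped BigOperators commutatorElement


theorem ls_cyc_aux (k R : Type) [Field k] [F : Field R] [alg : Algebra k R] [Finite R] :
    IsCyclic (R ≃ₐ[k] R) := inferInstance

abbrev CycP (k R : Type) [Field k] [Ring R] [Algebra k R] : Prop := IsCyclic (R ≃ₐ[k] R)

theorem ls_cyc_aux2 (k R : Type) [Field k] [rR : Ring R] [alg : Algebra k R] [Finite R]
    (P : Prop) (hP : CycP k R → P) :
    ∀ (F : Field R), (F.toDivisionRing.toRing = rR) → P := by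
  intro F h
  subst h
  exact hP (@ls_cyc_aux k R _ F alg _)

theorem ls_cyc_ring (k R : Type) [Field k] [rR : Ring R] [alg : Algebra k R] [Finite R]
    [Nontrivial R] (hcomm : ∀ x y : R, x * y = y * x) (hinv : ∀ x : R, x ≠ 0 → ∃ y, x * y = 1) :
    IsCyclic (R ≃ₐ[k] R) := by
  have hf : IsField R := ⟨exists_pair_ne R, hcomm, fun {a} ha => hinv a ha⟩
  exact ls_cyc_aux2 k R _ id hf.toField rfl

theorem ls_cyc {Γ D : Type} [Group Γ] [Finite Γ] {q : ℕ} [Fact q.Prime]
    [AddCommGroup D] [Module (ZMod q) D] [Finite D] [Nontrivial D]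
    (τ : Representation (ZMod q) Γ D) (N A : Subgroup Γ) (hAn : A.Normal)
    (hA : ∀ a ∈ A, ∀ b ∈ A, τ a * τ b = τ b * τ a)
    (hfield : ∀ f ∈ Algebra.adjoin (ZMod q) (τ '' (A : Set Γ)), f ≠ 0 →
      ∃ f' ∈ Algebra.adjoin (ZMod q) (τ '' (A : Set Γ)), f * f' = 1 ∧ f' * f = 1) :
    ∃ g ∈ N, ∀ n ∈ N, ∃ j : ℕ, ∀ a ∈ A,
      τ ((g ^ j)⁻¹ * n) * τ a = τ a * τ ((g ^ j)⁻¹ * n) := by
  classical
  have hcommS : ∀ a ∈ (τ '' (A : Set Γ)), ∀ b ∈ (τ '' (A : Set Γ)), a * b = b * a := by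
    rintro _ ⟨a, ha, rfl⟩ _ ⟨b, hb, rfl⟩
    exact hA a ha b hb
  have hcommK : ∀ x y : Algebra.adjoin (ZMod q) (τ '' (A : Set Γ)), x * y = y * x := by
    letI := Algebra.adjoinCommRingOfComm (ZMod q) hcommS
    intro x y
    exact mul_comm x y
  have hmem : ∀ (n : Γ) (f : Module.End (ZMod q) D),
      f ∈ Algebra.adjoin (ZMod q) (τ '' (A : Set Γ)) →
      τ n * f * τ n⁻¹ ∈ Algebra.adjoin (ZMod q) (τ '' (A : Set Γ)) := by
    intro n f hf
    have h1 : τ n⁻¹ * τ n = 1 := by rw [← map_mul, inv_mul_cancel, map_one]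
    have h2 : τ n * τ n⁻¹ = 1 := by rw [← map_mul, mul_inv_cancel, map_one]
    induction hf using Algebra.adjoin_induction with
    | mem x hx =>
      obtain ⟨a, ha, rfl⟩ := hx
      rw [← map_mul, ← map_mul]
      exact Algebra.subset_adjoin ⟨_, hAn.conj_mem a ha n, rfl⟩
    | algebraMap r =>
      rw [Algebra.algebraMap_eq_smul_one, mul_smul_comm, mul_one, smul_mul_assoc, h2]
      exact Subalgebra.smul_mem _ (Subalgebra.one_mem _) r
    | add x y _ _ hx hy =>
      rw [mul_add, add_mul]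
      exact Subalgebra.add_mem _ hx hy
    | mul x y _ _ hx hy =>
      have : τ n * (x * y) * τ n⁻¹ = (τ n * x * τ n⁻¹) * (τ n * y * τ n⁻¹) := by
        calc τ n * (x * y) * τ n⁻¹ = τ n * x * 1 * y * τ n⁻¹ := by
              rw [mul_one, mul_assoc (τ n) x y]
          _ = τ n * x * (τ n⁻¹ * τ n) * y * τ n⁻¹ := by rw [h1]
          _ = (τ n * x * τ n⁻¹) * (τ n * y * τ n⁻¹) := by simp only [mul_assoc]
      rw [this]
      exact Subalgebra.mul_mem _ hx hy
  have hinv1 : ∀ n : Γ, τ n⁻¹ * τ n = 1 := fun n => by rw [← map_mul, inv_mul_cancel, map_one]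
  have hinv2 : ∀ n : Γ, τ n * τ n⁻¹ = 1 := fun n => by rw [← map_mul, mul_inv_cancel, map_one]
  let c0 : Γ → (Algebra.adjoin (ZMod q) (τ '' (A : Set Γ)) ≃ₐ[ZMod q]
      Algebra.adjoin (ZMod q) (τ '' (A : Set Γ))) := fun n =>
    { toFun := fun f => ⟨τ n * f * τ n⁻¹, hmem n f f.2⟩
      invFun := fun f => ⟨τ n⁻¹ * f * τ n⁻¹⁻¹, hmem n⁻¹ f f.2⟩
      left_inv := by
        intro f
        apply Subtype.ext
        show τ n⁻¹ * (τ n * (f : Module.End (ZMod q) D) * τ n⁻¹) * τ n⁻¹⁻¹ = f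
        rw [inv_inv]
        calc τ n⁻¹ * (τ n * (f : Module.End (ZMod q) D) * τ n⁻¹) * τ n =
              (τ n⁻¹ * τ n) * (f : Module.End (ZMod q) D) * (τ n⁻¹ * τ n) := by
                simp only [mul_assoc]
          _ = f := by rw [hinv1, one_mul, mul_one]
      right_inv := by
        intro f
        apply Subtype.ext
        show τ n * (τ n⁻¹ * (f : Module.End (ZMod q) D) * τ n⁻¹⁻¹) * τ n⁻¹ = f
        rw [inv_inv]
        calc τ n * (τ n⁻¹ * (f : Module.End (ZMod q) D) * τ n) * τ n⁻¹ =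
              (τ n * τ n⁻¹) * (f : Module.End (ZMod q) D) * (τ n * τ n⁻¹) := by
                simp only [mul_assoc]
          _ = f := by rw [hinv2, one_mul, mul_one]
      map_mul' := by
        intro x y
        apply Subtype.ext
        show τ n * ((x : Module.End (ZMod q) D) * y) * τ n⁻¹ =
          (τ n * (x : Module.End (ZMod q) D) * τ n⁻¹) * (τ n * y * τ n⁻¹)
        calc τ n * ((x : Module.End (ZMod q) D) * y) * τ n⁻¹ =
              τ n * (x : Module.End (ZMod q) D) * 1 * y * τ n⁻¹ := by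
              rw [mul_one, mul_assoc (τ n) (x : Module.End (ZMod q) D) y]
          _ = τ n * (x : Module.End (ZMod q) D) * (τ n⁻¹ * τ n) * y * τ n⁻¹ := by rw [hinv1]
          _ = _ := by simp only [mul_assoc]
      map_add' := by
        intro x y
        apply Subtype.ext
        show τ n * ((x : Module.End (ZMod q) D) + y) * τ n⁻¹ =
          (τ n * (x : Module.End (ZMod q) D) * τ n⁻¹) + (τ n * y * τ n⁻¹)
        rw [mul_add, add_mul]
      commutes' := by
        intro r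
        apply Subtype.ext
        show τ n * (algebraMap (ZMod q) (Module.End (ZMod q) D) r) * τ n⁻¹ =
          algebraMap (ZMod q) (Module.End (ZMod q) D) r
        rw [Algebra.algebraMap_eq_smul_one, mul_smul_comm, mul_one, smul_mul_assoc, hinv2] }
  let c : Γ →* (Algebra.adjoin (ZMod q) (τ '' (A : Set Γ)) ≃ₐ[ZMod q]
      Algebra.adjoin (ZMod q) (τ '' (A : Set Γ))) :=
    { toFun := c0
      map_one' := by
        apply AlgEquiv.ext
        intro f
        apply Subtype.ext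
        show τ 1 * (f : Module.End (ZMod q) D) * τ 1⁻¹ = f
        rw [inv_one, map_one, one_mul, mul_one]
      map_mul' := by
        intro m n
        apply AlgEquiv.ext
        intro f
        apply Subtype.ext
        show τ (m * n) * (f : Module.End (ZMod q) D) * τ (m * n)⁻¹ =
          τ m * (τ n * (f : Module.End (ZMod q) D) * τ n⁻¹) * τ m⁻¹
        rw [mul_inv_rev, map_mul, map_mul]
        simp only [mul_assoc] }
  haveI hfinE : Finite (Module.End (ZMod q) D) :=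
    Finite.of_injective (fun f : Module.End (ZMod q) D => (f : D → D)) DFunLike.coe_injective
  haveI hfinK : Finite (Algebra.adjoin (ZMod q) (τ '' (A : Set Γ))) :=
    Finite.of_injective (fun f => (f : Module.End (ZMod q) D)) Subtype.val_injective
  haveI hntE : Nontrivial (Module.End (ZMod q) D) := inferInstance
  haveI hntK : Nontrivial (Algebra.adjoin (ZMod q) (τ '' (A : Set Γ))) := inferInstance
  haveI hcyc : IsCyclic (Algebra.adjoin (ZMod q) (τ '' (A : Set Γ)) ≃ₐ[ZMod q]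
      Algebra.adjoin (ZMod q) (τ '' (A : Set Γ))) := by
    apply ls_cyc_ring (ZMod q) _ hcommK
    intro x hx
    obtain ⟨f', hf', h1, _⟩ := hfield x x.2 (fun h => hx (Subtype.ext h))
    exact ⟨⟨f', hf'⟩, Subtype.ext h1⟩
  haveI : Finite (Algebra.adjoin (ZMod q) (τ '' (A : Set Γ)) ≃ₐ[ZMod q]
      Algebra.adjoin (ZMod q) (τ '' (A : Set Γ))) :=
    Finite.of_injective (fun f => (f : Algebra.adjoin (ZMod q) (τ '' (A : Set Γ)) →
      Algebra.adjoin (ZMod q) (τ '' (A : Set Γ)))) DFunLike.coe_injective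
  obtain ⟨⟨r, hr⟩, hgen⟩ := IsCyclic.exists_generator (α := N.map c)
  obtain ⟨g, hg, rfl⟩ := Subgroup.mem_map.1 hr
  refine ⟨g, hg, ?_⟩
  intro n hn
  have h1 := hgen ⟨c n, Subgroup.mem_map_of_mem c hn⟩
  rw [← mem_powers_iff_mem_zpowers] at h1
  obtain ⟨j, hj⟩ := h1
  have hj' : (c g) ^ j = c n := congrArg Subtype.val hj
  refine ⟨j, ?_⟩
  intro a ha
  have h2 : c ((g ^ j)⁻¹ * n) = 1 := by
    rw [map_mul, map_inv, map_pow, hj', inv_mul_cancel]
  have h3 : τ ((g ^ j)⁻¹ * n) * τ a * τ ((g ^ j)⁻¹ * n)⁻¹ = τ a := by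
    have h4 : c ((g ^ j)⁻¹ * n) ⟨τ a, Algebra.subset_adjoin ⟨a, ha, rfl⟩⟩ =
        ⟨τ a, Algebra.subset_adjoin ⟨a, ha, rfl⟩⟩ := by rw [h2]; rfl
    exact congrArg Subtype.val h4
  calc τ ((g ^ j)⁻¹ * n) * τ a = τ ((g ^ j)⁻¹ * n) * τ a * (τ ((g ^ j)⁻¹ * n)⁻¹ *
        τ ((g ^ j)⁻¹ * n)) := by rw [hinv1, mul_one]
    _ = (τ ((g ^ j)⁻¹ * n) * τ a * τ ((g ^ j)⁻¹ * n)⁻¹) * τ ((g ^ j)⁻¹ * n) := by
        simp only [mul_assoc]
    _ = τ a * τ ((g ^ j)⁻¹ * n) := by rw [h3]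

end Pool.Agent.Helper218.NV
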