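import Pool.Agent.Helper218.NV.Defs



namespace Pool.Agent.Helper218.NV
open scoped BigOperators commutatorElement


theorem ls_field {Γ D : Type} [Group Γ] [Finite Γ] {q : ℕ} [Fact q.Prime] (p : ℕ) [Fact p.Prime]
    [AddCommGroup D] [Module (ZMod q) D] [Finite D] [Nontrivial D]
    (τ : Representation (ZMod q) Γ D) (N : Subgroup Γ) (hpq : p ≠ q) (hN : IsPGroup p N)
    (hQ : QP τ N) (A : Subgroup Γ) (hAn : A.Normal) (hAN : A ≤ N)
    (hA : ∀ a ∈ A, ∀ b ∈ A, τ a * τ b = τ b * τ a) :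
    ∀ f ∈ Algebra.adjoin (ZMod q) (τ '' (A : Set Γ)), f ≠ 0 →
      ∃ f' ∈ Algebra.adjoin (ZMod q) (τ '' (A : Set Γ)), f * f' = 1 ∧ f' * f = 1 := by
  have hqp : q.Prime := Fact.out
  have hpp : p.Prime := Fact.out
  -- commutativity
  have hcomm : ∀ x ∈ Algebra.adjoin (ZMod q) (τ '' (A : Set Γ)),
      ∀ y ∈ Algebra.adjoin (ZMod q) (τ '' (A : Set Γ)), x * y = y * x := by
    intro x hx y hy
    have hc : ∀ a ∈ τ '' (A : Set Γ), ∀ b ∈ τ '' (A : Set Γ), a * b = b * a := by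
      rintro _ ⟨a, ha, rfl⟩ _ ⟨b, hb, rfl⟩
      exact hA a ha b hb
    have := (Algebra.adjoinCommRingOfComm (ZMod q) hc).mul_comm ⟨x, hx⟩ ⟨y, hy⟩
    exact congrArg Subtype.val this
  -- the exponent
  have hcard : Nat.Coprime q (Nat.card A) := by
    have hAp : IsPGroup p A := hN.to_le hAN
    obtain ⟨k, hk⟩ := IsPGroup.iff_card.1 hAp
    rw [hk]
    exact Nat.Coprime.pow_right k ((Nat.coprime_primes hqp hpp).2 (Ne.symm hpq))
  obtain ⟨m, hm, hmod⟩ : ∃ m, 0 < m ∧ q ^ m ≡ 1 [MOD Nat.card A] :=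
    ⟨_, Nat.totient_pos.2 Nat.card_pos, Nat.ModEq.pow_totient hcard⟩
  have hapow : ∀ a ∈ A, a ^ (q ^ m) = a := by
    intro a ha
    have h1 : (⟨a, ha⟩ : A) ^ (q ^ m) = (⟨a, ha⟩ : A) ^ 1 :=
      pow_eq_pow_iff_modEq.2 (hmod.of_dvd (orderOf_dvd_natCard _))
    rw [pow_one] at h1
    exact congrArg Subtype.val h1
  have hchar : CharP (Module.End (ZMod q) D) q :=
    charP_of_injective_algebraMap (algebraMap (ZMod q) (Module.End (ZMod q) D)).injective q
  have hfix : ∀ r ∈ Algebra.adjoin (ZMod q) (τ '' (A : Set Γ)), r ^ (q ^ m) = r := by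
    intro r hr
    induction hr using Algebra.adjoin_induction with
    | mem x hx =>
      obtain ⟨a, ha, rfl⟩ := hx
      rw [← map_pow, hapow a ha]
    | algebraMap c =>
      rw [← map_pow, ZMod.pow_card_pow]
    | add x y hx hy ihx ihy =>
      rw [add_pow_char_pow_of_commute q m (hcomm x hx y hy), ihx, ihy]
    | mul x y hx hy ihx ihy =>
      rw [Commute.mul_pow (hcomm x hx y hy), ihx, ihy]
  intro f hf hf0
  obtain ⟨n, hn⟩ : ∃ n, q ^ m = n + 2 := by
    have h1 : 2 ≤ q ^ m := by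
      calc 2 ≤ q := hqp.two_le
        _ = q ^ 1 := (pow_one q).symm
        _ ≤ q ^ m := Nat.pow_le_pow_right hqp.pos hm
    exact ⟨q ^ m - 2, by omega⟩
  have hff := hfix f hf
  rw [hn] at hff
  have ht : f ^ (n + 1) * f ^ (n + 1) = f ^ (n + 1) := by
    calc f ^ (n + 1) * f ^ (n + 1) = f ^ (n + 2) * f ^ n := by
          rw [← pow_add, ← pow_add]; congr 1; omega
      _ = f * f ^ n := by rw [hff]
      _ = f ^ (n + 1) := (pow_succ' f n).symm
  rcases hQ A hAn hAN hA (f ^ (n + 1)) (Subalgebra.pow_mem _ hf _) ht with h0 | h1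
  · exfalso
    apply hf0
    rw [← hff, pow_succ, h0, zero_mul]
  · refine ⟨f ^ n, Subalgebra.pow_mem _ hf _, ?_, ?_⟩
    · rw [← pow_succ', h1]
    · rw [← pow_succ, h1]

end Pool.Agent.Helper218.NV
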