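import Pool.Agent.Helper218.NV.Defs



namespace Pool.Agent.Helper218.NV
open scoped BigOperators commutatorElement


theorem gt_dual {X : Type} [Group X] [Finite X] (p : ℕ) [Fact p.Prime] (A X0 : Subgroup X)
    (hA : ∀ a ∈ A, ∀ x : X, a * x = x * a) (hc : IsCyclic A) (hAX : A ≤ X0)
    (hp : ∀ x ∈ X0, x ^ p ∈ A) (hcm : ∀ x ∈ X0, ∀ n : X, ⁅x, n⁆ ∈ A)
    (hz : ∀ z ∈ X0, (∀ x ∈ X0, z * x = x * z) → z ∈ A) (n : X) :
    ∃ x' ∈ X0, ∀ x ∈ X0, x * (n * x') = (n * x') * x := by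
  classical
  haveI : NeZero (Nat.card A) := ⟨Nat.card_pos.ne'⟩
  let e : A ≃* rootsOfUnity (Nat.card A) ℂ :=
    mulEquivOfCyclicCardEq (Complex.card_rootsOfUnity _).symm
  let ι : A →* ℂ := (Units.coeHom ℂ).comp ((rootsOfUnity (Nat.card A) ℂ).subtype.comp e.toMonoidHom)
  have hι : Function.Injective ι := by
    intro a b hab
    exact e.injective (Subtype.ext (Units.ext hab))
  -- bilinearity
  have hb1 : ∀ x ∈ X0, ∀ y ∈ X0, ∀ m : X, ⁅x * y, m⁆ = ⁅x, m⁆ * ⁅y, m⁆ := by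
    intro x hx y hy m
    have h1 : ⁅x * y, m⁆ = x * ⁅y, m⁆ * x⁻¹ * ⁅x, m⁆ := by
      simp only [commutatorElement_def]
      group
    have h2 := hA _ (hcm y hy m) x
    rw [h1, ← h2, mul_inv_cancel_right]
    exact hA _ (hcm y hy m) _
  have hb2 : ∀ x ∈ X0, ∀ m m' : X, ⁅x, m * m'⁆ = ⁅x, m⁆ * ⁅x, m'⁆ := by
    intro x hx m m'
    have h1 : ⁅x, m * m'⁆ = ⁅x, m⁆ * (m * ⁅x, m'⁆ * m⁻¹) := by
      simp only [commutatorElement_def]
      group
    rw [h1, ← hA _ (hcm x hx m') m, mul_inv_cancel_right]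
  let c : X → (X0 →* ℂ) := fun m =>
    { toFun := fun x => ι ⟨⁅(x : X), m⁆, hcm x x.2 m⟩
      map_one' := by
        have : (⟨⁅((1 : X0) : X), m⁆, hcm (1 : X0) (1 : X0).2 m⟩ : A) = 1 := by
          apply Subtype.ext
          show ⁅(1 : X), m⁆ = 1
          exact commutatorElement_one_left m
        rw [this, map_one]
      map_mul' := by
        intro x y
        rw [← map_mul]
        congr 1
        apply Subtype.ext
        exact hb1 x x.2 y y.2 m }
  haveI hN : (A.subgroupOf X0).Normal := by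
    refine ⟨fun a ha g => ?_⟩
    rw [Subgroup.mem_subgroupOf] at ha ⊢
    have h1 : ((g * a * g⁻¹ : X0) : X) = (a : X) := by
      push_cast
      rw [← hA _ ha (g : X), mul_inv_cancel_right]
    rw [h1]
    exact ha
  have hker : ∀ m : X, A.subgroupOf X0 ≤ (c m).ker := by
    intro m x hx
    rw [Subgroup.mem_subgroupOf] at hx
    rw [MonoidHom.mem_ker]
    have : (⟨⁅(x : X), m⁆, hcm x x.2 m⟩ : A) = 1 := by
      apply Subtype.ext
      show ⁅(x : X), m⁆ = 1
      rw [commutatorElement_eq_one_iff_mul_comm]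
      exact hA _ hx m
    show ι ⟨⁅(x : X), m⁆, hcm x x.2 m⟩ = 1
    rw [this, map_one]
  let ψ : X → ((X0 ⧸ A.subgroupOf X0) →* ℂ) := fun m =>
    QuotientGroup.lift (A.subgroupOf X0) (c m) (hker m)
  have hψ : ∀ m m' : X, ψ m = ψ m' → ∀ x ∈ X0, ⁅x, m⁆ = ⁅x, m'⁆ := by
    intro m m' h x hx
    have h1 := DFunLike.congr_fun h ((⟨x, hx⟩ : X0) : X0 ⧸ A.subgroupOf X0)
    have h2 := hι h1
    exact congrArg Subtype.val h2
  haveI : Finite ((X0 ⧸ A.subgroupOf X0) →* ℂ) :=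
    (linearIndependent_monoidHom (X0 ⧸ A.subgroupOf X0) ℂ).finite
  have hcard : Nat.card ((X0 ⧸ A.subgroupOf X0) →* ℂ) ≤ Nat.card (X0 ⧸ A.subgroupOf X0) := by
    haveI := Fintype.ofFinite ((X0 ⧸ A.subgroupOf X0) →* ℂ)
    haveI := Fintype.ofFinite (X0 ⧸ A.subgroupOf X0)
    have h1 := (linearIndependent_monoidHom (X0 ⧸ A.subgroupOf X0) ℂ).fintype_card_le_finrank
    rw [Module.finrank_fintype_fun_eq_card] at h1
    rw [Nat.card_eq_fintype_card, Nat.card_eq_fintype_card]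
    exact h1
  have hinj : Function.Injective (fun q : X0 ⧸ A.subgroupOf X0 => ψ (q.out : X)) := by
    intro q q' h
    have h1 := hψ _ _ h
    have h2 : ((q.out)⁻¹ * q'.out : X0) ∈ A.subgroupOf X0 := by
      rw [Subgroup.mem_subgroupOf]
      apply hz _ (Subtype.property _)
      intro x hx
      have h3 : ⁅x, ((q.out : X0) : X)⁻¹ * ((q'.out : X0) : X)⁆ = 1 := by
        rw [hb2 x hx, ← h1 x hx, ← hb2 x hx, inv_mul_cancel]
        exact commutatorElement_one_right x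
      rw [commutatorElement_eq_one_iff_mul_comm] at h3
      exact h3.symm
    have h4 := (QuotientGroup.eq (s := A.subgroupOf X0)).2 h2
    rw [QuotientGroup.out_eq', QuotientGroup.out_eq'] at h4
    exact h4
  obtain ⟨q, hq⟩ := (hinj.bijective_of_nat_card_le hcard).2 (ψ n)
  refine ⟨((q.out : X0) : X)⁻¹, X0.inv_mem (q.out : X0).2, fun x hx => ?_⟩
  have h1 := hψ _ _ hq x hx
  have h2 : ⁅x, n * ((q.out : X0) : X)⁻¹⁆ = 1 := by
    rw [hb2 x hx, ← h1, ← hb2 x hx, mul_inv_cancel]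
    exact commutatorElement_one_right x
  rw [commutatorElement_eq_one_iff_mul_comm] at h2
  exact h2

end Pool.Agent.Helper218.NV
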