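import Pool.Agent.Helper218.NV.Defs
import Pool.Agent.Helper218.NV.P_gt_dual



namespace Pool.Agent.Helper218.NV
open scoped BigOperators commutatorElement


theorem gt_struct_fix {Q : Type} [Group Q] [Finite Q] (p : ℕ) [hp : Fact p.Prime] (P T : Subgroup Q)
    (hP : IsPGroup p P) (hT : IsPGroup p T) (hn : ∀ n ∈ P, ∀ t ∈ T, n * t * n⁻¹ ∈ T)
    (hT1 : ∃ t ∈ T, t ≠ 1) :
    ∃ t ∈ T, t ≠ 1 ∧ t ^ p = 1 ∧ ∀ n ∈ P, t * n = n * t := by
  letI act : MulAction P T :=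
    { smul := fun n t => ⟨(n : Q) * t * (n : Q)⁻¹, hn n n.2 t t.2⟩
      one_smul := fun t => by
        apply Subtype.ext
        show ((1 : P) : Q) * t * ((1 : P) : Q)⁻¹ = t
        simp
      mul_smul := fun a b t => by
        apply Subtype.ext
        show ((a * b : P) : Q) * t * ((a * b : P) : Q)⁻¹ = (a : Q) * ((b : Q) * t * (b : Q)⁻¹) * (a : Q)⁻¹
        simp [mul_assoc] }
  have hsm : ∀ (n : P) (t : T), ((n • t : T) : Q) = (n : Q) * t * (n : Q)⁻¹ := fun n t => rfl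
  obtain ⟨t0, ht0, ht01⟩ := hT1
  haveI : Nontrivial T := ⟨⟨⟨t0, ht0⟩, 1, fun h => ht01 (congrArg Subtype.val h)⟩⟩
  obtain ⟨k, hk0, hk⟩ := hT.nontrivial_iff_card.mp inferInstance
  have hdvd : p ∣ Nat.card T := hk ▸ dvd_pow_self _ hk0.ne'
  obtain ⟨b, hb, hb1⟩ := hP.exists_fixed_point_of_prime_dvd_card_of_fixed_point T hdvd
    (a := (1 : T)) (by
      intro n
      apply Subtype.ext
      rw [hsm]
      simp)
  -- `b ≠ 1` is fixed
  have hbc : ∀ n ∈ P, (b : Q) * n = n * b := by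
    intro n hn'
    have := congrArg Subtype.val (hb ⟨n, hn'⟩)
    rw [hsm] at this
    have h2 : n * (b : Q) * n⁻¹ = b := this
    calc (b : Q) * n = (n * (b : Q) * n⁻¹) * n := by rw [h2]
      _ = n * b := by group
  obtain ⟨j, hj⟩ := (IsPGroup.iff_orderOf.mp hT) b
  have hjne : j ≠ 0 := by
    rintro rfl
    rw [pow_zero, orderOf_eq_one_iff] at hj
    exact hb1 hj.symm
  obtain ⟨j', rfl⟩ := Nat.exists_eq_succ_of_ne_zero hjne
  have hpp : p ^ j' < p ^ (j' + 1) := Nat.pow_lt_pow_right hp.out.one_lt (Nat.lt_succ_self _)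
  refine ⟨((b ^ (p ^ j') : T) : Q), (b ^ (p ^ j')).2, ?_, ?_, ?_⟩
  · intro h
    have h' : b ^ (p ^ j') = 1 := Subtype.ext h
    have := orderOf_le_of_pow_eq_one (pow_pos hp.out.pos _) h'
    rw [hj] at this
    exact absurd this (not_le.2 hpp)
  · have h' : (b ^ (p ^ j')) ^ p = 1 := by
      rw [← pow_mul, ← pow_succ, ← Nat.succ_eq_add_one, ← hj]
      exact pow_orderOf_eq_one b
    have := congrArg Subtype.val h'
    simpa using this
  · intro n hn'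
    have : Commute (b : Q) n := hbc n hn'
    simpa using (this.pow_left (p ^ j')).eq

theorem gt_struct {Γ : Type} [Group Γ] [Finite Γ] (p : ℕ) [Fact p.Prime] (N A : Subgroup Γ)
    (hNn : N.Normal) (hAn : A.Normal) (hN : IsPGroup p N) (hAN : A ≤ N)
    (hA : ∀ a ∈ A, ∀ b ∈ A, a * b = b * a)
    (hmax : ∀ B : Subgroup Γ, B.Normal → B ≤ N → (∀ a ∈ B, ∀ b ∈ B, a * b = b * a) →
      A ≤ B → B = A)
    (hc : IsCyclic A) :
    ∀ x ∈ N, (∀ a ∈ A, x * a = a * x) → x ^ p ∈ A ∧ (∀ n ∈ N, ⁅x, n⁆ ∈ A) ∧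
      (∀ y ∈ N, (∀ a ∈ A, y * a = a * y) → ⁅x, y⁆ ^ p = 1) := by
  -- the quotient map
  let π : Γ →* Γ ⧸ A := QuotientGroup.mk' A
  have hπ : ∀ g : Γ, π g = 1 ↔ g ∈ A := fun g => QuotientGroup.eq_one_iff g
  have hcomm : ∀ u n : Γ, ⁅u, n⁆ ∈ A ↔ Commute (π u) (π n) := by
    intro u n
    rw [← hπ, map_commutatorElement, commutatorElement_eq_one_iff_commute]
  have hpow : ∀ u : Γ, u ^ p ∈ A ↔ (π u) ^ p = 1 := by
    intro u
    rw [← hπ, map_pow]
  -- X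
  let X : Subgroup Γ :=
    { carrier := {n | n ∈ N ∧ ∀ a ∈ A, n * a = a * n}
      one_mem' := ⟨N.one_mem, fun a _ => by simp⟩
      mul_mem' := by
        rintro u v ⟨hu, hu'⟩ ⟨hv, hv'⟩
        exact ⟨N.mul_mem hu hv, fun a ha => by rw [mul_assoc, hv' a ha, ← mul_assoc, hu' a ha, mul_assoc]⟩
      inv_mem' := by
        rintro u ⟨hu, hu'⟩
        exact ⟨N.inv_mem hu, fun a ha => ((show Commute u a from hu' a ha).inv_left).eq⟩ }
  have hXmem : ∀ n, n ∈ X ↔ n ∈ N ∧ ∀ a ∈ A, n * a = a * n := fun n => Iff.rfl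
  let X0 : Subgroup Γ :=
    { carrier := {u | u ∈ X ∧ (π u) ^ p = 1 ∧ ∀ n ∈ N, Commute (π u) (π n)}
      one_mem' := ⟨X.one_mem, by simp, fun n _ => by rw [map_one]; exact Commute.one_left _⟩
      mul_mem' := by
        rintro u v ⟨hu, hu1, hu2⟩ ⟨hv, hv1, hv2⟩
        refine ⟨X.mul_mem hu hv, ?_, fun n hn => ?_⟩
        · rw [map_mul, (hu2 v ((hXmem v).1 hv).1).mul_pow, hu1, hv1, one_mul]
        · rw [map_mul]; exact (hu2 n hn).mul_left (hv2 n hn)
      inv_mem' := by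
        rintro u ⟨hu, hu1, hu2⟩
        refine ⟨X.inv_mem hu, ?_, fun n hn => ?_⟩
        · rw [map_inv, inv_pow, hu1, inv_one]
        · rw [map_inv]; exact (hu2 n hn).inv_left }
  have hX0mem : ∀ u, u ∈ X0 ↔ u ∈ X ∧ (π u) ^ p = 1 ∧ ∀ n ∈ N, Commute (π u) (π n) := fun u => Iff.rfl
  have hX0X : X0 ≤ X := fun u hu => ((hX0mem u).1 hu).1
  have hAX0 : A ≤ X0 := by
    intro a ha
    have h1 : π a = 1 := (hπ a).2 ha
    refine ⟨⟨hAN ha, fun b hb => hA a ha b hb⟩, ?_, fun n _ => ?_⟩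
    · rw [h1, one_pow]
    · rw [h1]; exact Commute.one_left _
  have hXn : ∀ u ∈ X, ∀ g : Γ, g * u * g⁻¹ ∈ X := by
    rintro u ⟨hu, hu'⟩ g
    refine ⟨hNn.conj_mem u hu g, fun a ha => ?_⟩
    have h1 : g⁻¹ * a * g ∈ A := by
      have := hAn.conj_mem a ha g⁻¹
      simpa using this
    have h2 := hu' _ h1
    calc g * u * g⁻¹ * a = g * (u * (g⁻¹ * a * g)) * g⁻¹ := by group
      _ = g * ((g⁻¹ * a * g) * u) * g⁻¹ := by rw [h2]
      _ = a * (g * u * g⁻¹) := by group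
  have hX0n : ∀ u ∈ X0, ∀ g : Γ, g * u * g⁻¹ ∈ X0 := by
    rintro u ⟨hu, hu1, hu2⟩ g
    refine ⟨hXn u hu g, ?_, fun n hn => ?_⟩
    · rw [map_mul, map_mul, map_inv, conj_pow, hu1, mul_one, mul_inv_cancel]
    · have h1 : g⁻¹ * n * g ∈ N := by
        have := hNn.conj_mem n hn g⁻¹
        simpa using this
      have h2 := (hu2 _ h1).eq
      show π (g * u * g⁻¹) * π n = π n * π (g * u * g⁻¹)
      calc π (g * u * g⁻¹) * π n = π g * (π u * π (g⁻¹ * n * g)) * (π g)⁻¹ := by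
            simp only [map_mul, map_inv]; group
        _ = π g * (π (g⁻¹ * n * g) * π u) * (π g)⁻¹ := by rw [h2]
        _ = π n * π (g * u * g⁻¹) := by simp only [map_mul, map_inv]; group
  -- centre of X0
  let Z : Subgroup Γ :=
    { carrier := {z | z ∈ X0 ∧ ∀ x ∈ X0, z * x = x * z}
      one_mem' := ⟨X0.one_mem, fun a _ => by simp⟩
      mul_mem' := by
        rintro u v ⟨hu, hu'⟩ ⟨hv, hv'⟩
        exact ⟨X0.mul_mem hu hv, fun a ha => by rw [mul_assoc, hv' a ha, ← mul_assoc, hu' a ha, mul_assoc]⟩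
      inv_mem' := by
        rintro u ⟨hu, hu'⟩
        exact ⟨X0.inv_mem hu, fun a ha => ((show Commute u a from hu' a ha).inv_left).eq⟩ }
  have hZA : Z = A := by
    apply hmax Z
    · refine ⟨?_⟩
      rintro u ⟨hu, hu'⟩ g
      refine ⟨hX0n u hu g, fun a ha => ?_⟩
      have h1 : g⁻¹ * a * g ∈ X0 := by
        have := hX0n a ha g⁻¹
        simpa using this
      have h2 := hu' _ h1
      calc g * u * g⁻¹ * a = g * (u * (g⁻¹ * a * g)) * g⁻¹ := by group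
        _ = g * ((g⁻¹ * a * g) * u) * g⁻¹ := by rw [h2]
        _ = a * (g * u * g⁻¹) := by group
    · intro u hu
      exact ((hXmem u).1 (hX0X hu.1)).1
    · intro a ha b hb
      exact ha.2 b hb.1
    · intro a ha
      exact ⟨hAX0 ha, fun x hx => (((hXmem x).1 (hX0X hx)).2 a ha).symm⟩
  have hZ : ∀ z ∈ X0, (∀ x ∈ X0, z * x = x * z) → z ∈ A := by
    intro z hz hz'
    rw [← hZA]
    exact ⟨hz, hz'⟩
  -- Y
  let Y : Subgroup Γ :=
    { carrier := {n | n ∈ N ∧ ∀ x ∈ X0, n * x = x * n}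
      one_mem' := ⟨N.one_mem, fun a _ => by simp⟩
      mul_mem' := by
        rintro u v ⟨hu, hu'⟩ ⟨hv, hv'⟩
        exact ⟨N.mul_mem hu hv, fun a ha => by rw [mul_assoc, hv' a ha, ← mul_assoc, hu' a ha, mul_assoc]⟩
      inv_mem' := by
        rintro u ⟨hu, hu'⟩
        exact ⟨N.inv_mem hu, fun a ha => ((show Commute u a from hu' a ha).inv_left).eq⟩ }
  have hYn : ∀ u ∈ Y, ∀ g : Γ, g * u * g⁻¹ ∈ Y := by
    rintro u ⟨hu, hu'⟩ g
    refine ⟨hNn.conj_mem u hu g, fun a ha => ?_⟩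
    have h1 : g⁻¹ * a * g ∈ X0 := by
      have := hX0n a ha g⁻¹
      simpa using this
    have h2 := hu' _ h1
    calc g * u * g⁻¹ * a = g * (u * (g⁻¹ * a * g)) * g⁻¹ := by group
      _ = g * ((g⁻¹ * a * g) * u) * g⁻¹ := by rw [h2]
      _ = a * (g * u * g⁻¹) := by group
  have hYX : Y ≤ X := fun u hu => ⟨hu.1, fun a ha => hu.2 a (hAX0 ha)⟩
  have hYX0 : ∀ u, u ∈ Y → u ∈ X0 → u ∈ A := fun u hu hu0 => hZ u hu0 hu.2
  have hYA : ∀ u ∈ Y, u ∈ A := by
    by_contra hcon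
    push Not at hcon
    obtain ⟨y0, hy0, hy0A⟩ := hcon
    have hYp : IsPGroup p Y := hN.to_le (fun u hu => hu.1)
    obtain ⟨t, ht, ht1, htp, htc⟩ := gt_struct_fix p (N.map π) (Y.map π) (hN.map π) (hYp.map π)
      (by
        rintro _ ⟨n, hn, rfl⟩ _ ⟨y, hy, rfl⟩
        exact ⟨n * y * n⁻¹, hYn y hy n, by simp⟩)
      ⟨π y0, ⟨y0, hy0, rfl⟩, fun h => hy0A ((hπ y0).1 h)⟩
    obtain ⟨y, hy, rfl⟩ := ht
    apply ht1
    rw [hπ]
    apply hYX0 y hy
    exact ⟨hYX hy, htp, fun n hn => htc (π n) ⟨n, hn, rfl⟩⟩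
  -- every element of X lies in X0
  have hXX0 : ∀ x ∈ X, x ∈ X0 := by
    intro x hx
    have hAX : A ≤ X := hAX0.trans hX0X
    have hc' : IsCyclic (A.subgroupOf X) :=
      isCyclic_of_surjective (Subgroup.subgroupOfEquivOfLe hAX).symm
        (Subgroup.subgroupOfEquivOfLe hAX).symm.surjective
    obtain ⟨x', hx', h⟩ := gt_dual (X := X) p (A.subgroupOf X) (X0.subgroupOf X)
      (by
        intro a ha y
        apply Subtype.ext
        have : (a : Γ) ∈ A := ha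
        exact (((hXmem y).1 y.2).2 _ this).symm)
      hc'
      (by
        intro a ha
        exact hAX0 ha)
      (by
        intro u hu
        have hu' : (u : Γ) ∈ X0 := hu
        show ((u ^ p : X) : Γ) ∈ A
        rw [Subgroup.coe_pow, hpow]
        exact hu'.2.1)
      (by
        intro u hu n
        have hu' : (u : Γ) ∈ X0 := hu
        show ((⁅u, n⁆ : X) : Γ) ∈ A
        have e : ((⁅u, n⁆ : X) : Γ) = ⁅(u : Γ), (n : Γ)⁆ := by
          simp [commutatorElement_def]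
        rw [e, hcomm]
        exact hu'.2.2 n ((hXmem n).1 n.2).1)
      (by
        intro z hz hz'
        have hz1 : (z : Γ) ∈ X0 := hz
        show (z : Γ) ∈ A
        apply hZ z hz1
        intro y hy
        have := hz' ⟨y, hX0X hy⟩ hy
        exact congrArg Subtype.val this)
      ⟨x, hx⟩
    have hx'0 : (x' : Γ) ∈ X0 := hx'
    have hxy : x * (x' : Γ) ∈ Y := by
      refine ⟨((hXmem _).1 (X.mul_mem hx x'.2)).1, fun y hy => ?_⟩
      have := congrArg Subtype.val (h ⟨y, hX0X hy⟩ hy)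
      exact this.symm
    have h1 : x * (x' : Γ) ∈ X0 := hAX0 (hYA _ hxy)
    have h2 := X0.mul_mem h1 (X0.inv_mem hx'0)
    simpa using h2
  intro x hx hxa
  have hxX : x ∈ X := ⟨hx, hxa⟩
  have hx0 := hXX0 x hxX
  refine ⟨(hpow x).2 hx0.2.1, fun n hn => (hcomm x n).2 (hx0.2.2 n hn), ?_⟩
  intro y hy hya
  have hcA : ⁅x, y⁆ ∈ A := (hcomm x y).2 (hx0.2.2 y hy)
  have hxp : x ^ p ∈ A := (hpow x).2 hx0.2.1
  have hcx : Commute x ⁅x, y⁆ := hxa _ hcA
  have e1 : y * x * y⁻¹ = ⁅x, y⁆⁻¹ * x := by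
    rw [commutatorElement_def]; group
  have e2 : y * x ^ p * y⁻¹ = ⁅x, y⁆⁻¹ ^ p * x ^ p := by
    rw [← conj_pow, e1]
    exact (hcx.symm.inv_left).mul_pow p
  have e3 : y * x ^ p * y⁻¹ = x ^ p := by
    rw [hya _ hxp]; group
  rw [e3] at e2
  have e4 : ⁅x, y⁆⁻¹ ^ p = 1 := by
    have := e2
    exact (mul_eq_right.1 this.symm)
  rw [inv_pow] at e4
  exact inv_eq_one.1 e4

end Pool.Agent.Helper218.NV
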