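import Pool.Agent.Helper218.NV.Defs
import Pool.Agent.Helper218.NV.P_gt_struct



namespace Pool.Agent.Helper218.NV
open scoped BigOperators commutatorElement


theorem ls_struct {Γ D : Type} [Group Γ] [Finite Γ] {q : ℕ} [Fact q.Prime] (p : ℕ)
    [Fact p.Prime] [AddCommGroup D] [Module (ZMod q) D] [Finite D] [Nontrivial D]
    (τ : Representation (ZMod q) Γ D) (N A : Subgroup Γ) (hNn : N.Normal) (hAn : A.Normal)
    (hN : IsPGroup p N) (hAN : A ≤ N) (hA : ∀ a ∈ A, ∀ b ∈ A, τ a * τ b = τ b * τ a)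
    (hmax : ∀ B : Subgroup Γ, B.Normal → B ≤ N → (∀ a ∈ B, ∀ b ∈ B, τ a * τ b = τ b * τ a) →
      A ≤ B → B = A)
    (hfield : ∀ f ∈ Algebra.adjoin (ZMod q) (τ '' (A : Set Γ)), f ≠ 0 →
      ∃ f' ∈ Algebra.adjoin (ZMod q) (τ '' (A : Set Γ)), f * f' = 1 ∧ f' * f = 1) :
    ∀ x ∈ N, (∀ a ∈ A, τ x * τ a = τ a * τ x) → (∀ n ∈ N, ⁅x, n⁆ ∈ A) ∧
      (∀ y ∈ N, (∀ a ∈ A, τ y * τ a = τ a * τ y) → τ (⁅x, y⁆ ^ p) = 1) := by
  classical
  obtain ⟨K, hK⟩ : ∃ K : Subgroup Γ, K = MonoidHom.ker τ := ⟨_, rfl⟩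
  have hKn : K.Normal := by rw [hK]; infer_instance
  obtain ⟨π, hπ⟩ : ∃ π : Γ →* Γ ⧸ K, π = QuotientGroup.mk' K := ⟨_, rfl⟩
  have hsurj : Function.Surjective π := by rw [hπ]; exact QuotientGroup.mk'_surjective K
  have hker : ∀ x, π x = 1 ↔ τ x = 1 := by
    intro x
    have h1 : π x = 1 ↔ x ∈ K := by
      rw [hπ]; exact QuotientGroup.eq_one_iff x
    rw [h1, hK, MonoidHom.mem_ker]
  have heq : ∀ x y, π x = π y ↔ τ x = τ y := by
    intro x y
    have h1 : π x = π y ↔ π (x⁻¹ * y) = 1 := by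
      rw [map_mul, map_inv, inv_mul_eq_one]
    rw [h1, hker]
    constructor
    · intro h
      have h2 : τ y = τ x * τ (x⁻¹ * y) := by rw [← map_mul]; congr 1; group
      rw [h2, h, mul_one]
    · intro h
      rw [map_mul, ← h, ← map_mul, inv_mul_cancel, map_one]
  have hcomm : ∀ x y, π x * π y = π y * π x ↔ τ x * τ y = τ y * τ x := by
    intro x y
    rw [← map_mul, ← map_mul, heq, map_mul, map_mul]
  have hcl : ∀ n ∈ N, π n ∈ A.map π → n ∈ A := by
    have h1 := hmax (N ⊓ (A.map π).comap π) (by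
        have : (A.map π).Normal := hAn.map π hsurj
        have : ((A.map π).comap π).Normal := this.comap π
        exact Subgroup.normal_inf_normal N _) inf_le_left (by
        rintro a ⟨-, ha⟩ b ⟨-, hb⟩
        obtain ⟨a', ha', hae⟩ : ∃ a' ∈ A, π a' = π a := ha
        obtain ⟨b', hb', hbe⟩ : ∃ b' ∈ A, π b' = π b := hb
        rw [heq] at hae hbe
        rw [← hae, ← hbe]
        exact hA a' ha' b' hb') (by
        intro a ha
        exact ⟨hAN ha, Subgroup.mem_map_of_mem π ha⟩)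
    intro n hn hna
    rw [← h1]
    exact ⟨hn, hna⟩
  have hcyc : IsCyclic (A.map π) := by
    have hS : ∀ a ∈ (τ '' (A : Set Γ)), ∀ b ∈ (τ '' (A : Set Γ)), a * b = b * a := by
      rintro _ ⟨a, ha, rfl⟩ _ ⟨b, hb, rfl⟩
      exact hA a ha b hb
    letI : CommRing (Algebra.adjoin (ZMod q) (τ '' (A : Set Γ))) :=
      Algebra.adjoinCommRingOfComm (ZMod q) hS
    have hnt : Nontrivial (Algebra.adjoin (ZMod q) (τ '' (A : Set Γ))) := inferInstance
    have hnz : NoZeroDivisors (Algebra.adjoin (ZMod q) (τ '' (A : Set Γ))) := by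
      refine ⟨fun {x y} hxy => ?_⟩
      by_cases hx : x = 0
      · exact Or.inl hx
      · right
        obtain ⟨f', hf', -, hf2⟩ := hfield x.1 x.2 (fun h => hx (Subtype.ext h))
        apply Subtype.ext
        have h1 : x.1 * y.1 = 0 := congrArg Subtype.val hxy
        have h2 : y.1 = (f' * x.1) * y.1 := by rw [hf2, one_mul]
        rw [h2, mul_assoc, h1, mul_zero]
        rfl
    have hdom : IsDomain (Algebra.adjoin (ZMod q) (τ '' (A : Set Γ))) := NoZeroDivisors.to_isDomain _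
    let f0 : Γ ⧸ K →* Module.End (ZMod q) D := QuotientGroup.lift K τ (by rw [hK])
    have hf0 : ∀ x, f0 (π x) = τ x := by
      intro x
      rw [hπ]
      rfl
    have hmem : ∀ x : A.map π, (f0.comp (A.map π).subtype) x ∈
        Algebra.adjoin (ZMod q) (τ '' (A : Set Γ)) := by
      rintro ⟨x, hx⟩
      obtain ⟨a, ha, rfl⟩ := hx
      show f0 (π a) ∈ _
      rw [hf0]
      exact Algebra.subset_adjoin ⟨a, ha, rfl⟩
    let f : A.map π →* (Algebra.adjoin (ZMod q) (τ '' (A : Set Γ))) :=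
      (f0.comp (A.map π).subtype).codRestrict (Algebra.adjoin (ZMod q) (τ '' (A : Set Γ))) hmem
    refine isCyclic_of_subgroup_isDomain f ?_
    rintro ⟨x, hx⟩ ⟨y, hy⟩ hxy
    have h1 : f0 x = f0 y := congrArg Subtype.val hxy
    obtain ⟨x', rfl⟩ := hsurj x
    obtain ⟨y', rfl⟩ := hsurj y
    rw [hf0, hf0] at h1
    apply Subtype.ext
    exact (heq x' y').2 h1
  have hmain := gt_struct p (N.map π) (A.map π) (hNn.map π hsurj) (hAn.map π hsurj)
    (hN.map π) (Subgroup.map_mono hAN)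
    (by
      rintro _ ⟨a, ha, rfl⟩ _ ⟨b, hb, rfl⟩
      exact (hcomm a b).2 (hA a ha b hb))
    (by
      intro B' hBn hBN hBc hAB
      have h1 := hmax (N ⊓ B'.comap π) (by
          have : (B'.comap π).Normal := hBn.comap π
          exact Subgroup.normal_inf_normal N _) inf_le_left (by
          rintro a ⟨-, ha⟩ b ⟨-, hb⟩
          exact (hcomm a b).1 (hBc _ ha _ hb)) (by
          intro a ha
          exact ⟨hAN ha, hAB (Subgroup.mem_map_of_mem π ha)⟩)
      apply le_antisymm _ hAB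
      intro b hb
      obtain ⟨n, hn, rfl⟩ := hBN hb
      have h2 : n ∈ N ⊓ B'.comap π := ⟨hn, hb⟩
      rw [h1] at h2
      exact Subgroup.mem_map_of_mem π h2)
    hcyc
  intro x hx hxa
  obtain ⟨-, h2, h3⟩ := hmain (π x) (Subgroup.mem_map_of_mem π hx) (by
    rintro _ ⟨a, ha, rfl⟩
    exact (hcomm x a).2 (hxa a ha))
  have hcN : ∀ u ∈ N, ∀ v ∈ N, ⁅u, v⁆ ∈ N := by
    intro u hu v hv
    rw [commutatorElement_def]
    exact N.mul_mem (N.mul_mem (N.mul_mem hu hv) (N.inv_mem hu)) (N.inv_mem hv)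
  refine ⟨fun n hn => ?_, fun y hy hya => ?_⟩
  · have h4 := h2 (π n) (Subgroup.mem_map_of_mem π hn)
    rw [← map_commutatorElement] at h4
    exact hcl _ (hcN x hx n hn) h4
  · have h4 := h3 (π y) (Subgroup.mem_map_of_mem π hy) (by
      rintro _ ⟨a, ha, rfl⟩
      exact (hcomm y a).2 (hya a ha))
    rw [← map_commutatorElement, ← map_pow, hker] at h4
    exact h4

end Pool.Agent.Helper218.NV
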