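import Pool.Agent.Helper218.NV.Defs
import Pool.Agent.Helper218.NV.P_ls_field
import Pool.Agent.Helper218.NV.P_ls_cyc
import Pool.Agent.Helper218.NV.P_ls_struct



namespace Pool.Agent.Helper218.NV
open scoped BigOperators commutatorElement


theorem local_struct_inv {Γ D : Type} [Group Γ] {q : ℕ}
    [AddCommGroup D] [Module (ZMod q) D] (τ : Representation (ZMod q) Γ D) (x b : Γ)
    (h : τ x * τ b = τ b * τ x) : τ x⁻¹ * τ b = τ b * τ x⁻¹ := by
  have h1 : τ x⁻¹ * τ x = 1 := by rw [← map_mul, inv_mul_cancel, map_one]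
  have h2 : τ x * τ x⁻¹ = 1 := by rw [← map_mul, mul_inv_cancel, map_one]
  calc τ x⁻¹ * τ b = τ x⁻¹ * τ b * (τ x * τ x⁻¹) := by rw [h2, mul_one]
    _ = τ x⁻¹ * (τ b * τ x) * τ x⁻¹ := by simp only [mul_assoc]
    _ = τ x⁻¹ * (τ x * τ b) * τ x⁻¹ := by rw [h]
    _ = (τ x⁻¹ * τ x) * τ b * τ x⁻¹ := by simp only [mul_assoc]
    _ = τ b * τ x⁻¹ := by rw [h1, one_mul]

/-- elements of `N` whose image commutes with the image of `B` -/
def local_struct_C {Γ D : Type} [Group Γ] {q : ℕ}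
    [AddCommGroup D] [Module (ZMod q) D] (τ : Representation (ZMod q) Γ D) (N B : Subgroup Γ) :
    Subgroup Γ where
  carrier := {n | n ∈ N ∧ ∀ b ∈ B, τ n * τ b = τ b * τ n}
  one_mem' := ⟨N.one_mem, fun b _ => by rw [map_one, one_mul, mul_one]⟩
  mul_mem' := by
    rintro x y ⟨hx, hx'⟩ ⟨hy, hy'⟩
    refine ⟨N.mul_mem hx hy, fun b hb => ?_⟩
    rw [map_mul, mul_assoc, hy' b hb, ← mul_assoc, hx' b hb, mul_assoc]
  inv_mem' := by
    rintro x ⟨hx, hx'⟩
    exact ⟨N.inv_mem hx, fun b hb => local_struct_inv τ x b (hx' b hb)⟩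

theorem local_struct_C_normal {Γ D : Type} [Group Γ] {q : ℕ}
    [AddCommGroup D] [Module (ZMod q) D] (τ : Representation (ZMod q) Γ D) (N B : Subgroup Γ)
    (hN : N.Normal) (hB : B.Normal) : (local_struct_C τ N B).Normal := by
  refine ⟨fun x hx h => ⟨hN.conj_mem x hx.1 h, fun b hb => ?_⟩⟩
  have hb' : h⁻¹ * b * h ∈ B := by
    have := hB.conj_mem b hb h⁻¹
    rwa [inv_inv] at this
  have h1 := hx.2 _ hb'
  have e1 : h * x * h⁻¹ * b = h * (x * (h⁻¹ * b * h)) * h⁻¹ := by group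
  have e2 : b * (h * x * h⁻¹) = h * ((h⁻¹ * b * h) * x) * h⁻¹ := by group
  have e3 : τ (x * (h⁻¹ * b * h)) = τ ((h⁻¹ * b * h) * x) := by
    rw [map_mul τ x, h1, ← map_mul]
  rw [← map_mul, ← map_mul, e1, e2, map_mul τ (h * (x * (h⁻¹ * b * h))) h⁻¹,
    map_mul τ h (x * (h⁻¹ * b * h)), e3, ← map_mul, ← map_mul]

theorem local_struct {Γ D : Type} [Group Γ] [Finite Γ] {q : ℕ} [Fact q.Prime] (p : ℕ)
    [Fact p.Prime] [AddCommGroup D] [Module (ZMod q) D] [Finite D] [Nontrivial D]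
    (τ : Representation (ZMod q) Γ D) (N : Subgroup Γ) (hNn : N.Normal) (hpq : p ≠ q)
    (hN : IsPGroup p N) (hQ : QP τ N) : ∃ A X : Subgroup Γ, ∃ g : Γ, LS τ N p A X g := by
  have hfin : (Set.univ : Set (Subgroup Γ)).Finite := Set.toFinite _
  obtain ⟨A, ⟨hAn, hAN, hA⟩, hmax⟩ := (hfin.subset (Set.subset_univ
    {B : Subgroup Γ | B.Normal ∧ B ≤ N ∧ ∀ a ∈ B, ∀ b ∈ B, τ a * τ b = τ b * τ a})).exists_maximal
    ⟨⊥, inferInstance, bot_le, fun a ha b hb => by
      rw [Subgroup.mem_bot] at ha hb; rw [ha, hb]⟩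
  have hmax' : ∀ B : Subgroup Γ, B.Normal → B ≤ N →
      (∀ a ∈ B, ∀ b ∈ B, τ a * τ b = τ b * τ a) → A ≤ B → B = A := fun B h1 h2 h3 h4 =>
    le_antisymm (hmax ⟨h1, h2, h3⟩ h4) h4
  have hfield := ls_field p τ N hpq hN hQ A hAn hAN hA
  obtain ⟨g, hg, hcyc⟩ := ls_cyc τ N A hAn hA hfield
  have hstr := ls_struct p τ N A hNn hAn hN hAN hA hmax' hfield
  have hXn := local_struct_C_normal τ N A hNn hAn
  have hAX : A ≤ local_struct_C τ N A := fun a ha => ⟨hAN ha, hA a ha⟩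
  have hcyc' : ∀ n ∈ N, ∃ j : ℕ, ∃ x ∈ local_struct_C τ N A, n = g ^ j * x := by
    intro n hn
    obtain ⟨j, hj⟩ := hcyc n hn
    exact ⟨j, (g ^ j)⁻¹ * n, ⟨N.mul_mem (N.inv_mem (N.pow_mem hg j)) hn, hj⟩, by group⟩
  refine ⟨A, local_struct_C τ N A, g, ?_⟩
  refine
    { gN := hg
      An := hAn
      Xn := hXn
      AX := hAX
      XN := fun x hx => hx.1
      comm := hA
      field := hfield
      XA := fun x hx a ha => hx.2 a ha
      memX := fun n hn h => ⟨hn, h⟩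
      der := ?_
      pow := fun x hx y hy => (hstr x hx.1 hx.2).2 y hy.1 hy.2
      cyc := hcyc'
      cen := ?_ }
  · intro u hu v hv
    obtain ⟨i, x, hx, rfl⟩ := hcyc' u hu
    obtain ⟨j, y, hy, rfl⟩ := hcyc' v hv
    have key : ∀ x ∈ local_struct_C τ N A, ∀ n ∈ N,
        Commute (QuotientGroup.mk' A x) (QuotientGroup.mk' A n) := by
      intro x hx n hn
      rw [← commutatorElement_eq_one_iff_commute, ← map_commutatorElement,
        ← MonoidHom.mem_ker, QuotientGroup.ker_mk']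
      exact (hstr x hx.1 hx.2).1 n hn
    have h1 : Commute (QuotientGroup.mk' A (g ^ i * x)) (QuotientGroup.mk' A (g ^ j * y)) := by
      rw [map_mul, map_mul]
      have hgg : Commute (QuotientGroup.mk' A (g ^ i)) (QuotientGroup.mk' A (g ^ j)) := by
        rw [map_pow, map_pow]
        exact Commute.pow_pow (Commute.refl _) i j
      exact ((hgg.mul_right (key y hy _ (N.pow_mem hg i)).symm)).mul_left
        ((key x hx _ (N.pow_mem hg j)).mul_right (key x hx y hy.1))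
    rw [← QuotientGroup.ker_mk' A, MonoidHom.mem_ker, map_commutatorElement,
      commutatorElement_eq_one_iff_commute]
    exact h1
  · intro z hz hzx
    have hZn := local_struct_C_normal τ (local_struct_C τ N A) (local_struct_C τ N A) hXn hXn
    have h1 := hmax' (local_struct_C τ (local_struct_C τ N A) (local_struct_C τ N A)) hZn
      (fun w hw => hw.1.1) (fun a ha b hb => ha.2 b hb.1)
      (fun a ha => ⟨hAX ha, fun x hx => (hx.2 a ha).symm⟩)
    rw [← h1]
    exact ⟨hz, hzx⟩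

end Pool.Agent.Helper218.NV
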