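import Pool.Agent.Helper218.NV.Defs



namespace Pool.Agent.Helper218.NV
open scoped BigOperators commutatorElement


theorem qp_transfer_conj {Γ : Type} [Group Γ] {q : ℕ} {D : Type} [AddCommGroup D] [Module (ZMod q) D]
    (τ : Representation (ZMod q) Γ D) (A : Subgroup Γ) (hA : A.Normal) (t : Γ)
    (x : Module.End (ZMod q) D) (hx : x ∈ Algebra.adjoin (ZMod q) (τ '' (A : Set Γ))) :
    τ t * x * τ t⁻¹ ∈ Algebra.adjoin (ZMod q) (τ '' (A : Set Γ)) := by
  have htt : τ t⁻¹ * τ t = 1 := by rw [← map_mul, inv_mul_cancel, map_one]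
  have htt' : τ t * τ t⁻¹ = 1 := by rw [← map_mul, mul_inv_cancel, map_one]
  induction hx using Algebra.adjoin_induction with
  | mem x hx =>
    obtain ⟨a, ha, rfl⟩ := hx
    rw [← map_mul, ← map_mul]
    exact Algebra.subset_adjoin ⟨_, hA.conj_mem a ha t, rfl⟩
  | algebraMap r =>
    have : τ t * (algebraMap (ZMod q) (Module.End (ZMod q) D)) r * τ t⁻¹ =
        (algebraMap (ZMod q) (Module.End (ZMod q) D)) r := by
      rw [← Algebra.commutes, mul_assoc, htt', mul_one]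
    rw [this]
    exact Subalgebra.algebraMap_mem _ r
  | add x y _ _ hx hy =>
    rw [mul_add, add_mul]
    exact Subalgebra.add_mem _ hx hy
  | mul x y _ _ hx hy =>
    have : τ t * (x * y) * τ t⁻¹ = (τ t * x * τ t⁻¹) * (τ t * y * τ t⁻¹) := by
      calc τ t * (x * y) * τ t⁻¹ = τ t * x * 1 * y * τ t⁻¹ := by simp only [mul_one, mul_assoc]
        _ = (τ t * x * τ t⁻¹) * (τ t * y * τ t⁻¹) := by rw [← htt]; simp only [mul_assoc]
    rw [this]
    exact Subalgebra.mul_mem _ hx hy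

theorem qp_transfer {H : Type} [Group H] {q : ℕ} {V : Type}
    [AddCommGroup V] [Module (ZMod q) V] (ρ : Representation (ZMod q) H V)
    (E : Finset (Module.End (ZMod q) V)) (hE : Dec ρ E) (e : Module.End (ZMod q) V) (he : e ∈ E)
    (Γ : Subgroup H) (hΓ : ∀ h, h ∈ Γ ↔ ρ h * e = e * ρ h)
    (τ : Representation (ZMod q) Γ (LinearMap.range e))
    (hτ : ∀ (h : Γ) (d : LinearMap.range e),
      ((τ h d : LinearMap.range e) : V) = ρ (h : H) (d : V))
    (N : Subgroup H) : QP τ (N.subgroupOf Γ) := by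
  intro A hA _ hAc f1 hf1 hff
  set S : LinearMap.range e →ₗ[ZMod q] V := (LinearMap.range e).subtype with hS
  set R : V →ₗ[ZMod q] LinearMap.range e := e.rangeRestrict with hR
  have hSR : S ∘ₗ R = e := by
    ext v; rfl
  have hRS : R ∘ₗ S = LinearMap.id := by
    ext d
    obtain ⟨d, w, rfl⟩ := d
    have := congrArg (fun (f : Module.End (ZMod q) V) => f w) (hE.idem e he)
    simpa [hS, hR] using this
  let Φ : Module.End (ZMod q) (LinearMap.range e) → Module.End (ZMod q) V := fun f => S ∘ₗ f ∘ₗ R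
  have hΦmul : ∀ f g, Φ f * Φ g = Φ (f * g) := by
    intro f g
    ext v
    have h1 : R (S (g (R v))) = g (R v) := congrArg (fun (f : _ →ₗ[ZMod q] _) => f (g (R v))) hRS
    change S (f (R (S (g (R v))))) = S ((f * g) (R v))
    rw [h1]
    rfl
  have hΦe : ∀ f, Φ f * e = Φ f := by
    intro f
    ext v
    have h1 : R (e v) = R v := by
      have h2 : R (S (R v)) = R v := congrArg (fun (f : _ →ₗ[ZMod q] _) => f (R v)) hRS
      exact h2
    change S (f (R (e v))) = S (f (R v))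
    rw [h1]
  have hΦe' : ∀ f, e * Φ f = Φ f := by
    intro f
    ext v
    have h2 : R (S (f (R v))) = f (R v) := congrArg (fun (f' : _ →ₗ[ZMod q] _) => f' (f (R v))) hRS
    change S (R (S (f (R v)))) = S (f (R v))
    rw [h2]
  set F := Φ f1 with hF
  have hFF : F * F = F := by rw [hF, hΦmul, hff]
  have hFe : F * e = F := hΦe f1
  have heF : e * F = F := hΦe' f1
  have hρ : ∀ g : H, ρ g⁻¹ * ρ g = 1 := fun g => by rw [← map_mul, inv_mul_cancel, map_one]
  have hρ' : ∀ g : H, ρ g * ρ g⁻¹ = 1 := fun g => by rw [← map_mul, mul_inv_cancel, map_one]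
  have hcomm : ∀ e' ∈ E, F * e' = e' * F := by
    intro e' he'
    by_cases h : e' = e
    · rw [h, hFe, heF]
    · have h1 : F * e' = 0 := by
        rw [← hFe, mul_assoc, hE.orth e he e' he' (Ne.symm h), mul_zero]
      have h2 : e' * F = 0 := by
        rw [← heF, ← mul_assoc, hE.orth e' he' e he h, zero_mul]
      rw [h1, h2]
  have hconjt : ∀ t : Γ, ρ (t : H) * F * ρ (t : H)⁻¹ = Φ (τ t * f1 * τ t⁻¹) := by
    intro t
    have ht : ρ ((t : H)⁻¹) * e = e * ρ ((t : H)⁻¹) := (hΓ _).mp (Γ.inv_mem t.2)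
    ext v
    have h1 : R (ρ ((t : H)⁻¹) v) = τ t⁻¹ (R v) := by
      apply Subtype.ext
      rw [hτ]
      have h3 := congrArg (fun (f : Module.End (ZMod q) V) => f v) ht
      change e (ρ ((t : H)⁻¹) v) = ρ (((t⁻¹ : Γ) : H)) (e v)
      exact h3.symm
    change ρ (t : H) (S (f1 (R (ρ ((t : H)⁻¹) v)))) = S (τ t (f1 (τ t⁻¹ (R v))))
    rw [h1]
    exact (hτ t _).symm
  have hconj : ∀ g h : H, (ρ g * F * ρ g⁻¹) * (ρ h * F * ρ h⁻¹) =
      (ρ h * F * ρ h⁻¹) * (ρ g * F * ρ g⁻¹) := by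
    intro g h
    have hg := hE.inv g e he
    have hh := hE.inv h e he
    have key : ∀ g : H, (ρ g * F * ρ g⁻¹) * (ρ g * e * ρ g⁻¹) = ρ g * F * ρ g⁻¹ := by
      intro g
      calc (ρ g * F * ρ g⁻¹) * (ρ g * e * ρ g⁻¹) = ρ g * F * (ρ g⁻¹ * ρ g) * e * ρ g⁻¹ := by
            simp only [mul_assoc]
        _ = ρ g * (F * e) * ρ g⁻¹ := by rw [hρ]; simp only [mul_one, mul_assoc]
        _ = _ := by rw [hFe]
    have key' : ∀ g : H, (ρ g * e * ρ g⁻¹) * (ρ g * F * ρ g⁻¹) = ρ g * F * ρ g⁻¹ := by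
      intro g
      calc (ρ g * e * ρ g⁻¹) * (ρ g * F * ρ g⁻¹) = ρ g * e * (ρ g⁻¹ * ρ g) * F * ρ g⁻¹ := by
            simp only [mul_assoc]
        _ = ρ g * (e * F) * ρ g⁻¹ := by rw [hρ]; simp only [mul_one, mul_assoc]
        _ = _ := by rw [heF]
    by_cases heq : ρ g * e * ρ g⁻¹ = ρ h * e * ρ h⁻¹
    · have ht : g⁻¹ * h ∈ Γ := by
        rw [hΓ]
        have h1 : ρ (g⁻¹ * h) * e * ρ (g⁻¹ * h)⁻¹ = e := by
          have h2 : ρ (g⁻¹ * h) * e * ρ (g⁻¹ * h)⁻¹ = ρ g⁻¹ * (ρ h * e * ρ h⁻¹) * ρ g := by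
            rw [mul_inv_rev, inv_inv, map_mul, map_mul]
            simp only [mul_assoc]
          rw [h2, ← heq]
          calc ρ g⁻¹ * (ρ g * e * ρ g⁻¹) * ρ g = (ρ g⁻¹ * ρ g) * e * (ρ g⁻¹ * ρ g) := by
                simp only [mul_assoc]
            _ = e := by rw [hρ]; simp
        calc ρ (g⁻¹ * h) * e = ρ (g⁻¹ * h) * e * (ρ (g⁻¹ * h)⁻¹ * ρ (g⁻¹ * h)) := by
              rw [hρ, mul_one]
          _ = (ρ (g⁻¹ * h) * e * ρ (g⁻¹ * h)⁻¹) * ρ (g⁻¹ * h) := by simp only [mul_assoc]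
          _ = e * ρ (g⁻¹ * h) := by rw [h1]
      set t : Γ := ⟨g⁻¹ * h, ht⟩ with htdef
      have hFh : ρ h * F * ρ h⁻¹ = ρ g * Φ (τ t * f1 * τ t⁻¹) * ρ g⁻¹ := by
        rw [← hconjt t]
        have h1 : (t : H) = g⁻¹ * h := rfl
        rw [h1, mul_inv_rev, inv_inv, map_mul, map_mul]
        calc ρ h * F * ρ h⁻¹ = 1 * ρ h * F * ρ h⁻¹ * 1 := by simp
          _ = (ρ g * ρ g⁻¹) * ρ h * F * ρ h⁻¹ * (ρ g * ρ g⁻¹) := by rw [hρ']
          _ = _ := by simp only [mul_assoc]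
      have hcom : f1 * (τ t * f1 * τ t⁻¹) = (τ t * f1 * τ t⁻¹) * f1 := by
        have hm := qp_transfer_conj τ A hA t f1 hf1
        have h1 : ∀ x ∈ Algebra.adjoin (ZMod q) (τ '' (A : Set Γ)),
            ∀ y ∈ Algebra.adjoin (ZMod q) (τ '' (A : Set Γ)), Commute x y := by
          intro x hx y hy
          refine Algebra.commute_of_mem_adjoin_of_forall_mem_commute hy fun b hb => ?_
          refine (Algebra.commute_of_mem_adjoin_of_forall_mem_commute hx fun c hc => ?_).symm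
          obtain ⟨b', hb', rfl⟩ := hb
          obtain ⟨c', hc', rfl⟩ := hc
          exact hAc b' hb' c' hc'
        exact h1 _ hf1 _ hm
      have hl : ∀ X Y : Module.End (ZMod q) V, (ρ g * X * ρ g⁻¹) * (ρ g * Y * ρ g⁻¹) =
          ρ g * (X * Y) * ρ g⁻¹ := by
        intro X Y
        calc (ρ g * X * ρ g⁻¹) * (ρ g * Y * ρ g⁻¹) = ρ g * X * (ρ g⁻¹ * ρ g) * Y * ρ g⁻¹ := by
              simp only [mul_assoc]
          _ = _ := by rw [hρ]; simp only [mul_one, mul_assoc]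
      rw [hFh, hl, hl, hF, hΦmul, hΦmul, hcom]
    · have h1 : (ρ g * F * ρ g⁻¹) * (ρ h * F * ρ h⁻¹) = 0 := by
        rw [← key g, ← key' h]
        calc (ρ g * F * ρ g⁻¹) * (ρ g * e * ρ g⁻¹) * ((ρ h * e * ρ h⁻¹) * (ρ h * F * ρ h⁻¹))
            = (ρ g * F * ρ g⁻¹) * ((ρ g * e * ρ g⁻¹) * (ρ h * e * ρ h⁻¹)) * (ρ h * F * ρ h⁻¹) := by
              simp only [mul_assoc]
          _ = 0 := by rw [hE.orth _ hg _ hh heq, mul_zero, zero_mul]
      have h2 : (ρ h * F * ρ h⁻¹) * (ρ g * F * ρ g⁻¹) = 0 := by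
        rw [← key h, ← key' g]
        calc (ρ h * F * ρ h⁻¹) * (ρ h * e * ρ h⁻¹) * ((ρ g * e * ρ g⁻¹) * (ρ g * F * ρ g⁻¹))
            = (ρ h * F * ρ h⁻¹) * ((ρ h * e * ρ h⁻¹) * (ρ g * e * ρ g⁻¹)) * (ρ g * F * ρ g⁻¹) := by
              simp only [mul_assoc]
          _ = 0 := by rw [hE.orth _ hh _ hg (Ne.symm heq), mul_zero, zero_mul]
      rw [h1, h2]
  have hSd : ∀ d : LinearMap.range e, F (S d) = S (f1 d) := by
    intro d
    have h1 : R (S d) = d := congrArg (fun (f : _ →ₗ[ZMod q] _) => f d) hRS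
    change S (f1 (R (S d))) = S (f1 d)
    rw [h1]
  have heS : ∀ d : LinearMap.range e, e (S d) = S d := by
    intro d
    have h1 : R (S d) = d := congrArg (fun (f : _ →ₗ[ZMod q] _) => f d) hRS
    exact congrArg S h1
  rcases hE.max F hFF hcomm hconj e he with h | h
  · left
    rw [hFe] at h
    ext d
    have h1 := hSd d
    rw [h] at h1
    exact h1.symm
  · right
    rw [hFe] at h
    ext d
    have h1 := hSd d
    rw [h, heS] at h1
    exact h1.symm

end Pool.Agent.Helper218.NV
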