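import Pool.Agent.Helper218.NV.Defs
import Pool.Agent.Helper218.NV.P_exists_res
import Pool.Agent.Helper218.NV.P_qp_transfer
import Pool.Agent.Helper218.NV.P_local_struct
import Pool.Agent.Helper218.NV.P_loc2_of_ls
import Pool.Agent.Helper218.NV.P_loc2V_transfer



namespace Pool.Agent.Helper218.NV
open scoped BigOperators commutatorElement


theorem block_loc2V {H : Type} [Group H] [Finite H] {q : ℕ} [Fact q.Prime] (hq : q ≠ 2)
    {V : Type} [AddCommGroup V] [Module (ZMod q) V] [Finite V]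
    (ρ : Representation (ZMod q) H V) (E : Finset (Module.End (ZMod q) V)) (hE : Dec ρ E)
    (N : Subgroup H) (hNn : N.Normal) (hN : IsPGroup 2 N)
    (hc : ∀ n ∈ N, ∀ e ∈ E, ρ n * e = e * ρ n) :
    ∀ e ∈ E, Loc2V ρ N e := by
  intro e he
  have hei := hE.idem e he
  have hene := hE.ne e he
  let Γ : Subgroup H :=
    { carrier := {h | ρ h * e = e * ρ h}
      one_mem' := by simp
      mul_mem' := by
        intro a b ha hb
        simp only [Set.mem_setOf_eq] at ha hb ⊢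
        rw [map_mul, mul_assoc, hb, ← mul_assoc, ha, mul_assoc]
      inv_mem' := by
        intro a ha
        simp only [Set.mem_setOf_eq] at ha ⊢
        have h1 : ρ a⁻¹ * ρ a = 1 := by rw [← map_mul]; simp
        have h2 : ρ a * ρ a⁻¹ = 1 := by rw [← map_mul]; simp
        calc ρ a⁻¹ * e = ρ a⁻¹ * e * (ρ a * ρ a⁻¹) := by rw [h2, mul_one]
          _ = ρ a⁻¹ * (e * ρ a) * ρ a⁻¹ := by simp only [mul_assoc]
          _ = ρ a⁻¹ * (ρ a * e) * ρ a⁻¹ := by rw [ha]
          _ = (ρ a⁻¹ * ρ a) * e * ρ a⁻¹ := by simp only [mul_assoc]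
          _ = e * ρ a⁻¹ := by rw [h1, one_mul] }
  have hΓ : ∀ h, h ∈ Γ ↔ ρ h * e = e * ρ h := fun h => Iff.rfl
  have hNΓ : N ≤ Γ := fun n hn => hc n hn e he
  obtain ⟨τ, hτ⟩ := exists_res ρ e hei Γ (fun h hh => (hΓ h).1 hh)
  have hnt : Nontrivial (LinearMap.range e) := by
    rw [Submodule.nontrivial_iff_ne_bot]
    intro h0
    exact hene (LinearMap.range_eq_bot.mp h0)
  have hQP := qp_transfer ρ E hE e he Γ hΓ τ hτ N
  have hNn' : (N.subgroupOf Γ).Normal := hNn.subgroupOf Γ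
  have hN2 : IsPGroup 2 (N.subgroupOf Γ) := hN.comap_subtype
  obtain ⟨A, X, g, hLS⟩ := local_struct (Γ := Γ) (D := LinearMap.range e) 2 τ (N.subgroupOf Γ) hNn'
    (fun h => hq h.symm) hN2 hQP
  have hL := loc2_of_ls hq τ (N.subgroupOf Γ) A X g hNn' hN2 hLS
  exact loc2V_transfer ρ e hei N Γ hNΓ (fun h hh => (hΓ h).1 hh) τ hτ hL

end Pool.Agent.Helper218.NV
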