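import Pool.Agent.Helper218.NV.Defs



namespace Pool.Agent.Helper218.NV
open scoped BigOperators commutatorElement


theorem cent_nilp {G : Type} [Group G] [Finite G] (I : Subgroup G) (hI : I.Normal)
    (h : ∀ K L : Subgroup G, K.Normal → L.Normal → L < K →
      (∀ M : Subgroup G, M.Normal → L ≤ M → M ≤ K → M = L ∨ M = K) →
      ∀ g ∈ I, ∀ k ∈ K, g * k * g⁻¹ * k⁻¹ ∈ L) : Group.IsNilpotent I := by
  have key : ∀ K : Subgroup G, K.Normal → ∃ n : ℕ, ∀ x : I, (x : G) ∈ K →
      x ∈ Subgroup.upperCentralSeries I n := by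
    intro K
    induction K using WellFoundedLT.induction with
    | ind K ih =>
      intro hK
      by_cases hb : K = ⊥
      · refine ⟨0, fun x hx => ?_⟩
        rw [hb, Subgroup.mem_bot] at hx
        have : x = 1 := Subtype.ext hx
        rw [this]
        exact one_mem _
      · have hne : {L : Subgroup G | L.Normal ∧ L < K}.Nonempty :=
          ⟨⊥, inferInstance, bot_lt_iff_ne_bot.2 hb⟩
        obtain ⟨L, hL⟩ := (Set.toFinite {L : Subgroup G | L.Normal ∧ L < K}).exists_maximal hne
        obtain ⟨hLn, hLK⟩ := hL.prop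
        obtain ⟨n, hn⟩ := ih L hLK hLn
        refine ⟨n + 1, fun x hx => ?_⟩
        rw [Subgroup.mem_upperCentralSeries_succ_iff]
        intro y
        apply hn
        have h1 := h K L hK hLn hLK (fun M hM h1 h2 => by
          by_cases h3 : M = K
          · exact Or.inr h3
          · exact Or.inl (le_antisymm (hL.2 ⟨hM, lt_of_le_of_ne h2 h3⟩ h1) h1))
          y.1 y.2 x.1 hx
        have h2 := L.inv_mem h1
        have h3 : ((⁅x, y⁆ : I) : G) = (y.1 * x.1 * y.1⁻¹ * x.1⁻¹)⁻¹ := by
          rw [commutatorElement_def]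
          push_cast
          group
        rw [h3]
        exact h2
  obtain ⟨n, hn⟩ := key ⊤ inferInstance
  refine ⟨n, ?_⟩
  rw [eq_top_iff]
  intro x _
  exact hn x (Subgroup.mem_top _)

end Pool.Agent.Helper218.NV
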