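import Pool.Agent.Helper218.NV.Defs



namespace Pool.Agent.Helper218.NV
open scoped BigOperators commutatorElement


theorem cent_normal {G : Type} [Group G] (K L : Subgroup G) [K.Normal] [L.Normal] :
    (cent K L).Normal := by
  refine ⟨?_⟩
  intro n hn g k hk
  have h2 : g⁻¹ * k * g ∈ K := by
    have := (inferInstance : K.Normal).conj_mem k hk g⁻¹
    simpa using this
  have h3 := hn _ h2
  have h4 := (inferInstance : L.Normal).conj_mem _ h3 g
  have e : g * n * g⁻¹ * k * (g * n * g⁻¹)⁻¹ * k⁻¹ =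
      g * (n * (g⁻¹ * k * g) * n⁻¹ * (g⁻¹ * k * g)⁻¹) * g⁻¹ := by group
  rw [e]
  exact h4

end Pool.Agent.Helper218.NV
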