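import Pool.Agent.Helper218.NV.Defs



namespace Pool.Agent.Helper218.NV
open scoped BigOperators commutatorElement


theorem chief_q {G : Type} [Group G] [Finite G] [Group.IsSolvable G] (K L : Subgroup G)
    (hK : K.Normal) (hL : L.Normal) (hLK : L < K)
    (hch : ∀ M : Subgroup G, M.Normal → L ≤ M → M ≤ K → M = L ∨ M = K) :
    ∃ q : ℕ, q.Prime ∧ (∀ a ∈ K, ∀ b ∈ K, ⁅a, b⁆ ∈ L) ∧ ∀ k ∈ K, k ^ q ∈ L := by
  classical
  have hKne : K.map (QuotientGroup.mk' L) ≠ ⊥ := by
    intro h
    rw [Subgroup.map_eq_bot_iff, QuotientGroup.ker_mk'] at h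
    exact absurd h (not_le_of_gt hLK)
  have hcomm : ⁅K, K⁆ ≤ L := by
    rcases hch (⁅K, K⁆ ⊔ L) inferInstance le_sup_right
      (sup_le (Subgroup.commutator_le_left K K) hLK.le) with h | h
    · exact le_sup_left.trans h.le
    · exfalso
      have h1 : ⁅K.map (QuotientGroup.mk' L), K.map (QuotientGroup.mk' L)⁆ =
          K.map (QuotientGroup.mk' L) := by
        rw [← Subgroup.map_commutator]
        conv_rhs => rw [← h, Subgroup.map_sup]
        have h2 : L.map (QuotientGroup.mk' L) = ⊥ := by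
          rw [Subgroup.map_eq_bot_iff, QuotientGroup.ker_mk']
        rw [h2, sup_bot_eq]
      have h3 : ∀ n, K.map (QuotientGroup.mk' L) ≤ derivedSeries (G ⧸ L) n := by
        intro n
        induction n with
        | zero => simp
        | succ n ih =>
          rw [derivedSeries_succ, ← h1]
          exact Subgroup.commutator_mono ih ih
      obtain ⟨n, hn⟩ := (inferInstance : Group.IsSolvable (G ⧸ L)).solvable
      have h4 := h3 n
      rw [hn, le_bot_iff] at h4
      exact hKne h4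
  have hcm : ∀ a ∈ K, ∀ b ∈ K, ⁅a, b⁆ ∈ L := fun a ha b hb =>
    hcomm (Subgroup.commutator_mem_commutator ha hb)
  have hcard : Nat.card (K.map (QuotientGroup.mk' L)) ≠ 1 := by
    intro h
    exact hKne (Subgroup.card_eq_one.1 h)
  obtain ⟨q, hq, hqd⟩ := Nat.exists_prime_and_dvd hcard
  haveI : Fact q.Prime := ⟨hq⟩
  obtain ⟨⟨x, hx⟩, hxq⟩ := exists_prime_orderOf_dvd_card' q hqd
  obtain ⟨k0, hk0, rfl⟩ := hx
  have hxq1 : (QuotientGroup.mk' L k0) ^ q = 1 := by
    have := pow_orderOf_eq_one (⟨QuotientGroup.mk' L k0, ⟨k0, hk0, rfl⟩⟩ :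
      (K.map (QuotientGroup.mk' L)))
    rw [hxq] at this
    exact congrArg Subtype.val this
  have hk0L : k0 ∉ L := by
    intro hmem
    have h1 : (⟨QuotientGroup.mk' L k0, ⟨k0, hk0, rfl⟩⟩ : (K.map (QuotientGroup.mk' L))) = 1 := by
      apply Subtype.ext
      exact (QuotientGroup.eq_one_iff k0).2 hmem
    rw [h1, orderOf_one] at hxq
    exact hq.one_lt.ne hxq
  have hpow : ∀ k : G, k ^ q ∈ L ↔ (QuotientGroup.mk' L k) ^ q = 1 := by
    intro k
    rw [← map_pow]
    exact (QuotientGroup.eq_one_iff (k ^ q)).symm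
  let T : Subgroup G :=
    { carrier := {k | k ∈ K ∧ k ^ q ∈ L}
      one_mem' := ⟨K.one_mem, by simp⟩
      mul_mem' := by
        rintro a b ⟨ha, ha'⟩ ⟨hb, hb'⟩
        refine ⟨K.mul_mem ha hb, ?_⟩
        rw [hpow] at ha' hb' ⊢
        have hc : Commute (QuotientGroup.mk' L a) (QuotientGroup.mk' L b) := by
          have h1 := (QuotientGroup.eq_one_iff (N := L) ⁅a, b⁆).2 (hcm a ha b hb)
          have h2 : ⁅(QuotientGroup.mk' L a), (QuotientGroup.mk' L b)⁆ = 1 := by
            rw [← map_commutatorElement]; exact h1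
          exact commutatorElement_eq_one_iff_commute.1 h2
        rw [map_mul, hc.mul_pow, ha', hb', one_mul]
      inv_mem' := by
        rintro a ⟨ha, ha'⟩
        refine ⟨K.inv_mem ha, ?_⟩
        rw [inv_pow]
        exact L.inv_mem ha' }
  have hTn : T.Normal := by
    constructor
    rintro k ⟨hk, hk'⟩ g
    refine ⟨hK.conj_mem k hk g, ?_⟩
    rw [conj_pow]
    exact hL.conj_mem _ hk' g
  have hLT : L ≤ T := fun l hl => ⟨hLK.le hl, L.pow_mem hl q⟩
  have hTK : T ≤ K := fun k hk => hk.1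
  rcases hch T hTn hLT hTK with h | h
  · exfalso
    have : k0 ∈ T := ⟨hk0, (hpow k0).2 hxq1⟩
    rw [h] at this
    exact hk0L this
  · refine ⟨q, hq, hcm, fun k hk => ?_⟩
    rw [← h] at hk
    exact hk.2

end Pool.Agent.Helper218.NV
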