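import Pool.Agent.Helper218.NV.Defs



namespace Pool.Agent.Helper218.NV
open scoped BigOperators commutatorElement


/-- the regular representation -/
noncomputable def eio_reg (G : Type) [Group G] : Representation ℂ G (G →₀ ℂ) where
  toFun g := Finsupp.lmapDomain ℂ ℂ (fun x => g * x)
  map_one' := by
    refine Finsupp.lhom_ext fun a b => ?_
    simp
  map_mul' g h := by
    refine Finsupp.lhom_ext fun a b => ?_
    simp [mul_assoc]

theorem eio_reg_single {G : Type} [Group G] (g x : G) (c : ℂ) :
    eio_reg G g (Finsupp.single x c) = Finsupp.single (g * x) c := by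
  simp [eio_reg]

theorem exists_irr_over {G : Type} [Group G] [Finite G] (N : Subgroup G) [N.Normal]
    (l : N →* ℂˣ) :
    ∃ (V : Type) (_ : AddCommGroup V) (_ : Module ℂ V) (_ : FiniteDimensional ℂ V)
      (ρ : Representation ℂ G V), ρ.IsIrreducible ∧
      Submodule.span ℂ {v : V | ∃ g : G, ∀ n : N,
        ρ (n : G) v = ((l (MulAut.conjNormal g⁻¹ n) : ℂˣ) : ℂ) • v} = ⊤ := by
  classical
  -- the relations
  let I0 : Submodule ℂ (G →₀ ℂ) := Submodule.span ℂ {v | ∃ (g : G) (n : N),
    v = Finsupp.single (g * (n : G)) 1 - ((l n : ℂˣ) : ℂ) • Finsupp.single g 1}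
  have hI0s : ∀ g : G, ∀ v ∈ I0, eio_reg G g v ∈ I0 := by
    intro g
    have h1 : I0 ≤ I0.comap (eio_reg G g) := by
      refine Submodule.span_le.2 ?_
      rintro v ⟨h, n, rfl⟩
      change eio_reg G g _ ∈ I0
      rw [map_sub, map_smul, eio_reg_single, eio_reg_single, ← mul_assoc]
      exact Submodule.subset_span ⟨g * h, n, rfl⟩
    exact fun v hv => h1 hv
  have hI0t : I0 ≠ ⊤ := by
    intro h
    let φ : (G →₀ ℂ) →ₗ[ℂ] ℂ :=
      Finsupp.linearCombination ℂ (fun x : G => if h : x ∈ N then ((l ⟨x, h⟩ : ℂˣ) : ℂ) else 0)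
    have h1 : I0 ≤ LinearMap.ker φ := by
      refine Submodule.span_le.2 ?_
      rintro v ⟨g, n, rfl⟩
      change φ _ = 0
      rw [map_sub, map_smul]
      simp only [φ, Finsupp.linearCombination_single, one_smul, smul_eq_mul]
      by_cases hg : g ∈ N
      · have hgn : g * (n : G) ∈ N := N.mul_mem hg n.2
        rw [dif_pos hgn, dif_pos hg]
        have : (⟨g * (n : G), hgn⟩ : N) = ⟨g, hg⟩ * n := rfl
        rw [this, map_mul, Units.val_mul]
        ring
      · have hgn : g * (n : G) ∉ N := fun h' => hg ((N.mul_mem_cancel_right n.2).1 h')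
        rw [dif_neg hgn, dif_neg hg]
        ring
    have h2 : (Finsupp.single (1 : G) (1 : ℂ)) ∈ LinearMap.ker φ := by
      apply h1
      rw [h]
      trivial
    have h3 : φ (Finsupp.single (1 : G) (1 : ℂ)) = 0 := h2
    simp only [φ, Finsupp.linearCombination_single, one_smul] at h3
    rw [dif_pos N.one_mem] at h3
    have h4 : (⟨(1 : G), N.one_mem⟩ : N) = 1 := rfl
    rw [h4, map_one] at h3
    simp at h3
  -- a maximal stable subspace
  obtain ⟨U, ⟨hU1, hU2, hU3⟩, hmax⟩ := (wellFounded_gt (α := Submodule ℂ (G →₀ ℂ))).has_min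
    {U | I0 ≤ U ∧ (∀ g : G, ∀ v ∈ U, eio_reg G g v ∈ U) ∧ U ≠ ⊤} ⟨I0, le_rfl, hI0s, hI0t⟩
  let ρ : Representation ℂ G ((G →₀ ℂ) ⧸ U) :=
    { toFun := fun g => U.mapQ U (eio_reg G g) (fun v hv => hU2 g v hv)
      map_one' := by
        refine Submodule.linearMap_qext _ ?_
        ext v
        simp
      map_mul' := fun g h => by
        refine Submodule.linearMap_qext _ ?_
        refine LinearMap.ext fun v => ?_
        simp [map_mul] }
  have hρ : ∀ (g : G) (v : G →₀ ℂ), ρ g (U.mkQ v) = U.mkQ (eio_reg G g v) := fun g v => rfl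
  refine ⟨(G →₀ ℂ) ⧸ U, inferInstance, inferInstance, inferInstance, ρ, ?_, ?_⟩
  · have hnt : Nontrivial (Subrepresentation ρ) := by
      refine ⟨⊥, ⊤, fun h => hU3 ?_⟩
      have h1 : (⊥ : Submodule ℂ ((G →₀ ℂ) ⧸ U)) = ⊤ :=
        congrArg Subrepresentation.toSubmodule h
      rw [eq_top_iff]
      intro v _
      have h2 : U.mkQ v ∈ (⊥ : Submodule ℂ ((G →₀ ℂ) ⧸ U)) := by rw [h1]; trivial
      rw [Submodule.mem_bot] at h2
      exact (Submodule.Quotient.mk_eq_zero U).1 h2
    refine { toNontrivial := hnt, eq_bot_or_eq_top := fun W => ?_ }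
    let W' : Submodule ℂ (G →₀ ℂ) := W.toSubmodule.comap U.mkQ
    have hUW : U ≤ W' := by
      intro v hv
      change U.mkQ v ∈ W.toSubmodule
      have : U.mkQ v = 0 := (Submodule.Quotient.mk_eq_zero U).2 hv
      rw [this]
      exact W.toSubmodule.zero_mem
    by_cases hW : W' = ⊤
    · right
      apply Subrepresentation.toSubmodule_injective
      change W.toSubmodule = ⊤
      rw [eq_top_iff]
      intro x _
      obtain ⟨v, rfl⟩ := U.mkQ_surjective x
      have : v ∈ W' := by rw [hW]; trivial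
      exact this
    · left
      apply Subrepresentation.toSubmodule_injective
      change W.toSubmodule = ⊥
      have h1 : ¬ (U < W') := hmax W' ⟨hU1.trans hUW, fun g v hv => by
        change U.mkQ (eio_reg G g v) ∈ W.toSubmodule
        rw [← hρ]
        exact W.apply_mem_toSubmodule g hv, hW⟩
      have h2 : W' = U := by
        by_contra hne
        exact h1 (lt_of_le_of_ne hUW (Ne.symm hne))
      rw [eq_bot_iff]
      intro x hx
      obtain ⟨v, rfl⟩ := U.mkQ_surjective x
      have h3 : v ∈ W' := hx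
      rw [h2] at h3
      exact (Submodule.Quotient.mk_eq_zero U).2 h3
  · rw [eq_top_iff]
    intro x _
    obtain ⟨f, rfl⟩ := U.mkQ_surjective x
    induction f using Finsupp.induction_linear with
    | zero => rw [map_zero]; exact Submodule.zero_mem _
    | add f g hf hg =>
      rw [map_add]
      exact Submodule.add_mem _ (hf trivial) (hg trivial)
    | single g c =>
      have h1 : (Finsupp.single g c : G →₀ ℂ) = c • Finsupp.single g 1 := by simp
      rw [h1, map_smul]
      refine Submodule.smul_mem _ _ (Submodule.subset_span ⟨g, fun n => ?_⟩)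
      rw [hρ, eio_reg_single, ← map_smul, ← sub_eq_zero, ← map_sub]
      refine (Submodule.Quotient.mk_eq_zero U).2 (hU1 (Submodule.subset_span
        ⟨g, MulAut.conjNormal g⁻¹ n, ?_⟩))
      congr 2
      rw [MulAut.conjNormal_apply]
      group

end Pool.Agent.Helper218.NV
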