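import Pool.Agent.Helper218.NV.Defs
import Pool.Agent.Helper218.NV.P_exists_irr_over



namespace Pool.Agent.Helper218.NV
open scoped BigOperators commutatorElement


/-- twisted character -/
def nvtw {G : Type} [Group G] {N : Subgroup G} [N.Normal] (y : G) (μ : N →* ℂˣ) : N →* ℂˣ :=
  μ.comp (MulAut.conjNormal y⁻¹ : MulAut N).toMonoidHom

theorem nvtw_apply {G : Type} [Group G] {N : Subgroup G} [N.Normal] (y : G) (μ : N →* ℂˣ) (n : N) :
    nvtw y μ n = μ (MulAut.conjNormal y⁻¹ n) := rfl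

/-- the projection to the isotypic part -/
noncomputable def nvp {G : Type} [Group G] {N : Subgroup G} [Fintype N] {V : Type}
    [AddCommGroup V] [Module ℂ V] (ρ : Representation ℂ G V) (μ : N →* ℂˣ) : Module.End ℂ V :=
  ((Fintype.card N : ℂ)⁻¹) • ∑ n : N, ((((μ n)⁻¹ : ℂˣ) : ℂ)) • ρ (n : G)

theorem nvp_shift {G : Type} [Group G] {N : Subgroup G} [Fintype N] {V : Type}
    [AddCommGroup V] [Module ℂ V] (ρ : Representation ℂ G V) (ν : N →* ℂˣ) (m : N) :
    ρ (m : G) * nvp ρ ν = ((ν m : ℂˣ) : ℂ) • nvp ρ ν := by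
  unfold nvp
  rw [mul_smul_comm, smul_comm]
  congr 1
  rw [Finset.mul_sum, Finset.smul_sum]
  rw [← Equiv.sum_comp (Equiv.mulLeft m)
    (fun n : N => ((ν m : ℂˣ) : ℂ) • ((((ν n)⁻¹ : ℂˣ) : ℂ)) • ρ (n : G))]
  apply Finset.sum_congr rfl
  intro n _
  rw [mul_smul_comm]
  have h1 : (Equiv.mulLeft m) n = m * n := rfl
  rw [h1, smul_smul]
  congr 1
  · rw [← Units.val_mul]
    congr 1
    rw [map_mul, mul_inv, mul_inv_cancel_left]
  · rw [Subgroup.coe_mul, map_mul]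

theorem nv_orth {N : Type} [Group N] [Fintype N] (μ ν : N →* ℂˣ) :
    (∑ n : N, ((((μ n)⁻¹ : ℂˣ) : ℂ)) * ((ν n : ℂˣ) : ℂ)) = if μ = ν then (Fintype.card N : ℂ) else 0 := by
  classical
  have h := sum_hom_units (R := ℂ) ((Units.coeHom ℂ).comp (μ⁻¹ * ν))
  have e : ∀ n : N, ((Units.coeHom ℂ).comp (μ⁻¹ * ν)) n
      = ((((μ n)⁻¹ : ℂˣ) : ℂ)) * ((ν n : ℂˣ) : ℂ) := by
    intro n
    simp
  simp only [e] at h
  rw [h]
  by_cases hμν : μ = ν
  · rw [if_pos hμν, if_pos]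
    ext n
    rw [e, hμν]
    simp
  · rw [if_neg hμν, if_neg, Nat.cast_zero]
    intro h1
    apply hμν
    ext n
    have h2 := DFunLike.congr_fun h1 n
    rw [e] at h2
    have h3 : ((μ n)⁻¹ * ν n : ℂˣ) = 1 := by
      apply Units.ext
      rw [Units.val_mul]
      simpa using h2
    have h4 := inv_mul_eq_one.1 h3
    rw [h4]

theorem nvp_mul {G : Type} [Group G] {N : Subgroup G} [Fintype N] {V : Type}
    [AddCommGroup V] [Module ℂ V] (ρ : Representation ℂ G V) (μ ν : N →* ℂˣ) [Decidable (μ = ν)] :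
    nvp ρ μ * nvp ρ ν = if μ = ν then nvp ρ ν else 0 := by
  classical
  conv_lhs => rw [nvp]
  rw [smul_mul_assoc, Finset.sum_mul]
  have h1 : ∀ n : N, (((((μ n)⁻¹ : ℂˣ) : ℂ)) • ρ (n : G)) * nvp ρ ν
      = (((((μ n)⁻¹ : ℂˣ) : ℂ)) * ((ν n : ℂˣ) : ℂ)) • nvp ρ ν := by
    intro n
    rw [smul_mul_assoc, nvp_shift, smul_smul]
  simp only [h1]
  rw [← Finset.sum_smul, nv_orth]
  by_cases h : μ = ν
  · rw [if_pos h, if_pos h, smul_smul, inv_mul_cancel₀, one_smul]
    exact_mod_cast Fintype.card_ne_zero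
  · rw [if_neg h, if_neg h, zero_smul, smul_zero]

theorem nvp_apply {G : Type} [Group G] {N : Subgroup G} [Fintype N] {V : Type}
    [AddCommGroup V] [Module ℂ V] (ρ : Representation ℂ G V) (μ ν : N →* ℂˣ) [Decidable (μ = ν)]
    (v : V) (hv : ∀ n : N, ρ (n : G) v = ((ν n : ℂˣ) : ℂ) • v) :
    nvp ρ μ v = if μ = ν then v else 0 := by
  classical
  rw [nvp, LinearMap.smul_apply, LinearMap.sum_apply]
  have h1 : ∀ n : N, (((((μ n)⁻¹ : ℂˣ) : ℂ)) • ρ (n : G)) v
      = (((((μ n)⁻¹ : ℂˣ) : ℂ)) * ((ν n : ℂˣ) : ℂ)) • v := by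
    intro n
    rw [LinearMap.smul_apply, hv, smul_smul]
  simp only [h1]
  rw [← Finset.sum_smul, nv_orth]
  by_cases h : μ = ν
  · rw [if_pos h, if_pos h, smul_smul, inv_mul_cancel₀, one_smul]
    exact_mod_cast Fintype.card_ne_zero
  · rw [if_neg h, if_neg h, zero_smul, smul_zero]

theorem nvp_conj {G : Type} [Group G] {N : Subgroup G} [N.Normal] [Fintype N] {V : Type}
    [AddCommGroup V] [Module ℂ V] (ρ : Representation ℂ G V) (μ : N →* ℂˣ) (x : G) :
    ρ x * nvp ρ μ = nvp ρ (nvtw x μ) * ρ x := by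
  unfold nvp
  rw [mul_smul_comm, smul_mul_assoc]
  congr 1
  rw [Finset.mul_sum, Finset.sum_mul]
  rw [← Equiv.sum_comp (MulAut.conjNormal x : MulAut N).toEquiv
    (fun n : N => (((((nvtw x μ) n)⁻¹ : ℂˣ) : ℂ)) • ρ (n : G) * ρ x)]
  apply Finset.sum_congr rfl
  intro n _
  have h1 : (MulAut.conjNormal x : MulAut N).toEquiv n = MulAut.conjNormal x n := rfl
  rw [h1, nvtw_apply]
  have h2 : MulAut.conjNormal x⁻¹ (MulAut.conjNormal x n) = n := by
    rw [map_inv]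
    exact MulAut.inv_apply_self _ _ _
  rw [h2, MulAut.conjNormal_apply, mul_smul_comm, smul_mul_assoc]
  congr 1
  rw [← map_mul, ← map_mul]
  congr 1
  group

theorem nv_fix {G : Type} [Group G] [Finite G] (x : G) (hx : Nonvanishing x) (N : Subgroup G)
    [N.Normal] (l : N →* ℂˣ) :
    ∃ g : G, ∀ n : N, l (MulAut.conjNormal (g⁻¹ * x * g) n) = l n := by
  classical
  by_contra hcon
  push Not at hcon
  have : Fintype G := Fintype.ofFinite G
  have : Fintype N := Fintype.ofFinite N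
  obtain ⟨V, i1, i2, i3, ρ, hirr, hspan⟩ := exists_irr_over N l
  apply hx V ρ hirr
  obtain ⟨M, hM⟩ : ∃ M : Finset (N →* ℂˣ), M = Finset.univ.image (fun g : G => nvtw g l) := ⟨_, rfl⟩
  have hne : ∀ μ ∈ M, μ ≠ nvtw x μ := by
    intro μ hμ h
    rw [hM, Finset.mem_image] at hμ
    obtain ⟨g, -, rfl⟩ := hμ
    obtain ⟨n, hn⟩ := hcon g
    apply hn
    have h1 := DFunLike.congr_fun h (MulAut.conjNormal (x * g) n)
    rw [nvtw_apply, nvtw_apply, nvtw_apply] at h1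
    have h2 : MulAut.conjNormal g⁻¹ (MulAut.conjNormal (x * g) n)
        = MulAut.conjNormal (g⁻¹ * x * g) n := by
      apply Subtype.ext
      simp only [MulAut.conjNormal_apply]
      group
    have h3 : MulAut.conjNormal g⁻¹ (MulAut.conjNormal x⁻¹ (MulAut.conjNormal (x * g) n)) = n := by
      apply Subtype.ext
      simp only [MulAut.conjNormal_apply]
      group
    rw [h2, h3] at h1
    exact h1
  have hsum : ∑ μ ∈ M, nvp ρ μ = 1 := by
    apply LinearMap.ext_on hspan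
    rintro v ⟨g, hg⟩
    have hg' : ∀ n : N, ρ (n : G) v = ((nvtw g l n : ℂˣ) : ℂ) • v := hg
    rw [LinearMap.sum_apply, Finset.sum_eq_single (nvtw g l)]
    · rw [nvp_apply ρ _ (nvtw g l) v hg', if_pos rfl]
      rfl
    · intro μ _ hμ
      rw [nvp_apply ρ _ (nvtw g l) v hg', if_neg hμ]
    · intro h
      exfalso
      apply h
      rw [hM, Finset.mem_image]
      exact ⟨g, Finset.mem_univ _, rfl⟩
  have h1 : ρ.character x = LinearMap.trace ℂ V (ρ x) := rfl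
  rw [h1]
  have h2 : ρ x = ∑ μ ∈ M, ρ x * nvp ρ μ := by
    rw [← Finset.mul_sum, hsum, mul_one]
  rw [h2, map_sum]
  apply Finset.sum_eq_zero
  intro μ hμ
  have h3 : nvp ρ μ * nvp ρ μ = nvp ρ μ := by rw [nvp_mul, if_pos rfl]
  rw [← h3, ← mul_assoc, LinearMap.trace_mul_comm, nvp_conj, ← mul_assoc, nvp_mul,
    if_neg (hne μ hμ), zero_mul, map_zero]

end Pool.Agent.Helper218.NV
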