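import Pool.Agent.Helper218.NV.Defs
import Pool.Agent.Helper218.NV.P_nv_fix



namespace Pool.Agent.Helper218.NV
open scoped BigOperators commutatorElement


/-- the characters of `K` trivial on `L` -/
def dual_rep_W {G : Type} [Group G] (K L : Subgroup G) : Subgroup (K →* ℂˣ) where
  carrier := {l | ∀ k : K, (k : G) ∈ L → l k = 1}
  mul_mem' := by
    intro a b ha hb k hk
    rw [MonoidHom.mul_apply, ha k hk, hb k hk, one_mul]
  one_mem' := fun _ _ => rfl
  inv_mem' := by
    intro a ha k hk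
    rw [MonoidHom.inv_apply, ha k hk, inv_one]

theorem dual_rep_conj {G : Type} [Group G] (K L : Subgroup G) [K.Normal] [hL : L.Normal]
    (g : G) (k : K) (hk : (k : G) ∈ L) : ((MulAut.conjNormal g k : K) : G) ∈ L := by
  rw [MulAut.conjNormal_apply]
  exact hL.conj_mem _ hk g

/-- the action on the characters -/
def dual_rep_act {G : Type} [Group G] (K L : Subgroup G) [K.Normal] [L.Normal] (g : G) :
    dual_rep_W K L →* dual_rep_W K L where
  toFun l := ⟨l.1.comp (MulAut.conjNormal g⁻¹ : MulAut K).toMonoidHom, fun k hk =>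
    l.2 _ (dual_rep_conj K L g⁻¹ k hk)⟩
  map_one' := by
    apply Subtype.ext
    ext k
    rfl
  map_mul' a b := by
    apply Subtype.ext
    ext k
    rfl

theorem dual_rep_act_apply {G : Type} [Group G] (K L : Subgroup G) [K.Normal] [L.Normal] (g : G)
    (l : dual_rep_W K L) (k : K) : (dual_rep_act K L g l).1 k = l.1 (MulAut.conjNormal g⁻¹ k) :=
  rfl

theorem dual_rep_finite {G : Type} [Group G] [Finite G] (K : Subgroup G) :
    Finite (K →* ℂˣ) := by
  haveI : NeZero (Nat.card K) := ⟨Nat.card_pos.ne'⟩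
  have hmem : ∀ (l : K →* ℂˣ) (k : K), l k ∈ rootsOfUnity (Nat.card K) ℂ := by
    intro l k
    rw [mem_rootsOfUnity, ← map_pow, pow_card_eq_one', map_one]
  refine Finite.of_injective (fun (l : K →* ℂˣ) (k : K) =>
    (⟨l k, hmem l k⟩ : rootsOfUnity (Nat.card K) ℂ)) ?_
  intro a b hab
  ext k
  have h1 := congrFun hab k
  have h2 : a k = b k := congrArg Subtype.val h1
  rw [h2]

/-- representations from additive actions -/
theorem dual_rep_mk {G : Type} [Group G] (C : Subgroup G) [C.Normal] (q : ℕ) (A : Type)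
    [AddCommGroup A] [hA : Finite A] (hq : ∀ x : A, q • x = 0) (f : G → A →+ A)
    (h1 : ∀ v, f 1 v = v) (hmul : ∀ a b v, f (a * b) v = f a (f b v))
    (hker : ∀ g ∈ C, ∀ v, f g v = v) (hinj : ∀ g, (∀ v, f g v = v) → g ∈ C) (P : G → Prop)
    (hP : ∀ x, P x → ∀ v, ∃ g, f (g * x * g⁻¹) v = v) :
    ∃ (V : Type) (_ : AddCommGroup V) (_ : Module (ZMod q) V) (_ : Finite V)
      (ρ : Representation (ZMod q) (G ⧸ C) V),
      (∀ h, ρ h = 1 → h = 1) ∧
      (∀ x : G, P x → ∀ v : V, ∃ g : G, ρ ((g * x * g⁻¹ : G) : G ⧸ C) v = v) := by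
  obtain ⟨hmod⟩ : Nonempty (Module (ZMod q) A) := ⟨AddCommGroup.zmodModule hq⟩
  let ρ0 : G →* Module.End (ZMod q) A :=
    { toFun := fun g => AddMonoidHom.toZModLinearMap q (f g)
      map_one' := LinearMap.ext h1
      map_mul' := fun a b => LinearMap.ext (hmul a b) }
  have hρ0 : ∀ (g : G) (v : A), ρ0 g v = f g v := fun g v => rfl
  have hk : C ≤ MonoidHom.ker ρ0 := by
    intro g hg
    rw [MonoidHom.mem_ker]
    exact LinearMap.ext (hker g hg)
  refine ⟨A, inferInstance, hmod, hA, QuotientGroup.lift C ρ0 hk, ?_, ?_⟩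
  · intro h hh
    obtain ⟨g, rfl⟩ := QuotientGroup.mk_surjective h
    rw [QuotientGroup.lift_mk] at hh
    rw [QuotientGroup.eq_one_iff]
    refine hinj g fun v => ?_
    rw [← hρ0, hh]
    rfl
  · intro x hx v
    obtain ⟨g, hg⟩ := hP x hx v
    refine ⟨g, ?_⟩
    rw [QuotientGroup.lift_mk, hρ0]
    exact hg

/-- characters of `K` trivial on `L` detect `L` -/
theorem dual_rep_sep {G : Type} [Group G] [Finite G] (K L : Subgroup G)
    [hK : K.Normal] [hL : L.Normal] (hab : ∀ a ∈ K, ∀ b ∈ K, ⁅a, b⁆ ∈ L) (u : K)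
    (hu : ∀ l ∈ dual_rep_W K L, l u = 1) : (u : G) ∈ L := by
  by_contra hcon
  haveI hN : (L.subgroupOf K).Normal := inferInstance
  letI hcomm : CommGroup (K ⧸ L.subgroupOf K) :=
    { QuotientGroup.Quotient.group (L.subgroupOf K) with
      mul_comm := by
        intro a b
        obtain ⟨a, rfl⟩ := QuotientGroup.mk_surjective a
        obtain ⟨b, rfl⟩ := QuotientGroup.mk_surjective b
        rw [← QuotientGroup.mk_mul, ← QuotientGroup.mk_mul, QuotientGroup.eq,
          Subgroup.mem_subgroupOf]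
        have h1 := hab _ (K.inv_mem b.2) _ (K.inv_mem a.2)
        have h2 : (((a * b)⁻¹ * (b * a) : K) : G) = ⁅((b : G))⁻¹, ((a : G))⁻¹⁆ := by
          rw [commutatorElement_def]
          push_cast
          group
        rw [h2]
        exact h1 }
  have hne : (QuotientGroup.mk u : K ⧸ L.subgroupOf K) ≠ 1 := by
    intro h
    rw [QuotientGroup.eq_one_iff, Subgroup.mem_subgroupOf] at h
    exact hcon h
  haveI : NeZero (Monoid.exponent (K ⧸ L.subgroupOf K)) := Monoid.neZero_exponent_of_finite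
  obtain ⟨φ, hφ⟩ := CommGroup.exists_apply_ne_one_of_hasEnoughRootsOfUnity
    (K ⧸ L.subgroupOf K) ℂ hne
  have hmk : ∀ k : K, (k : G) ∈ L → (QuotientGroup.mk k : K ⧸ L.subgroupOf K) = 1 := by
    intro k hk
    rw [QuotientGroup.eq_one_iff, Subgroup.mem_subgroupOf]
    exact hk
  apply hφ
  refine hu (φ.comp (QuotientGroup.mk' (L.subgroupOf K))) ?_
  intro k hk
  show φ (QuotientGroup.mk k) = 1
  rw [hmk k hk, map_one]

theorem dual_rep {G : Type} [Group G] [Finite G] (q : ℕ) [Fact q.Prime] (K L : Subgroup G)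
    [hK : K.Normal] [hL : L.Normal] (hLK : L ≤ K) (hab : ∀ a ∈ K, ∀ b ∈ K, ⁅a, b⁆ ∈ L)
    (hexp : ∀ k ∈ K, k ^ q ∈ L) [hC : (cent K L).Normal] :
    ∃ (V : Type) (_ : AddCommGroup V) (_ : Module (ZMod q) V) (_ : Finite V)
      (ρ : Representation (ZMod q) (G ⧸ cent K L) V),
      (∀ h, ρ h = 1 → h = 1) ∧
      (∀ x : G, Nonvanishing x → ∀ v : V, ∃ g : G,
        ρ ((g * x * g⁻¹ : G) : G ⧸ cent K L) v = v) := by
  classical
  haveI hfin : Finite (K →* ℂˣ) := dual_rep_finite K
  have hq : ∀ x : Additive (dual_rep_W K L), q • x = 0 := by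
    intro x
    have h1 : (Additive.toMul x) ^ q = 1 := by
      apply Subtype.ext
      ext k
      have h2 : ((Additive.toMul x).1 k) ^ q = 1 := by
        rw [← map_pow]
        refine (Additive.toMul x).2 _ ?_
        rw [Subgroup.coe_pow]
        exact hexp k k.2
      show ((((Additive.toMul x).1 ^ q) k : ℂˣ) : ℂ) = _
      rw [MonoidHom.pow_apply, h2]
      rfl
    exact h1
  haveI hfin2 : Finite (Additive (dual_rep_W K L)) := inferInstanceAs (Finite (dual_rep_W K L))
  have hext : ∀ v w : Additive (dual_rep_W K L),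
      (∀ k : K, (Additive.toMul v).1 k = (Additive.toMul w).1 k) → v = w := by
    intro v w h
    exact Subtype.ext (MonoidHom.ext h)
  have hf0 : ∀ (g : G) (v : Additive (dual_rep_W K L)) (k : K),
      (Additive.toMul (MonoidHom.toAdditive (dual_rep_act K L g) v)).1 k =
      (Additive.toMul v).1 (MulAut.conjNormal g⁻¹ k) := fun g v k => rfl
  refine dual_rep_mk (cent K L) q (Additive (dual_rep_W K L)) hq
    (fun g => MonoidHom.toAdditive (dual_rep_act K L g)) ?_ ?_ ?_ ?_ Nonvanishing ?_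
  · intro v
    apply hext
    intro k
    rw [hf0, inv_one, map_one]
    rfl
  · intro a b v
    apply hext
    intro k
    rw [hf0, hf0, hf0, mul_inv_rev, map_mul]
    rfl
  · intro g hg v
    apply hext
    intro k
    rw [hf0]
    have h1 : (g⁻¹ * k * (g⁻¹)⁻¹ * (k : G)⁻¹ : G) ∈ L := (cent K L).inv_mem hg k k.2
    have h2 : MulAut.conjNormal g⁻¹ k =
        (MulAut.conjNormal g⁻¹ k * k⁻¹ : K) * k := by group
    rw [h2, map_mul]
    have h3 : (Additive.toMul v).1 (MulAut.conjNormal g⁻¹ k * k⁻¹ : K) = 1 := by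
      refine (Additive.toMul v).2 _ ?_
      rw [Subgroup.coe_mul, MulAut.conjNormal_apply, Subgroup.coe_inv]
      exact h1
    rw [h3, one_mul]
  · intro g hg
    have hginv : g⁻¹ ∈ cent K L := by
      intro k hk
      have h1 := dual_rep_sep K L hab (MulAut.conjNormal g⁻¹ ⟨k, hk⟩ * (⟨k, hk⟩ : K)⁻¹) (by
        intro l hl
        have h2 := hf0 g (Additive.ofMul ⟨l, hl⟩) ⟨k, hk⟩
        rw [hg] at h2
        have h3 : l ⟨k, hk⟩ = l (MulAut.conjNormal g⁻¹ ⟨k, hk⟩) := h2
        rw [map_mul, ← h3, map_inv, mul_inv_cancel])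
      rw [Subgroup.coe_mul, MulAut.conjNormal_apply, Subgroup.coe_inv] at h1
      exact h1
    have h4 := (cent K L).inv_mem hginv
    rwa [inv_inv] at h4
  · intro x hx v
    obtain ⟨g, hg⟩ := nv_fix x hx K (Additive.toMul v).1
    refine ⟨g⁻¹, ?_⟩
    rw [inv_inv]
    apply hext
    intro k
    rw [hf0]
    have h1 := hg (MulAut.conjNormal (g⁻¹ * x * g)⁻¹ k)
    rw [← h1, ← MulAut.mul_apply, ← map_mul, mul_inv_cancel, map_one]
    rfl

end Pool.Agent.Helper218.NV
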