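import Pool.Agent.Helper218.NV.Defs



namespace Pool.Agent.Helper218.NV
open scoped BigOperators commutatorElement


theorem prim_idem (R : Type) [CommRing R] [Finite R] :
    ∃ P : Finset R,
      (∀ e, e ∈ P ↔ (e * e = e ∧ e ≠ 0 ∧ ∀ f : R, f * f = f → f * e = 0 ∨ f * e = e)) ∧
      ∑ e ∈ P, e = 1 ∧ (∀ e ∈ P, ∀ f ∈ P, e ≠ f → e * f = 0) := by
  classical
  have hfin : {e : R | e * e = e ∧ e ≠ 0 ∧ ∀ f : R, f * f = f → f * e = 0 ∨ f * e = e}.Finite :=
    Set.toFinite _
  have hmem : ∀ e, e ∈ hfin.toFinset ↔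
      (e * e = e ∧ e ≠ 0 ∧ ∀ f : R, f * f = f → f * e = 0 ∨ f * e = e) := by
    intro e
    rw [Set.Finite.mem_toFinset]
    rfl
  generalize hfin.toFinset = P at hmem
  have horth : ∀ e ∈ P, ∀ f ∈ P, e ≠ f → e * f = 0 := by
    intro e he f hf hef
    obtain ⟨he1, he2, he3⟩ := (hmem e).1 he
    obtain ⟨hf1, hf2, hf3⟩ := (hmem f).1 hf
    rcases hf3 e he1 with h | h
    · exact h
    · rcases he3 f hf1 with h' | h'
      · rw [mul_comm]; exact h'
      · exact absurd (by rw [← h', mul_comm, h]) hef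
  have hse : ∀ e ∈ P, (∑ f ∈ P, f) * e = e := by
    intro e he
    rw [Finset.sum_mul, Finset.sum_eq_single e]
    · exact ((hmem e).1 he).1
    · intro f hf hfe
      exact horth f hf e he hfe
    · intro h
      exact absurd he h
  refine ⟨P, hmem, ?_, horth⟩
  by_contra hne
  obtain ⟨s, hs⟩ : ∃ s, s = ∑ e ∈ P, e := ⟨_, rfl⟩
  rw [← hs] at hne hse
  have hss : s * s = s := by
    nth_rewrite 2 [hs]
    rw [Finset.mul_sum, Finset.sum_congr rfl hse, ← hs]
  let T : Set R := {f | f * f = f ∧ f ≠ 0 ∧ f * (1 - s) = f}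
  have hT : T.Nonempty := by
    have h1 : (1 - s) * (1 - s) = 1 - s := by
      have : (1 - s) * (1 - s) = 1 - s - s + s * s := by ring
      rw [this, hss]; ring
    exact ⟨1 - s, h1, fun h => hne (sub_eq_zero.1 h).symm, h1⟩
  obtain ⟨f, hfT, hmin⟩ := Set.exists_min_image T (fun f => ({x : R | x * f = x}).ncard)
    (Set.toFinite T) hT
  obtain ⟨hf1, hf2, hf3⟩ := hfT
  have hfP : f ∈ P := by
    rw [hmem]
    refine ⟨hf1, hf2, ?_⟩
    intro r hr
    by_cases hrf : r * f = 0
    · exact Or.inl hrf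
    · right
      have hT' : r * f ∈ T := by
        refine ⟨?_, hrf, ?_⟩
        · calc r * f * (r * f) = (r * r) * (f * f) := by ring
            _ = r * f := by rw [hr, hf1]
        · rw [mul_assoc, hf3]
      have hle := hmin _ hT'
      have hsub : {x : R | x * (r * f) = x} ⊆ {x : R | x * f = x} := by
        intro x hx
        have hx' : x * (r * f) = x := hx
        show x * f = x
        calc x * f = x * (r * f) * f := by rw [hx']
          _ = x * (r * (f * f)) := by ring
          _ = x := by rw [hf1, hx']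
      have heq : {x : R | x * (r * f) = x} = {x : R | x * f = x} :=
        Set.eq_of_subset_of_ncard_le hsub hle (Set.toFinite _)
      have hff : f ∈ {x : R | x * (r * f) = x} := by
        rw [heq]; exact hf1
      have hff' : f * (r * f) = f := hff
      calc r * f = r * (f * f) := by rw [hf1]
        _ = f * (r * f) := by ring
        _ = f := hff'
  have h1 := hse f hfP
  apply hf2
  rw [← hf3, mul_sub, mul_one, mul_comm f s, h1, sub_self]

end Pool.Agent.Helper218.NV
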