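import Pool.Agent.Helper218.NV.Defs
import Pool.Agent.Helper218.NV.P_prim_idem



namespace Pool.Agent.Helper218.NV
open scoped BigOperators commutatorElement


theorem prim_idem_sub {R : Type} [Ring R] [Finite R] (B : Subring R)
    (hB : ∀ x ∈ B, ∀ y ∈ B, x * y = y * x) :
    ∃ E : Finset R,
      (∀ e, e ∈ E ↔ (e ∈ B ∧ e * e = e ∧ e ≠ 0 ∧ ∀ f ∈ B, f * f = f → f * e = 0 ∨ f * e = e)) ∧
      ∑ e ∈ E, e = 1 ∧ (∀ e ∈ E, ∀ f ∈ E, e ≠ f → e * f = 0) := by
  letI : CommRing B :=
    { (inferInstance : Ring B) with mul_comm := fun x y => Subtype.ext (hB x x.2 y y.2) }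
  obtain ⟨P, h1, h2, h3⟩ := prim_idem B
  refine ⟨P.map (Function.Embedding.subtype _), ?_, ?_, ?_⟩
  · intro e
    rw [Finset.mem_map]
    constructor
    · rintro ⟨e', he', rfl⟩
      obtain ⟨g1, g2, g3⟩ := (h1 e').1 he'
      refine ⟨e'.2, congrArg Subtype.val g1, ?_, ?_⟩
      · intro h
        exact g2 (Subtype.ext h)
      · intro f hf hff
        rcases g3 ⟨f, hf⟩ (Subtype.ext hff) with h | h
        · left; exact congrArg Subtype.val h
        · right; exact congrArg Subtype.val h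
    · rintro ⟨g0, g1, g2, g3⟩
      refine ⟨⟨e, g0⟩, (h1 _).2 ⟨Subtype.ext g1, ?_, ?_⟩, rfl⟩
      · intro h
        exact g2 (congrArg Subtype.val h)
      · intro f hff
        rcases g3 f f.2 (congrArg Subtype.val hff) with h | h
        · left; exact Subtype.ext h
        · right; exact Subtype.ext h
  · rw [Finset.sum_map]
    have := congrArg Subtype.val h2
    rw [AddSubmonoidClass.coe_finsetSum] at this
    exact this
  · intro e he f hf hef
    rw [Finset.mem_map] at he hf
    obtain ⟨e', he', rfl⟩ := he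
    obtain ⟨f', hf', rfl⟩ := hf
    exact congrArg Subtype.val (h3 e' he' f' hf' (fun h => hef (by rw [h])))

/-- conjugation as a ring automorphism -/
noncomputable def conjR {H : Type} [Group H] {q : ℕ} {V : Type} [AddCommGroup V]
    [Module (ZMod q) V] (ρ : Representation (ZMod q) H V) (h : H) :
    Module.End (ZMod q) V ≃+* Module.End (ZMod q) V where
  toFun f := ρ h * f * ρ h⁻¹
  invFun f := ρ h⁻¹ * f * ρ h
  left_inv f := by
    have h1 : ρ h⁻¹ * ρ h = 1 := by rw [← map_mul, inv_mul_cancel, map_one]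
    show ρ h⁻¹ * (ρ h * f * ρ h⁻¹) * ρ h = f
    calc ρ h⁻¹ * (ρ h * f * ρ h⁻¹) * ρ h = (ρ h⁻¹ * ρ h) * f * (ρ h⁻¹ * ρ h) := by
          simp only [mul_assoc]
      _ = f := by rw [h1, one_mul, mul_one]
  right_inv f := by
    have h1 : ρ h * ρ h⁻¹ = 1 := by rw [← map_mul, mul_inv_cancel, map_one]
    show ρ h * (ρ h⁻¹ * f * ρ h) * ρ h⁻¹ = f
    calc ρ h * (ρ h⁻¹ * f * ρ h) * ρ h⁻¹ = (ρ h * ρ h⁻¹) * f * (ρ h * ρ h⁻¹) := by
          simp only [mul_assoc]
      _ = f := by rw [h1, one_mul, mul_one]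
  map_mul' f g := by
    have h1 : ρ h⁻¹ * ρ h = 1 := by rw [← map_mul, inv_mul_cancel, map_one]
    show ρ h * (f * g) * ρ h⁻¹ = (ρ h * f * ρ h⁻¹) * (ρ h * g * ρ h⁻¹)
    calc ρ h * (f * g) * ρ h⁻¹ = ρ h * f * 1 * (g * ρ h⁻¹) := by simp only [mul_assoc, one_mul]
      _ = ρ h * f * (ρ h⁻¹ * ρ h) * (g * ρ h⁻¹) := by rw [h1]
      _ = _ := by simp only [mul_assoc]
  map_add' f g := by
    show ρ h * (f + g) * ρ h⁻¹ = (ρ h * f * ρ h⁻¹) + (ρ h * g * ρ h⁻¹)
    rw [mul_add, add_mul]

theorem conjR_apply {H : Type} [Group H] {q : ℕ} {V : Type} [AddCommGroup V]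
    [Module (ZMod q) V] (ρ : Representation (ZMod q) H V) (h : H) (f : Module.End (ZMod q) V) :
    conjR ρ h f = ρ h * f * ρ h⁻¹ := rfl

theorem conjR_conjR {H : Type} [Group H] {q : ℕ} {V : Type} [AddCommGroup V]
    [Module (ZMod q) V] (ρ : Representation (ZMod q) H V) (g h : H) (f : Module.End (ZMod q) V) :
    conjR ρ g (conjR ρ h f) = conjR ρ (g * h) f := by
  rw [conjR_apply, conjR_apply, conjR_apply, mul_inv_rev, map_mul, map_mul]
  simp only [mul_assoc]

theorem conjR_one {H : Type} [Group H] {q : ℕ} {V : Type} [AddCommGroup V]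
    [Module (ZMod q) V] (ρ : Representation (ZMod q) H V) (f : Module.End (ZMod q) V) :
    conjR ρ 1 f = f := by
  rw [conjR_apply, inv_one, map_one, one_mul, mul_one]

theorem dec_exists {H : Type} [Group H] {q : ℕ} [Fact q.Prime] {V : Type} [AddCommGroup V]
    [Module (ZMod q) V] [Finite V] (ρ : Representation (ZMod q) H V) :
    ∃ E : Finset (Module.End (ZMod q) V), Dec ρ E := by
  classical
  haveI : Finite (Module.End (ZMod q) V) :=
    Finite.of_injective (fun f : Module.End (ZMod q) V => (f : V → V)) DFunLike.coe_injective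
  let Nice : Set (Set (Module.End (ZMod q) V)) :=
    {S | (∀ s ∈ S, s * s = s) ∧ (∀ s ∈ S, ∀ t ∈ S, s * t = t * s) ∧
      (∀ h : H, ∀ s ∈ S, conjR ρ h s ∈ S)}
  have hne : Nice.Nonempty := ⟨∅, by simp [Nice]⟩
  obtain ⟨S, hS⟩ := (Set.toFinite Nice).exists_maximal hne
  obtain ⟨⟨hS1, hS2, hS3⟩, hSmax⟩ := hS
  let B : Subring (Module.End (ZMod q) V) := Subring.closure S
  have hSB : S ⊆ B := Subring.subset_closure
  have hBcomm : ∀ x ∈ B, ∀ y ∈ B, x * y = y * x := by
    letI := Subring.closureCommRingOfComm hS2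
    intro x hx y hy
    have := mul_comm (⟨x, hx⟩ : Subring.closure S) ⟨y, hy⟩
    exact congrArg Subtype.val this
  have hBconj : ∀ h : H, ∀ x ∈ B, conjR ρ h x ∈ B := by
    intro h
    have : B ≤ B.comap (conjR ρ h : Module.End (ZMod q) V →+* Module.End (ZMod q) V) := by
      apply Subring.closure_le.2
      intro s hs
      exact hSB (hS3 h s hs)
    exact fun x hx => this hx
  obtain ⟨E, hE, hsum, horth⟩ := prim_idem_sub B hBcomm
  refine ⟨E, ⟨fun e he => ((hE e).1 he).2.1, fun e he => ((hE e).1 he).2.2.1, horth, hsum, ?_, ?_⟩⟩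
  · intro h e he
    obtain ⟨g0, g1, g2, g3⟩ := (hE e).1 he
    have hgoal : conjR ρ h e ∈ E := by
      rw [hE]
      refine ⟨hBconj h e g0, ?_, ?_, ?_⟩
      · rw [← map_mul, g1]
      · intro h0
        apply g2
        have := (conjR ρ h).injective (h0.trans (map_zero _).symm)
        exact this
      · intro f hf hff
        have hf' : conjR ρ h (conjR ρ h⁻¹ f) = f := by
          rw [conjR_conjR, mul_inv_cancel, conjR_one]
        have := g3 (conjR ρ h⁻¹ f) (hBconj _ _ hf) (by rw [← map_mul, hff])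
        rcases this with h1 | h1
        · left
          have h2 := congrArg (conjR ρ h) h1
          rw [map_mul, hf', map_zero] at h2
          exact h2
        · right
          have h2 := congrArg (conjR ρ h) h1
          rw [map_mul, hf'] at h2
          exact h2
    exact hgoal
  · intro f hff hfe hfc e he
    have hfS : ∀ s ∈ S, f * s = s * f := by
      intro s hs
      have h1 : s = ∑ e ∈ E, s * e := by rw [← Finset.mul_sum, hsum, mul_one]
      rw [h1, Finset.mul_sum, Finset.sum_mul]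
      apply Finset.sum_congr rfl
      intro e he
      rcases ((hE e).1 he).2.2.2 s (hSB hs) (hS1 s hs) with h2 | h2
      · rw [h2, mul_zero, zero_mul]
      · rw [h2]; exact hfe e he
    have hfS' : ∀ h : H, ∀ s ∈ S, conjR ρ h f * s = s * conjR ρ h f := by
      intro h s hs
      have h1 : conjR ρ h (conjR ρ h⁻¹ s) = s := by
        rw [conjR_conjR, mul_inv_cancel, conjR_one]
      have h2 := congrArg (conjR ρ h) (hfS _ (hS3 h⁻¹ s hs))
      rw [map_mul, map_mul, h1] at h2
      exact h2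
    have hS' : (S ∪ Set.range (fun h : H => conjR ρ h f)) ∈ Nice := by
      refine ⟨?_, ?_, ?_⟩
      · rintro s (hs | ⟨h, rfl⟩)
        · exact hS1 s hs
        · show conjR ρ h f * conjR ρ h f = conjR ρ h f
          rw [← map_mul, hff]
      · rintro s (hs | ⟨g, rfl⟩) t (ht | ⟨h, rfl⟩)
        · exact hS2 s hs t ht
        · exact (hfS' h s hs).symm
        · exact hfS' g t ht
        · exact hfc g h
      · rintro h s (hs | ⟨g, rfl⟩)
        · exact Or.inl (hS3 h s hs)
        · right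
          exact ⟨h * g, (conjR_conjR ρ h g f).symm⟩
    have hle := hSmax hS' Set.subset_union_left
    have hfS2 : f ∈ S := hle (Or.inr ⟨1, conjR_one ρ f⟩)
    exact ((hE e).1 he).2.2.2 f (hSB hfS2) hff

end Pool.Agent.Helper218.NV
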