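import Pool.Agent.Helper218.NV.Defs
import Pool.Agent.Helper218.NV.P_ls_fpf



namespace Pool.Agent.Helper218.NV
open scoped BigOperators commutatorElement


theorem sa_lemma_abs {R M : Type} [CommRing R] [AddCommGroup M] [Module R M] (T : M → M)
    (hTadd : ∀ x y, T (x + y) = T x + T y) (hTsm : ∀ (r : R) x, T (r • x) = r • T x)
    (hr : ∀ r : R, r ≠ 0 → ∀ x : M, r • x = 0 → x = 0)
    (hzd : ∀ r s : R, r * s = 0 → r = 0 ∨ s = 0) (b z : R) (hz : z ≠ 1) (p : ℕ) (hp : Odd p)
    (hzp : z ^ p = 1) (hb : b ≠ 0) (e1 e2 d f2 : M) (he1 : e1 ≠ 0) (he2 : e2 ≠ 0)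
    (hd : T d = d) (hf : T f2 = z • f2) (h1 : T e1 = b • e1) (h2 : T e2 = (b * z) • e2)
    (heq : e1 + e2 = d + f2) : e1 = d := by
  have hz1 : (1 - z) ≠ 0 := fun h => hz (sub_eq_zero.mp h).symm
  have k1 : b • e1 + (b * z) • e2 = d + z • f2 := by
    have := congrArg T heq
    rwa [hTadd, hTadd, h1, h2, hd, hf] at this
  have k2 : (b - z) • e1 + (b * z - z) • e2 = (1 - z) • d := by
    linear_combination (norm := module) k1 - z • heq
  have k3 : (b - z) • (b • e1) + (b * z - z) • ((b * z) • e2) = (1 - z) • d := by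
    have := congrArg T k2
    rwa [hTadd, hTsm, hTsm, hTsm, h1, h2, hd] at this
  have k4 : ((b - z) * (b - 1)) • e1 + ((b * z - z) * (b * z - 1)) • e2 = 0 := by
    linear_combination (norm := module) k3 - k2
  have k5 : ((b - z) * (b - 1)) • (b • e1) + ((b * z - z) * (b * z - 1)) • ((b * z) • e2) = 0 := by
    have h0 : T 0 = 0 := by
      have := hTsm 0 0
      rwa [zero_smul, zero_smul] at this
    have := congrArg T k4
    rwa [hTadd, hTsm, hTsm, h1, h2, h0] at this
  have k6 : ((b - z) * ((b - 1) * (b * (1 - z)))) • e1 = 0 := by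
    linear_combination (norm := module) k5 - (b * z) • k4
  have k7 : (b - z) * ((b - 1) * (b * (1 - z))) = 0 := by
    by_contra hne
    exact he1 (hr _ hne _ k6)
  rcases hzd _ _ k7 with h | h
  · -- b = z
    have hbz : b = z := sub_eq_zero.mp h
    rw [hbz] at k4
    have k8 : ((z * z - z) * (z * z - 1)) • e2 = 0 := by
      linear_combination (norm := module) k4
    have k9 : (z * z - z) * (z * z - 1) = 0 := by
      by_contra hne
      exact he2 (hr _ hne _ k8)
    rcases hzd _ _ k9 with h' | h'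
    · have h3 : z * (z - 1) = 0 := by linear_combination h'
      rcases hzd _ _ h3 with h4 | h4
      · exact absurd (hbz.trans h4) hb
      · exact absurd (sub_eq_zero.mp h4) hz
    · exfalso
      obtain ⟨m, rfl⟩ := hp
      have h3 : z ^ 2 = 1 := by linear_combination h'
      rw [pow_succ, pow_mul, h3, one_pow, one_mul] at hzp
      exact hz hzp
  · rcases hzd _ _ h with h | h
    · -- b = 1
      have hb1 : b = 1 := sub_eq_zero.mp h
      rw [hb1] at k2
      have k8 : (1 - z) • (e1 - d) = 0 := by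
        linear_combination (norm := module) k2
      exact sub_eq_zero.mp (hr _ hz1 _ k8)
    · rcases hzd _ _ h with h | h
      · exact absurd h hb
      · exact absurd h hz1

theorem sa_lemma {Γ D : Type} [Group Γ] [Finite Γ] {q : ℕ} [Fact q.Prime] (p : ℕ)
    [Fact p.Prime] (hp2 : p ≠ 2) [AddCommGroup D] [Module (ZMod q) D] [Finite D] [Nontrivial D]
    (τ : Representation (ZMod q) Γ D) (N A X : Subgroup Γ) (g : Γ) (h : LS τ N p A X g) :
    ∃ d : D, d ≠ 0 ∧ ∀ x ∈ X, τ x d = d → τ x = 1 := by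
  classical
  obtain ⟨d, hd0, hmin⟩ := Set.exists_min_image {d : D | d ≠ 0}
    (fun d => {x : Γ | x ∈ X ∧ τ x d = d}.ncard) (Set.toFinite _) (exists_ne (0 : D))
  refine ⟨d, hd0, ?_⟩
  intro s hsX hsd
  by_contra hs1
  have hsA : s ∉ A := fun hsA => hs1 (ls_fpf τ N A X g h s hsA d hd0 hsd)
  obtain ⟨u0, hu0X, hu0⟩ : ∃ u0 ∈ X, τ s * τ u0 ≠ τ u0 * τ s := by
    by_contra hcon
    push Not at hcon
    exact hsA (h.cen s hsX hcon)
  -- the field
  have hcomm : ∀ a ∈ τ '' (A : Set Γ), ∀ b ∈ τ '' (A : Set Γ), a * b = b * a := by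
    rintro _ ⟨a, ha, rfl⟩ _ ⟨b, hb, rfl⟩
    exact h.comm a ha b hb
  have hKX : ∀ f ∈ Algebra.adjoin (ZMod q) (τ '' (A : Set Γ)), ∀ x ∈ X, τ x * f = f * τ x := by
    intro f hf x hx
    have hle : Algebra.adjoin (ZMod q) (τ '' (A : Set Γ)) ≤
        Subalgebra.centralizer (ZMod q) {τ x} := by
      apply Algebra.adjoin_le
      rintro _ ⟨a, ha, rfl⟩
      rw [SetLike.mem_coe, Subalgebra.mem_centralizer_iff]
      intro y hy
      rw [Set.mem_singleton_iff.mp hy]
      exact h.XA x hx a ha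
    exact (Subalgebra.mem_centralizer_iff (ZMod q)).mp (hle hf) _ (Set.mem_singleton _)
  have hAK : ∀ a ∈ A, τ a ∈ Algebra.adjoin (ZMod q) (τ '' (A : Set Γ)) :=
    fun a ha => Algebra.subset_adjoin ⟨a, ha, rfl⟩
  have hcA : ∀ w ∈ X, ⁅s, w⁆ ∈ A := fun w hw => h.der s (h.XN hsX) w (h.XN hw)
  have hsw : ∀ w : Γ, τ s * τ w = τ ⁅s, w⁆ * (τ w * τ s) := by
    intro w
    rw [← map_mul, ← map_mul, ← map_mul, commutatorElement_def]
    congr 1
    group
  have hsw' : ∀ (w : Γ) (x : D), τ s (τ w x) = τ ⁅s, w⁆ (τ w (τ s x)) := by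
    intro w x
    have := congrArg (fun L : Module.End (ZMod q) D => L x) (hsw w)
    exact this
  have hinjτ : ∀ (w : Γ) (x : D), τ w x = 0 → x = 0 := by
    intro w x hx
    have h3 : τ w⁻¹ (τ w x) = x := by
      rw [← Module.End.mul_apply, ← map_mul, inv_mul_cancel, map_one, Module.End.one_apply]
    rw [← h3, hx, map_zero]
  let instK : CommRing (Algebra.adjoin (ZMod q) (τ '' (A : Set Γ))) :=
    Algebra.adjoinCommRingOfComm (ZMod q) hcomm
  have hr : ∀ r : Algebra.adjoin (ZMod q) (τ '' (A : Set Γ)), r ≠ 0 → ∀ x : D, r • x = 0 →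
      x = 0 := by
    intro r hr0 x hx
    have hr0' : (r : Module.End (ZMod q) D) ≠ 0 := fun h' => hr0 (Subtype.ext h')
    obtain ⟨f', -, -, hf'⟩ := h.field r.1 r.2 hr0'
    have hx' : (r : Module.End (ZMod q) D) x = 0 := hx
    have : (f' * (r : Module.End (ZMod q) D)) x = x := by rw [hf', Module.End.one_apply]
    rw [← this, Module.End.mul_apply, hx', map_zero]
  have hzd : ∀ r s : Algebra.adjoin (ZMod q) (τ '' (A : Set Γ)), r * s = 0 →
      r = 0 ∨ s = 0 := by
    intro r s hrs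
    by_cases hr0 : r = 0
    · exact Or.inl hr0
    · right
      have hr0' : (r : Module.End (ZMod q) D) ≠ 0 := fun h' => hr0 (Subtype.ext h')
      obtain ⟨f', -, -, hf'⟩ := h.field r.1 r.2 hr0'
      apply Subtype.ext
      have h4 : (r : Module.End (ZMod q) D) * (s : Module.End (ZMod q) D) = 0 :=
        congrArg Subtype.val hrs
      calc (s : Module.End (ZMod q) D) = (f' * (r : Module.End (ZMod q) D)) * s := by
            rw [hf', one_mul]
        _ = 0 := by rw [mul_assoc, h4, mul_zero]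
  set z : Algebra.adjoin (ZMod q) (τ '' (A : Set Γ)) := ⟨τ ⁅s, u0⁆, hAK _ (hcA u0 hu0X)⟩ with hzdef
  have hz1 : z ≠ 1 := by
    intro hz1
    apply hu0
    have h5 : τ ⁅s, u0⁆ = 1 := congrArg Subtype.val hz1
    rw [hsw u0, h5, one_mul]
  have hz1' : (1 - z) ≠ 0 := fun h' => hz1 (sub_eq_zero.mp h').symm
  have hzp : z ^ p = 1 := by
    apply Subtype.ext
    have h5 : τ (⁅s, u0⁆ ^ p) = 1 := h.pow s hsX u0 hu0X
    rw [map_pow] at h5
    exact h5
  have hodd : Odd p := (Fact.out : p.Prime).odd_of_ne_two hp2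
  have hTu : τ s (τ u0 d) = z • (τ u0 d) := by
    rw [hsw' u0 d, hsd]
    rfl
  have hu0d : τ u0 d ≠ 0 := fun h' => hd0 (hinjτ u0 d h')
  have hzu : z • (τ u0 d) ≠ τ u0 d := by
    intro h'
    have : (1 - z) • (τ u0 d) = 0 := by rw [sub_smul, one_smul, h', sub_self]
    exact hu0d (hr _ hz1' _ this)
  have hd'0 : d + τ u0 d ≠ 0 := by
    intro h'
    have h6 := congrArg (τ s) h'
    rw [map_add, map_zero, hsd, hTu] at h6
    apply hzu
    have h7 : d + z • (τ u0 d) = d + τ u0 d := by rw [h6, h']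
    exact add_left_cancel h7
  have hle := hmin (d + τ u0 d) hd'0
  have hlt : {x : Γ | x ∈ X ∧ τ x (d + τ u0 d) = d + τ u0 d}.ncard <
      {x : Γ | x ∈ X ∧ τ x d = d}.ncard := by
    apply Set.ncard_lt_ncard _ (Set.toFinite _)
    rw [Set.ssubset_iff_exists]
    constructor
    · rintro v ⟨hvX, hv⟩
      refine ⟨hvX, ?_⟩
      rw [map_add] at hv
      set b : Algebra.adjoin (ZMod q) (τ '' (A : Set Γ)) := ⟨τ ⁅s, v⁆, hAK _ (hcA v hvX)⟩ with hbdef
      have hb0 : b ≠ 0 := by
        intro h'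
        have h8 : τ ⁅s, v⁆ = 0 := congrArg Subtype.val h'
        have h9 : τ ⁅s, v⁆ d = 0 := by rw [h8]; rfl
        exact hd0 (hinjτ _ _ h9)
      refine sa_lemma_abs (R := Algebra.adjoin (ZMod q) (τ '' (A : Set Γ))) (τ s)
        (fun x y => map_add _ _ _) ?_ hr hzd b z hz1 p hodd hzp hb0 (τ v d) (τ v (τ u0 d)) d
        (τ u0 d) ?_ ?_ hsd hTu ?_ ?_ hv
      · intro r x
        have := congrArg (fun L : Module.End (ZMod q) D => L x) (hKX r.1 r.2 s hsX)
        exact this
      · exact fun h' => hd0 (hinjτ v d h')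
      · exact fun h' => hu0d (hinjτ v _ h')
      · rw [hsw' v d, hsd]
        rfl
      · rw [hsw' v, hTu, mul_smul]
        have h10 := congrArg (fun L : Module.End (ZMod q) D => L (τ u0 d))
          (hKX z.1 z.2 v hvX)
        have h11 : τ v (z • (τ u0 d)) = z • (τ v (τ u0 d)) := h10
        rw [h11]
        rfl
    · refine ⟨s, ⟨hsX, hsd⟩, ?_⟩
      rintro ⟨-, h'⟩
      rw [map_add, hsd, hTu] at h'
      exact hzu (add_left_cancel h')
  omega

end Pool.Agent.Helper218.NV
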