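import Pool.Agent.Helper218.NV.Defs



namespace Pool.Agent.Helper218.NV
open scoped BigOperators commutatorElement


theorem nt_arith_aux (p q n : ℕ) [hp : Fact p.Prime] (hp2 : p ≠ 2) (hq : 2 ≤ q)
    (hdvd : p ∣ q ^ p - 1) (h : (q - 1) * p ^ n = q ^ p - 1) : False := by
  have hodd : Odd p := hp.out.odd_of_ne_two hp2
  have hqp : 1 ≤ q ^ p := Nat.one_le_pow _ _ (by omega)
  have h1 : p ∣ q - 1 := by
    have h2 : ((q ^ p - 1 : ℕ) : ZMod p) = 0 := (ZMod.natCast_eq_zero_iff _ _).2 hdvd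
    rw [Nat.cast_sub hqp, Nat.cast_pow, ZMod.pow_card] at h2
    rw [← ZMod.natCast_eq_zero_iff, Nat.cast_sub (by omega)]
    exact h2
  have hnq : ¬ p ∣ q := by
    intro hq'
    have h3 := (Nat.dvd_sub_iff_right (by omega) hq').1 h1
    exact hp.out.one_lt.ne' (Nat.dvd_one.1 h3)
  have hlte := padicValNat.pow_sub_pow (x := q) (y := 1) (p := p) hodd (by omega) h1 hnq
    (n := p) hp.out.ne_zero
  rw [one_pow, ← h, padicValNat.mul (by omega) (pow_ne_zero _ hp.out.ne_zero),
    padicValNat.prime_pow, padicValNat_self] at hlte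
  have hn : n = 1 := by omega
  subst hn
  rw [pow_one] at h
  have hgs : (∑ i ∈ Finset.range p, (q : ℤ) ^ i) * ((q : ℤ) - 1) = (q : ℤ) ^ p - 1 :=
    geom_sum_mul (q : ℤ) p
  have hz : ((q : ℤ) - 1) * p = (q : ℤ) ^ p - 1 := by
    have := congrArg (Nat.cast : ℕ → ℤ) h
    rw [Nat.cast_mul, Nat.cast_sub (by omega), Nat.cast_sub hqp] at this
    push_cast at this
    exact this
  have hsum : ∑ i ∈ Finset.range p, (q : ℤ) ^ i = p := by
    have hne : (q : ℤ) - 1 ≠ 0 := by omega
    apply mul_right_cancel₀ hne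
    rw [hgs, ← hz]
    ring
  have hlt : ∑ i ∈ Finset.range p, (1 : ℤ) < ∑ i ∈ Finset.range p, (q : ℤ) ^ i := by
    apply Finset.sum_lt_sum
    · intro i _
      exact one_le_pow₀ (by omega)
    · exact ⟨1, Finset.mem_range.2 hp.out.one_lt, by rw [pow_one]; omega⟩
  rw [hsum] at hlt
  simp at hlt

theorem nt_lemma {K : Type} [Field K] [Finite K] (p : ℕ) [Fact p.Prime] (hp2 : p ≠ 2)
    (σ : RingAut K) (hσ : σ ≠ 1) (hσp : σ ^ p = 1) (hpK : ∃ z : K, z ≠ 1 ∧ z ^ p = 1) :
    ∃ κ : K, κ ≠ 0 ∧ ∀ r : ℕ, (κ / σ κ) ^ (p ^ r) ≠ 1 := by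
  classical
  have hp : p.Prime := Fact.out
  by_contra hcon
  push Not at hcon
  have hord : orderOf σ = p := orderOf_eq_prime hσp hσ
  have hcardG : Nat.card (Subgroup.zpowers σ) = p := by rw [Nat.card_zpowers, hord]
  have hfinG : Finite (Subgroup.zpowers σ) := Nat.finite_of_card_ne_zero (by
    rw [hcardG]; exact hp.ne_zero)
  have := Fintype.ofFinite (Subgroup.zpowers σ)
  have hrank := FixedPoints.finrank_eq_card (Subgroup.zpowers σ) K
  rw [← Nat.card_eq_fintype_card, hcardG] at hrank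
  set K0 := FixedPoints.subfield (Subgroup.zpowers σ) K with hK0
  have hcardK : Nat.card K = Nat.card K0 ^ p := by
    rw [Module.natCard_eq_pow_finrank (K := K0) (V := K), hrank]
  have hK0mem : ∀ x : K, x ∈ K0 ↔ σ x = x := by
    intro x
    constructor
    · intro hx
      exact hx ⟨σ, Subgroup.mem_zpowers σ⟩
    · intro hx g
      obtain ⟨g, hg⟩ := g
      obtain ⟨k, rfl⟩ := Subgroup.mem_zpowers_iff.1 hg
      have hfix : σ ∈ MulAction.stabilizer (RingAut K) x := hx
      exact (MulAction.stabilizer (RingAut K) x).zpow_mem hfix k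
  have hq2 : 2 ≤ Nat.card K0 := by
    have : 1 < Nat.card K0 := Finite.one_lt_card
    omega
  let φ : Kˣ →* Kˣ := (MonoidHom.id Kˣ) / (Units.map (σ : K →* K))
  have hφ : ∀ u : Kˣ, ((φ u : Kˣ) : K) = (u : K) / σ (u : K) := by
    intro u
    simp [φ, MonoidHom.div_apply]
  have hker : Nat.card φ.ker = Nat.card K0 - 1 := by
    rw [← Nat.card_units]
    apply Nat.card_congr
    have hmem : ∀ u : Kˣ, u ∈ φ.ker ↔ σ (u : K) = u := by
      intro u
      rw [MonoidHom.mem_ker, ← Units.val_inj, hφ, Units.val_one]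
      have hne : σ (u : K) ≠ 0 := by
        simp
      rw [div_eq_one_iff_eq hne]
      exact eq_comm
    refine Equiv.ofBijective (fun u => Units.mk0 (⟨((u : Kˣ) : K), (hK0mem _).2
      ((hmem _).1 u.2)⟩ : K0) (by
        intro h
        exact (u : Kˣ).ne_zero (congrArg Subtype.val h))) ⟨?_, ?_⟩
    · intro u v huv
      have h1 := congrArg (fun w : K0ˣ => ((w : K0) : K)) huv
      apply Subtype.ext
      apply Units.ext
      exact h1
    · intro w
      have hw : ((w : K0) : K) ≠ 0 := fun h => w.ne_zero (Subtype.ext h)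
      refine ⟨⟨Units.mk0 ((w : K0) : K) hw, (hmem _).2 ((hK0mem _).1 (w : K0).2)⟩, ?_⟩
      apply Units.ext
      apply Subtype.ext
      rfl
  have hpg : IsPGroup p φ.range := by
    rintro ⟨_, u, rfl⟩
    obtain ⟨r, hr⟩ := hcon (u : K) u.ne_zero
    refine ⟨r, ?_⟩
    apply Subtype.ext
    apply Units.ext
    rw [Subgroup.coe_pow, Units.val_pow_eq_pow_val]
    change ((φ u : Kˣ) : K) ^ p ^ r = 1
    rw [hφ]
    exact hr
  obtain ⟨n, hn⟩ := IsPGroup.iff_card.1 hpg
  have hprod : Nat.card φ.ker * Nat.card φ.range = Nat.card Kˣ := by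
    rw [← Subgroup.index_ker]
    exact Subgroup.card_mul_index _
  rw [hker, hn, Nat.card_units, hcardK] at hprod
  obtain ⟨z, hz1, hzp⟩ := hpK
  have hz0 : z ≠ 0 := by
    rintro rfl
    rw [zero_pow hp.ne_zero] at hzp
    exact zero_ne_one hzp
  have hdvd : p ∣ Nat.card K0 ^ p - 1 := by
    rw [← hcardK, ← Nat.card_units]
    have ho : orderOf (Units.mk0 z hz0) = p := by
      apply orderOf_eq_prime
      · apply Units.ext
        simpa using hzp
      · intro h
        exact hz1 (congrArg Units.val h)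
    rw [← ho]
    exact orderOf_dvd_natCard _
  exact nt_arith_aux p (Nat.card K0) n hp2 hq2 hdvd hprod

end Pool.Agent.Helper218.NV
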