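import Pool.Agent.Helper218.NV.Defs
import Pool.Agent.Helper218.NV.P_nt_lemma



namespace Pool.Agent.Helper218.NV
open scoped BigOperators commutatorElement


theorem sb_nt_ring {K : Type} [Ring K] [Finite K] (hK : IsField K) (p : ℕ) [Fact p.Prime]
    (hp2 : p ≠ 2) (σ : K ≃+* K) (hσ : ∃ x, σ x ≠ x) (hσp : ∀ x, σ^[p] x = x)
    (hpK : ∃ z : K, z ≠ 1 ∧ z ^ p = 1) :
    ∃ κ : K, κ ≠ 0 ∧ ∀ μ : K, σ κ * μ = κ → ∀ r : ℕ, μ ^ (p ^ r) ≠ 1 := by
  letI fld : Field K := hK.toField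
  have hpow : ∀ (k : ℕ) (x : K), ((σ : RingAut K) ^ k) x = σ^[k] x := by
    intro k
    induction k with
    | zero => intro x; rfl
    | succ k ih =>
      intro x
      rw [pow_succ, RingAut.mul_apply, ih, Function.iterate_succ_apply]
  have h1 : (σ : RingAut K) ≠ 1 := by
    intro h
    obtain ⟨x, hx⟩ := hσ
    apply hx
    have h2 : (σ : RingAut K) x = (1 : RingAut K) x := by rw [h]
    exact h2
  have h2 : (σ : RingAut K) ^ p = 1 := by
    apply RingEquiv.ext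
    intro x
    rw [hpow p x, hσp x]
    rfl
  obtain ⟨κ, hκ, hr⟩ := nt_lemma p hp2 (σ : RingAut K) h1 h2 hpK
  refine ⟨κ, hκ, ?_⟩
  intro μ hμ r hcon
  apply hr r
  have hσκ : σ κ ≠ 0 := by
    intro h0
    apply hκ
    rw [← hμ, h0, zero_mul]
  have h3 : κ / σ κ = μ := by
    rw [div_eq_iff hσκ]
    exact hμ.symm.trans (mul_comm (σ κ) μ)
  rw [h3]
  exact hcon

/-- conjugation preserves the algebra generated by the image of a normal subgroup -/
theorem sb_conj {Γ D : Type} [Group Γ] {q : ℕ} [AddCommGroup D] [Module (ZMod q) D]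
    (τ : Representation (ZMod q) Γ D) (A : Subgroup Γ) (hA : A.Normal) (s : Γ)
    (κ : Module.End (ZMod q) D) (hκ : κ ∈ Algebra.adjoin (ZMod q) (τ '' (A : Set Γ))) :
    τ s * κ * τ s⁻¹ ∈ Algebra.adjoin (ZMod q) (τ '' (A : Set Γ)) := by
  have hs : τ s * τ s⁻¹ = 1 := by rw [← map_mul, mul_inv_cancel, map_one]
  have hs' : τ s⁻¹ * τ s = 1 := by rw [← map_mul, inv_mul_cancel, map_one]
  induction hκ using Algebra.adjoin_induction with
  | mem x hx =>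
    obtain ⟨a, ha, rfl⟩ := hx
    apply Algebra.subset_adjoin
    refine ⟨s * a * s⁻¹, hA.conj_mem a ha s, ?_⟩
    rw [map_mul, map_mul]
  | algebraMap r =>
    rw [← Algebra.commutes r (τ s), mul_assoc, hs, mul_one]
    exact Subalgebra.algebraMap_mem _ r
  | add x y _ _ hx hy =>
    rw [mul_add, add_mul]
    exact Subalgebra.add_mem _ hx hy
  | mul x y _ _ hx hy =>
    have : τ s * (x * y) * τ s⁻¹ = (τ s * x * τ s⁻¹) * (τ s * y * τ s⁻¹) := by
      calc τ s * (x * y) * τ s⁻¹ = τ s * x * 1 * y * τ s⁻¹ := by simp only [mul_assoc, one_mul]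
        _ = τ s * x * (τ s⁻¹ * τ s) * y * τ s⁻¹ := by rw [hs']
        _ = (τ s * x * τ s⁻¹) * (τ s * y * τ s⁻¹) := by simp only [mul_assoc]
    rw [this]
    exact Subalgebra.mul_mem _ hx hy

theorem sb_comm {Γ D : Type} [Group Γ] {q : ℕ} [AddCommGroup D] [Module (ZMod q) D]
    (τ : Representation (ZMod q) Γ D) (A : Subgroup Γ) (y : Module.End (ZMod q) D)
    (hy : ∀ a ∈ A, y * τ a = τ a * y)
    (κ : Module.End (ZMod q) D) (hκ : κ ∈ Algebra.adjoin (ZMod q) (τ '' (A : Set Γ))) :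
    y * κ = κ * y := by
  induction hκ using Algebra.adjoin_induction with
  | mem x hx =>
    obtain ⟨a, ha, rfl⟩ := hx
    exact hy a ha
  | algebraMap r => exact (Algebra.commutes r y).symm
  | add x y _ _ hx hy => rw [mul_add, add_mul, hx, hy]
  | mul x z _ _ hx hz => rw [← mul_assoc, hx, mul_assoc, hz, mul_assoc]

theorem sb_fix_pow {Γ D : Type} [Group Γ] {q : ℕ} [AddCommGroup D] [Module (ZMod q) D]
    (τ : Representation (ZMod q) Γ D) (n : Γ) (d : D) (h : τ n d = d) (k : ℕ) :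
    τ (n ^ k) d = d := by
  induction k with
  | zero => rw [pow_zero, map_one]; rfl
  | succ k ih =>
    rw [pow_succ, map_mul, Module.End.mul_apply, h, ih]

theorem sb_ppow {Γ : Type} [Group Γ] (p : ℕ) (N X : Subgroup Γ) (hN : IsPGroup p N) (n : Γ)
    (hn : n ∈ N) (hX : n ∉ X) : ∃ b : ℕ, n ^ (p ^ b) ∉ X ∧ n ^ (p ^ (b + 1)) ∈ X := by
  classical
  obtain ⟨k, hk⟩ := hN ⟨n, hn⟩
  have hk' : n ^ (p ^ k) = 1 := by
    have := congrArg Subtype.val hk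
    simpa using this
  have hex : ∃ k, n ^ (p ^ k) ∈ X := ⟨k, by rw [hk']; exact X.one_mem⟩
  have h1 := Nat.find_spec hex
  have h0 : Nat.find hex ≠ 0 := by
    intro h0
    rw [h0, pow_zero, pow_one] at h1
    exact hX h1
  obtain ⟨b, hb⟩ := Nat.exists_eq_succ_of_ne_zero h0
  refine ⟨b, ?_, ?_⟩
  · exact Nat.find_min hex (by omega)
  · rw [hb] at h1
    exact h1

theorem sb_lemma {Γ D : Type} [Group Γ] [Finite Γ] {q : ℕ} [Fact q.Prime] (p : ℕ)
    [Fact p.Prime] (hp2 : p ≠ 2) (hpq : p ≠ q) [AddCommGroup D] [Module (ZMod q) D] [Finite D]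
    [Nontrivial D] (τ : Representation (ZMod q) Γ D) (N A X : Subgroup Γ) (g : Γ)
    (hNn : N.Normal) (hN : IsPGroup p N) (h : LS τ N p A X g)
    (hd : ∃ d : D, d ≠ 0 ∧ ∀ x ∈ X, τ x d = d → τ x = 1) :
    ∃ d : D, d ≠ 0 ∧ ∀ n ∈ N, τ n d = d → τ n = 1 := by
  obtain ⟨d0, hd0, hd0X⟩ := hd
  have hp : p.Prime := Fact.out
  by_cases hNX : N ≤ X
  · exact ⟨d0, hd0, fun n hn => hd0X n (hNX hn)⟩
  by_contra hcon
  push Not at hcon
  haveI := h.Xn
  -- the field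
  obtain ⟨K, hKd⟩ : ∃ K, K = Algebra.adjoin (ZMod q) (τ '' (A : Set Γ)) := ⟨_, rfl⟩
  have hKcomm : ∀ x ∈ K, ∀ y ∈ K, x * y = y * x := by
    intro x hx y hy
    rw [hKd] at hx hy
    exact sb_comm τ A x (fun a ha => (sb_comm τ A (τ a) (fun b hb => h.comm a ha b hb) x hx).symm)
      y hy
  have hXK : ∀ x ∈ X, ∀ κ ∈ K, τ x * κ = κ * τ x := by
    intro x hx κ hκ
    rw [hKd] at hκ
    exact sb_comm τ A (τ x) (fun a ha => h.XA x hx a ha) κ hκ
  have hKinv : ∀ κ ∈ K, κ ≠ 0 → ∃ κ' ∈ K, κ * κ' = 1 ∧ κ' * κ = 1 := by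
    intro κ hκ h0
    rw [hKd] at hκ ⊢
    exact h.field κ hκ h0
  have hKconj : ∀ (s : Γ), ∀ κ ∈ K, τ s * κ * τ s⁻¹ ∈ K := by
    intro s κ hκ
    rw [hKd] at hκ ⊢
    exact sb_conj τ A h.An s κ hκ
  have hAK : ∀ a ∈ A, τ a ∈ K := by
    intro a ha
    rw [hKd]
    exact Algebra.subset_adjoin ⟨a, ha, rfl⟩
  have hact : ∀ κ ∈ K, κ ≠ 0 → ∀ d, d ≠ 0 → κ d ≠ 0 := by
    intro κ hκ h0 d hd hcon2
    obtain ⟨κ', _, _, h2⟩ := hKinv κ hκ h0
    apply hd
    have h3 : (κ' * κ) d = d := by rw [h2]; rfl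
    rw [← h3, Module.End.mul_apply, hcon2, map_zero]
  -- quotient
  obtain ⟨π, hπ⟩ : ∃ π : Γ →* Γ ⧸ X, π = QuotientGroup.mk' X := ⟨_, rfl⟩
  have hπX : ∀ x, π x = 1 ↔ x ∈ X := by
    intro x
    rw [hπ, QuotientGroup.mk'_apply, QuotientGroup.eq_one_iff]
  -- g not in X
  have hgX : g ∉ X := by
    intro hg
    apply hNX
    intro n hn
    obtain ⟨j, x, hx, rfl⟩ := h.cyc n hn
    exact X.mul_mem (X.pow_mem hg j) hx
  obtain ⟨s, hs1, hs2⟩ := sb_ppow p N X hN g h.gN hgX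
  obtain ⟨t, ht⟩ : ∃ t, t = g ^ (p ^ s) := ⟨_, rfl⟩
  rw [← ht] at hs1
  have htN : t ∈ N := by rw [ht]; exact N.pow_mem h.gN _
  have htp : t ^ p ∈ X := by
    rw [ht, ← pow_mul, ← pow_succ]; exact hs2
  have hπtp : (π t) ^ p = 1 := by rw [← map_pow, hπX]; exact htp
  have hord : orderOf (π g) = p ^ (s + 1) := by
    apply orderOf_eq_prime_pow
    · rw [← map_pow, hπX, ← ht]; exact hs1
    · rw [← map_pow, hπX]; exact hs2
  have hroot : ∀ n ∈ N, n ^ p ∈ X → ∃ i : ℕ, π n = (π t) ^ i := by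
    intro n hn hnp
    obtain ⟨j, x, hx, rfl⟩ := h.cyc n hn
    have h1 : π (g ^ j * x) = (π g) ^ j := by
      rw [map_mul, (hπX x).2 hx, mul_one, map_pow]
    have h2 : (π g) ^ (j * p) = 1 := by
      rw [pow_mul, ← h1, ← map_pow, hπX]
      exact hnp
    have h3 := orderOf_dvd_of_pow_eq_one h2
    rw [hord, pow_succ] at h3
    have h4 : p ^ s ∣ j := Nat.dvd_of_mul_dvd_mul_right hp.pos h3
    obtain ⟨i, hi⟩ := h4
    refine ⟨i, ?_⟩
    rw [h1, ht, map_pow, ← pow_mul, hi]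
  have hclaim : ∀ κ ∈ K, κ ≠ 0 → ∃ n ∈ N, π n = π t ∧ τ n (κ d0) = κ d0 := by
    intro κ hκ h0
    obtain ⟨n, hn, hn1, hn2⟩ := hcon (κ d0) (hact κ hκ h0 d0 hd0)
    have hnX : n ∉ X := by
      intro hnX
      apply hn2
      apply hd0X n hnX
      have h1 : κ (τ n d0) = κ d0 := by
        rw [← hn1]
        have h2 := hXK n hnX κ hκ
        have h3 : (τ n * κ) d0 = (κ * τ n) d0 := by rw [h2]
        rw [Module.End.mul_apply, Module.End.mul_apply] at h3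
        exact h3.symm
      by_contra hne
      have h4 := hact κ hκ h0 (τ n d0 - d0) (sub_ne_zero.2 hne)
      rw [map_sub, h1, sub_self] at h4
      exact h4 rfl
    obtain ⟨b, hb1, hb2⟩ := sb_ppow p N X hN n hn hnX
    have hb2' : (n ^ (p ^ b)) ^ p ∈ X := by rw [← pow_mul, ← pow_succ]; exact hb2
    obtain ⟨i, hi⟩ := hroot (n ^ (p ^ b)) (N.pow_mem hn _) hb2'
    have hpi : ¬ p ∣ i := by
      rintro ⟨c, rfl⟩
      apply hb1
      rw [← hπX, hi, pow_mul, hπtp, one_pow]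
    have hcop : Nat.Coprime i p := ((Nat.Prime.coprime_iff_not_dvd hp).2 hpi).symm
    obtain ⟨m, hm⟩ := Nat.exists_mul_mod_eq_one_of_coprime hcop hp.one_lt
    refine ⟨(n ^ (p ^ b)) ^ m, N.pow_mem (N.pow_mem hn _) _, ?_, ?_⟩
    · rw [map_pow, hi, ← pow_mul]
      have h5 : i * m = p * (i * m / p) + 1 := by
        have := Nat.div_add_mod (i * m) p
        rw [hm.2] at this
        exact this.symm
      rw [h5, pow_succ, pow_mul, hπtp, one_pow, one_mul]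
    · rw [← pow_mul]
      exact sb_fix_pow τ n _ hn1 _
  -- the automorphism
  have hinv1 : ∀ s : Γ, τ s * τ s⁻¹ = 1 := by
    intro s; rw [← map_mul, mul_inv_cancel, map_one]
  have hinv2 : ∀ s : Γ, τ s⁻¹ * τ s = 1 := by
    intro s; rw [← map_mul, inv_mul_cancel, map_one]
  let σ : K ≃+* K :=
    { toFun := fun κ => ⟨τ t * κ.1 * τ t⁻¹, hKconj t κ.1 κ.2⟩
      invFun := fun κ => ⟨τ t⁻¹ * κ.1 * τ t⁻¹⁻¹, hKconj t⁻¹ κ.1 κ.2⟩
      left_inv := by
        intro κ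
        apply Subtype.ext
        show τ t⁻¹ * (τ t * κ.1 * τ t⁻¹) * τ t⁻¹⁻¹ = κ.1
        calc τ t⁻¹ * (τ t * κ.1 * τ t⁻¹) * τ t⁻¹⁻¹
            = (τ t⁻¹ * τ t) * κ.1 * (τ t⁻¹ * τ t⁻¹⁻¹) := by simp only [mul_assoc]
          _ = κ.1 := by rw [hinv2, hinv1, one_mul, mul_one]
      right_inv := by
        intro κ
        apply Subtype.ext
        show τ t * (τ t⁻¹ * κ.1 * τ t⁻¹⁻¹) * τ t⁻¹ = κ.1
        calc τ t * (τ t⁻¹ * κ.1 * τ t⁻¹⁻¹) * τ t⁻¹
            = (τ t * τ t⁻¹) * κ.1 * (τ t⁻¹⁻¹ * τ t⁻¹) := by simp only [mul_assoc]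
          _ = κ.1 := by rw [hinv1, hinv2, one_mul, mul_one]
      map_mul' := by
        intro x y
        apply Subtype.ext
        show τ t * (x.1 * y.1) * τ t⁻¹ = (τ t * x.1 * τ t⁻¹) * (τ t * y.1 * τ t⁻¹)
        calc τ t * (x.1 * y.1) * τ t⁻¹ = τ t * x.1 * 1 * y.1 * τ t⁻¹ := by
              simp only [mul_assoc, one_mul]
          _ = τ t * x.1 * (τ t⁻¹ * τ t) * y.1 * τ t⁻¹ := by rw [hinv2]
          _ = (τ t * x.1 * τ t⁻¹) * (τ t * y.1 * τ t⁻¹) := by simp only [mul_assoc]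
      map_add' := by
        intro x y
        apply Subtype.ext
        show τ t * (x.1 + y.1) * τ t⁻¹ = (τ t * x.1 * τ t⁻¹) + (τ t * y.1 * τ t⁻¹)
        rw [mul_add, add_mul] }
  have hσ : ∀ κ : K, (σ κ).1 = τ t * κ.1 * τ t⁻¹ := fun κ => rfl
  have hσit : ∀ (k : ℕ) (κ : K), (σ^[k] κ).1 = τ (t ^ k) * κ.1 * τ (t ^ k)⁻¹ := by
    intro k
    induction k with
    | zero =>
      intro κ
      rw [Function.iterate_zero, id, pow_zero, inv_one, map_one, one_mul, mul_one]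
    | succ k ih =>
      intro κ
      rw [Function.iterate_succ_apply, ih, hσ, pow_succ, mul_inv_rev, map_mul, map_mul]
      simp only [mul_assoc]
  have htcomm : ¬ ∀ a ∈ A, τ t * τ a = τ a * τ t := fun hall => hs1 (h.memX t htN hall)
  push Not at htcomm
  obtain ⟨a, haA, hat⟩ := htcomm
  have hσne : ∃ x, σ x ≠ x := by
    refine ⟨⟨τ a, hAK a haA⟩, ?_⟩
    intro heq
    apply hat
    have h1 := congrArg Subtype.val heq
    rw [hσ] at h1
    have h2 : τ t * τ a * τ t⁻¹ = τ a := h1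
    calc τ t * τ a = τ t * τ a * (τ t⁻¹ * τ t) := by rw [hinv2, mul_one]
      _ = (τ t * τ a * τ t⁻¹) * τ t := by simp only [mul_assoc]
      _ = τ a * τ t := by rw [h2]
  have hσp : ∀ x, σ^[p] x = x := by
    intro x
    apply Subtype.ext
    rw [hσit, hXK (t ^ p) htp x.1 x.2, mul_assoc, hinv1, mul_one]
  haveI : Finite (Module.End (ZMod q) D) := by
    apply Finite.of_injective (fun f : Module.End (ZMod q) D => (f : D → D))
    intro f f' hff
    exact DFunLike.coe_injective hff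
  haveI : Finite K := inferInstance
  have hone : (1 : Module.End (ZMod q) D) ≠ 0 := by
    intro h10
    apply hd0
    have : (1 : Module.End (ZMod q) D) d0 = (0 : Module.End (ZMod q) D) d0 := by rw [h10]
    exact this
  have hKf : IsField K :=
    { exists_pair_ne := ⟨1, 0, fun h10 => hone (congrArg Subtype.val h10)⟩
      mul_comm := fun x y => Subtype.ext (hKcomm x.1 x.2 y.1 y.2)
      mul_inv_cancel := by
        intro x hx
        have hx0 : x.1 ≠ 0 := fun h0 => hx (Subtype.ext h0)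
        obtain ⟨y, hy, hxy, _⟩ := hKinv x.1 x.2 hx0
        exact ⟨⟨y, hy⟩, Subtype.ext hxy⟩ }
  have hpK : ∃ z : K, z ≠ 1 ∧ z ^ p = 1 := by
    have hker : a ∉ τ.ker := by
      intro hk
      rw [MonoidHom.mem_ker] at hk
      apply hat
      rw [hk, mul_one, one_mul]
    obtain ⟨b, hb1, hb2⟩ := sb_ppow p N τ.ker hN a ((h.AX.trans h.XN) haA) hker
    rw [MonoidHom.mem_ker] at hb1 hb2
    refine ⟨⟨τ (a ^ (p ^ b)), hAK _ (A.pow_mem haA _)⟩, ?_, ?_⟩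
    · intro h1
      exact hb1 (congrArg Subtype.val h1)
    · apply Subtype.ext
      show τ (a ^ (p ^ b)) ^ p = 1
      rw [← map_pow, ← pow_mul, ← pow_succ]
      exact hb2
  obtain ⟨κ, hκ0, hκ⟩ := sb_nt_ring hKf p hp2 σ hσne hσp hpK
  have hκ0' : κ.1 ≠ 0 := fun h0 => hκ0 (Subtype.ext h0)
  obtain ⟨n, hn, hnt, hnd⟩ := hclaim κ.1 κ.2 hκ0'
  obtain ⟨n1, hn1, hn1t, hn1d⟩ := hclaim 1 K.one_mem hone
  have hn1d' : τ n1 d0 = d0 := hn1d
  have hn1i : τ n1⁻¹ d0 = d0 := by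
    have h1 : (τ n1⁻¹ * τ n1) d0 = d0 := by rw [hinv2]; rfl
    rw [Module.End.mul_apply, hn1d'] at h1
    exact h1
  have hσκ0 : (σ κ).1 ≠ 0 := by
    intro h0
    apply hκ0
    have h1 : σ κ = 0 := Subtype.ext h0
    exact (map_eq_zero_iff σ σ.injective).1 h1
  obtain ⟨ν, hνK, hν1, hν2⟩ := hKinv (σ κ).1 (σ κ).2 hσκ0
  obtain ⟨μ, hμd⟩ : ∃ μ : K, μ = ⟨ν, hνK⟩ * κ := ⟨_, rfl⟩
  have hμ1 : σ κ * μ = κ := by
    rw [hμd, ← mul_assoc]
    have h1 : σ κ * ⟨ν, hνK⟩ = 1 := Subtype.ext hν1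
    rw [h1, one_mul]
  -- n = t x
  have hxX : t⁻¹ * n ∈ X := by
    rw [← hπX, map_mul, map_inv, hnt, inv_mul_cancel]
  have hnκ : τ n * κ.1 = (σ κ).1 * τ n := by
    have h1 : n = t * (t⁻¹ * n) := by rw [mul_inv_cancel_left]
    have h2 : τ n = τ t * τ (t⁻¹ * n) := by rw [← map_mul, mul_inv_cancel_left]
    rw [h2, mul_assoc, hXK _ hxX κ.1 κ.2, hσ]
    calc τ t * (κ.1 * τ (t⁻¹ * n)) = τ t * κ.1 * 1 * τ (t⁻¹ * n) := by
          simp only [mul_assoc, one_mul]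
      _ = τ t * κ.1 * (τ t⁻¹ * τ t) * τ (t⁻¹ * n) := by rw [hinv2]
      _ = τ t * κ.1 * τ t⁻¹ * (τ t * τ (t⁻¹ * n)) := by simp only [mul_assoc]
  have hnd0 : τ n d0 = μ.1 d0 := by
    have h1 : (τ n * κ.1) d0 = κ.1 d0 := hnd
    rw [hnκ, Module.End.mul_apply] at h1
    have h2 : (ν * (σ κ).1) (τ n d0) = τ n d0 := by rw [hν2]; rfl
    rw [Module.End.mul_apply, h1] at h2
    rw [← h2, hμd]
    rfl
  have hxx : n * n1⁻¹ ∈ X := by
    rw [← hπX, map_mul, map_inv, hnt, hn1t, mul_inv_cancel]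
  have hxd : τ (n * n1⁻¹) d0 = μ.1 d0 := by
    rw [map_mul, Module.End.mul_apply, hn1i, hnd0]
  have hxpow : ∀ j : ℕ, τ ((n * n1⁻¹) ^ j) d0 = (μ.1 ^ j) d0 := by
    intro j
    induction j with
    | zero => rw [pow_zero, pow_zero, map_one]
    | succ j ih =>
      rw [pow_succ', map_mul, Module.End.mul_apply, ih, ← Module.End.mul_apply,
        hXK _ hxx (μ.1 ^ j) (K.pow_mem μ.2 j), Module.End.mul_apply, hxd, ← Module.End.mul_apply,
        ← pow_succ]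
  obtain ⟨r, hr⟩ := hN ⟨n * n1⁻¹, h.XN hxx⟩
  have hr' : (n * n1⁻¹) ^ (p ^ r) = 1 := by
    have := congrArg Subtype.val hr
    simpa using this
  apply hκ μ hμ1 r
  apply Subtype.ext
  show μ.1 ^ (p ^ r) = 1
  by_contra hne
  have h1 : μ.1 ^ (p ^ r) - 1 ≠ 0 := sub_ne_zero.2 hne
  have h2 : μ.1 ^ (p ^ r) - 1 ∈ K := K.sub_mem (K.pow_mem μ.2 _) K.one_mem
  apply hact _ h2 h1 d0 hd0
  rw [LinearMap.sub_apply, ← hxpow, hr', map_one]
  exact sub_self _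
end Pool.Agent.Helper218.NV
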