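import Pool.Agent.Helper218.NV.Defs
import Pool.Agent.Helper218.NV.P_exists_res
import Pool.Agent.Helper218.NV.P_qp_transfer
import Pool.Agent.Helper218.NV.P_local_struct
import Pool.Agent.Helper218.NV.P_sa_lemma
import Pool.Agent.Helper218.NV.P_sb_lemma



namespace Pool.Agent.Helper218.NV
open scoped BigOperators commutatorElement


/-- the stabiliser of the idempotent -/
def j22362_G {H : Type} [Group H] {q : ℕ} {V : Type} [AddCommGroup V] [Module (ZMod q) V]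
    (ρ : Representation (ZMod q) H V) (e : Module.End (ZMod q) V) : Subgroup H where
  carrier := {h | ρ h * e = e * ρ h}
  one_mem' := by
    show ρ 1 * e = e * ρ 1
    rw [map_one, one_mul, mul_one]
  mul_mem' := by
    intro a b ha hb
    have ha' : ρ a * e = e * ρ a := ha
    have hb' : ρ b * e = e * ρ b := hb
    show ρ (a * b) * e = e * ρ (a * b)
    rw [map_mul, mul_assoc, hb', ← mul_assoc, ha', mul_assoc]
  inv_mem' := by
    intro a ha
    have ha' : ρ a * e = e * ρ a := ha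
    show ρ a⁻¹ * e = e * ρ a⁻¹
    have h1 : ρ a⁻¹ * ρ a = 1 := by rw [← map_mul, inv_mul_cancel, map_one]
    have h2 : ρ a * ρ a⁻¹ = 1 := by rw [← map_mul, mul_inv_cancel, map_one]
    calc ρ a⁻¹ * e = ρ a⁻¹ * (e * (ρ a * ρ a⁻¹)) := by rw [h2, mul_one]
      _ = ρ a⁻¹ * ((e * ρ a) * ρ a⁻¹) := by rw [mul_assoc]
      _ = ρ a⁻¹ * ((ρ a * e) * ρ a⁻¹) := by rw [ha']
      _ = (ρ a⁻¹ * ρ a) * (e * ρ a⁻¹) := by rw [mul_assoc, mul_assoc]
      _ = e * ρ a⁻¹ := by rw [h1, one_mul]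

theorem loc_odd {H : Type} [Group H] [Finite H] {q : ℕ} [Fact q.Prime] (p : ℕ) [Fact p.Prime]
    (hp2 : p ≠ 2) (hpq : p ≠ q)
    {V : Type} [AddCommGroup V] [Module (ZMod q) V] [Finite V]
    (ρ : Representation (ZMod q) H V) (E : Finset (Module.End (ZMod q) V)) (hE : Dec ρ E)
    (N : Subgroup H) (hNn : N.Normal) (hN : IsPGroup p N)
    (hc : ∀ n ∈ N, ∀ e ∈ E, ρ n * e = e * ρ n) :
    ∀ e ∈ E, ∃ v : V, v ≠ 0 ∧ e v = v ∧ ∀ n ∈ N, ρ n v = v → ρ n * e = e := by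
  intro e he
  have hee := hE.idem e he
  have hmem : ∀ h, h ∈ j22362_G ρ e ↔ ρ h * e = e * ρ h := fun h => Iff.rfl
  obtain ⟨τ, hτ⟩ := exists_res ρ e hee (j22362_G ρ e) (fun h hh => hh)
  have hQ := qp_transfer ρ E hE e he (j22362_G ρ e) hmem τ hτ N
  have hnt : Nontrivial (LinearMap.range e) := by
    have hne := hE.ne e he
    have : ∃ x, e x ≠ 0 := by
      by_contra hcon
      push Not at hcon
      exact hne (LinearMap.ext hcon)
    obtain ⟨x, hx⟩ := this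
    refine ⟨⟨⟨e x, x, rfl⟩, 0, fun h => hx ?_⟩⟩
    exact congrArg Subtype.val h
  have hNn' : (N.subgroupOf (j22362_G ρ e)).Normal := Subgroup.normal_subgroupOf
  have hN' : IsPGroup p (N.subgroupOf (j22362_G ρ e)) := hN.comap_subtype
  obtain ⟨A, X, g, hLS⟩ := local_struct p τ (N.subgroupOf (j22362_G ρ e)) hNn' hpq hN' hQ
  have hd := sa_lemma p hp2 τ _ A X g hLS
  obtain ⟨d, hd0, hdn⟩ := sb_lemma p hp2 hpq τ _ A X g hNn' hN' hLS hd
  refine ⟨(d : V), fun h => hd0 (Subtype.ext h), ?_, ?_⟩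
  · obtain ⟨x, hx⟩ := d.2
    rw [← hx, ← Module.End.mul_apply, hee]
  · intro n hn hnv
    have hnG : n ∈ j22362_G ρ e := hc n hn e he
    have h1 : τ ⟨n, hnG⟩ d = d := Subtype.ext (by rw [hτ]; exact hnv)
    have h2 := hdn ⟨n, hnG⟩ hn h1
    ext x
    have h3 := hτ ⟨n, hnG⟩ ⟨e x, x, rfl⟩
    rw [h2] at h3
    exact h3.symm

end Pool.Agent.Helper218.NV
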