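import Pool.Agent.Helper218.NV.Defs
import Pool.Agent.Helper218.NV.P_dec_exists
import Pool.Agent.Helper218.NV.P_block_fix
import Pool.Agent.Helper218.NV.P_loc_odd



namespace Pool.Agent.Helper218.NV
open scoped BigOperators commutatorElement


theorem key_odd {H : Type} [Group H] [Finite H] {q : ℕ} [Fact q.Prime] (p : ℕ) [Fact p.Prime]
    (hp2 : p ≠ 2) (hpq : p ≠ q)
    {V : Type} [AddCommGroup V] [Module (ZMod q) V] [Finite V]
    (ρ : Representation (ZMod q) H V) (N : Subgroup H) (hNn : N.Normal) (hN : IsPGroup p N)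
    (y : H) (hy : Subgroup.normalClosure {y} = N)
    (hfix : ∀ v : V, ∃ g : H, ρ (g * y * g⁻¹) v = v) : ρ y = 1 := by
  classical
  obtain ⟨E, hE⟩ := dec_exists ρ
  have hc := block_fix ρ E hE p N hN y hy hfix
  choose v hv0 hve hvn using loc_odd p hp2 hpq ρ E hE N hNn hN hc
  obtain ⟨g, hg⟩ := hfix (∑ e ∈ E.attach, v e.1 e.2)
  set w : V := ∑ e ∈ E.attach, v e.1 e.2 with hw
  have hfw : ∀ f (hf : f ∈ E), f w = v f hf := by
    intro f hf
    rw [hw, map_sum, Finset.sum_eq_single (⟨f, hf⟩ : {x // x ∈ E})]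
    · exact hve f hf
    · rintro ⟨e, he⟩ _ hne
      have h1 : f ≠ e := fun h => hne (Subtype.ext h.symm)
      have h2 : f (v e he) = (f * e) (v e he) := by
        rw [Module.End.mul_apply, hve e he]
      rw [h2, hE.orth f hf e he h1]
      rfl
    · intro h
      exact absurd (Finset.mem_attach E ⟨f, hf⟩) h
  have hyN : y ∈ N := by
    rw [← hy]
    exact Subgroup.subset_normalClosure (Set.mem_singleton y)
  set u : H := g * y * g⁻¹ with hu
  have huN : u ∈ N := hNn.conj_mem y hyN g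
  have h1 : ∀ e ∈ E, ρ u * e = e := by
    intro e he
    apply hvn e he u huN
    calc ρ u (v e he) = ρ u (e w) := by rw [hfw e he]
      _ = (ρ u * e) w := rfl
      _ = (e * ρ u) w := by rw [hc u huN e he]
      _ = e (ρ u w) := rfl
      _ = v e he := by rw [hg, hfw e he]
  have h2 : ρ u = 1 := by
    calc ρ u = ρ u * ∑ e ∈ E, e := by rw [hE.sum, mul_one]
      _ = ∑ e ∈ E, ρ u * e := Finset.mul_sum _ _ _
      _ = ∑ e ∈ E, e := Finset.sum_congr rfl h1
      _ = 1 := hE.sum
  have h3 : y = g⁻¹ * u * g := by rw [hu]; group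
  rw [h3, map_mul, map_mul, h2, mul_one, ← map_mul, inv_mul_cancel, map_one]

end Pool.Agent.Helper218.NV
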