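import Pool.Agent.Helper218.NV.Defs



namespace Pool.Agent.Helper218.NV
open scoped BigOperators commutatorElement


theorem fv_lemma {H : Type} [Group H] [Finite H] {q : ℕ} [Fact q.Prime]
    {V : Type} [AddCommGroup V] [Module (ZMod q) V] [Finite V]
    (ρ : Representation (ZMod q) H V) (E : Finset (Module.End (ZMod q) V)) (hE : Dec ρ E)
    (N : Subgroup H) (hNn : N.Normal) (y : H) (hy : Subgroup.normalClosure {y} = N)
    (hc : ∀ n ∈ N, ∀ e ∈ E, ρ n * e = e * ρ n)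
    (hfix : ∀ v : V, ∃ g : H, ρ (g * y * g⁻¹) v = v) :
    ∀ g : H, ∀ e ∈ E, ∃ v : V, v ≠ 0 ∧ e v = v ∧ ρ (g * y * g⁻¹) v = v := by
  classical
  have hex : ∀ f ∈ E, ∃ w : V, w ≠ 0 ∧ f w = w := by
    intro f hf
    have h1 : ∃ u, f u ≠ 0 := by
      by_contra h
      push Not at h
      exact hE.ne f hf (LinearMap.ext h)
    obtain ⟨u, hu⟩ := h1
    refine ⟨f u, hu, ?_⟩
    have h2 := congrArg (fun T : Module.End (ZMod q) V => T u) (hE.idem f hf)
    exact h2
  choose! w hw0 hw1 using hex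
  have hfv : ∀ f ∈ E, f (∑ f' ∈ E, w f') = w f := by
    intro f hf
    rw [map_sum, Finset.sum_eq_single f]
    · exact hw1 f hf
    · intro f' hf' hne
      rw [← hw1 f' hf']
      have h2 := congrArg (fun T : Module.End (ZMod q) V => T (w f'))
        (hE.orth f hf f' hf' (Ne.symm hne))
      exact h2
    · exact fun h => absurd hf h
  obtain ⟨k, hk⟩ := hfix (∑ f' ∈ E, w f')
  have hyN : y ∈ N := by
    rw [← hy]
    exact Subgroup.subset_normalClosure rfl
  have hkN : k * y * k⁻¹ ∈ N := hNn.conj_mem y hyN k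
  have hfixw : ∀ f ∈ E, ρ (k * y * k⁻¹) (w f) = w f := by
    intro f hf
    have h1 := congrArg (fun T : Module.End (ZMod q) V => T (∑ f' ∈ E, w f')) (hc _ hkN f hf)
    have h2 : ρ (k * y * k⁻¹) (f (∑ f' ∈ E, w f')) = f (ρ (k * y * k⁻¹) (∑ f' ∈ E, w f')) := h1
    rwa [hk, hfv f hf] at h2
  intro g e he
  have hinv : ∀ (a : H) (v : V), ρ a (ρ a⁻¹ v) = v := by
    intro a v
    rw [← Module.End.mul_apply, ← map_mul, mul_inv_cancel, map_one]
    rfl
  have hinv' : ∀ (a : H) (v : V), ρ a⁻¹ (ρ a v) = v := by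
    intro a v
    rw [← Module.End.mul_apply, ← map_mul, inv_mul_cancel, map_one]
    rfl
  have hf := hE.inv (k * g⁻¹) e he
  set h := k * g⁻¹ with hh
  set f := ρ h * e * ρ h⁻¹ with hfdef
  have hfw := hw1 f hf
  have hfw' : ρ h (e (ρ h⁻¹ (w f))) = w f := hfw
  refine ⟨ρ h⁻¹ (w f), ?_, ?_, ?_⟩
  · intro h0
    apply hw0 f hf
    rw [← hinv h (w f), h0, map_zero]
  · have h3 := congrArg (ρ h⁻¹) hfw'
    rwa [hinv'] at h3
  · have e1 : g * y * g⁻¹ * h⁻¹ = h⁻¹ * (k * y * k⁻¹) := by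
      rw [hh]; group
    rw [← Module.End.mul_apply, ← map_mul, e1, map_mul, Module.End.mul_apply, hfixw f hf]

end Pool.Agent.Helper218.NV
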