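import Pool.Agent.Helper218.NV.Defs



namespace Pool.Agent.Helper218.NV
open scoped BigOperators commutatorElement


theorem rad_comm_le {H : Type} [Group H] (N : Subgroup H) : ⁅N, N⁆ ≤ N := by
  rw [Subgroup.commutator_le]
  intro a ha b hb
  rw [commutatorElement_def]
  exact N.mul_mem (N.mul_mem (N.mul_mem ha hb) (N.inv_mem ha)) (N.inv_mem hb)

theorem rad_pow {H : Type} [Group H] {q : ℕ}
    {V : Type} [AddCommGroup V] [Module (ZMod q) V]
    (ρ : Representation (ZMod q) H V) (N : Subgroup H)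
    (e : Module.End (ZMod q) V) (hc : ∀ n ∈ N, ρ n * e = e * ρ n) {a b : H} (ha : a ∈ N)
    (hb : b ∈ N) (h : ρ a * e = ρ b * e) (n : ℕ) : ρ (a ^ n) * e = ρ (b ^ n) * e := by
  induction n with
  | zero => rw [pow_zero, pow_zero]
  | succ n ih =>
    rw [pow_succ, pow_succ, map_mul, map_mul, mul_assoc, h, hc b hb, ← mul_assoc, ih, mul_assoc,
      ← hc b hb, ← mul_assoc]

theorem rad_all {H : Type} [Group H] {q : ℕ}
    {V : Type} [AddCommGroup V] [Module (ZMod q) V]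
    (ρ : Representation (ZMod q) H V) (N : Subgroup H)
    (e : Module.End (ZMod q) V) (hc : ∀ n ∈ N, ρ n * e = e * ρ n) (hL : Loc2V ρ N e)
    (h : ∀ u ∈ N, ∀ v ∈ N, SqV ρ N e ⁅u, v⁆) : ∀ c ∈ ⁅N, N⁆, SqV ρ N e c := by
  have hle := rad_comm_le N
  intro c hcN
  have hcN' : c ∈ Subgroup.closure {g | ∃ g₁ ∈ N, ∃ g₂ ∈ N, ⁅g₁, g₂⁆ = g} := hcN
  induction hcN' using Subgroup.closure_induction with
  | mem x hx =>
    obtain ⟨u, hu, v, hv, rfl⟩ := hx
    exact h u hu v hv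
  | one => exact ⟨1, Subgroup.one_mem _, by rw [mul_one]⟩
  | mul x y hx hy ihx ihy =>
    obtain ⟨s, hs, hs2⟩ := ihx hx
    obtain ⟨t, ht, ht2⟩ := ihy hy
    refine ⟨s * t, Subgroup.mul_mem _ hs ht, ?_⟩
    have htN := hle ht
    have hsN := hle hs
    have e1 : ρ (x * y) * e = ρ s * ρ s * ρ t * ρ t * e := by
      rw [map_mul, mul_assoc, ht2, hc _ (N.mul_mem htN htN), ← mul_assoc, hs2, mul_assoc,
        ← hc _ (N.mul_mem htN htN), map_mul, map_mul]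
      simp only [mul_assoc]
    have e2 : ρ (s * t * (s * t)) * e = ρ s * ρ s * ρ t * ρ t * e := by
      have e3 : ρ (s * t * (s * t)) * e = ρ s * (ρ t * ρ s * (ρ t * e)) := by
        rw [map_mul, map_mul]
        simp only [mul_assoc]
      have e4 : ρ s * ρ s * ρ t * ρ t * e = ρ s * (ρ s * ρ t * (ρ t * e)) := by
        simp only [mul_assoc]
      rw [e3, e4, hc t htN, ← mul_assoc (ρ t * ρ s), ← mul_assoc (ρ s * ρ t), hL.comm t ht s hs]
    rw [e1, e2]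
  | inv x hx ihx =>
    obtain ⟨s, hs, hs2⟩ := ihx hx
    refine ⟨s⁻¹, Subgroup.inv_mem _ hs, ?_⟩
    have hsN := hle hs
    have h1 : ρ x⁻¹ * (ρ x * e) = e := by
      rw [← mul_assoc, ← map_mul, inv_mul_cancel, map_one, one_mul]
    rw [hs2, hc _ (N.mul_mem hsN hsN), ← mul_assoc] at h1
    have h2 : ρ x⁻¹ * e * ρ (s * s) * ρ (s⁻¹ * s⁻¹) = e * ρ (s⁻¹ * s⁻¹) := by rw [h1]
    have h3 : s * s * (s⁻¹ * s⁻¹) = 1 := by group
    rw [mul_assoc, ← map_mul, h3, map_one, mul_one] at h2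
    rw [h2, hc _ (N.mul_mem (N.inv_mem hsN) (N.inv_mem hsN))]

theorem rad_iter {H : Type} [Group H] {q : ℕ}
    {V : Type} [AddCommGroup V] [Module (ZMod q) V]
    (ρ : Representation (ZMod q) H V) (N : Subgroup H)
    (e : Module.End (ZMod q) V) (hc : ∀ n ∈ N, ρ n * e = e * ρ n)
    (h : ∀ c ∈ ⁅N, N⁆, SqV ρ N e c) (k : ℕ) :
    ∀ c ∈ ⁅N, N⁆, ∃ s ∈ ⁅N, N⁆, ρ c * e = ρ (s ^ (2 ^ k)) * e := by
  have hle := rad_comm_le N
  induction k with
  | zero => exact fun c hc => ⟨c, hc, by rw [pow_zero, pow_one]⟩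
  | succ k ih =>
    intro c hcN
    obtain ⟨s, hs, hs2⟩ := ih c hcN
    obtain ⟨t, ht, ht2⟩ := h s hs
    refine ⟨t, ht, ?_⟩
    rw [hs2, rad_pow ρ N e hc (hle hs) (N.mul_mem (hle ht) (hle ht)) ht2]
    have e1 : (t * t) ^ 2 ^ k = t ^ 2 ^ (k + 1) := by
      rw [← pow_two, ← pow_mul, pow_succ, mul_comm]
    rw [e1]

theorem rad_proper {H : Type} [Group H] [Finite H] {q : ℕ}
    {V : Type} [AddCommGroup V] [Module (ZMod q) V]
    (ρ : Representation (ZMod q) H V) (N : Subgroup H) (hNn : N.Normal) (hN : IsPGroup 2 N)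
    (e : Module.End (ZMod q) V) (hc : ∀ n ∈ N, ρ n * e = e * ρ n) (hL : Loc2V ρ N e)
    (hnab : ¬ ∀ u ∈ N, ∀ v ∈ N, ρ u * ρ v * e = ρ v * ρ u * e) :
    ∃ u ∈ N, ∃ v ∈ N, ¬ SqV ρ N e ⁅u, v⁆ := by
  by_contra hcon
  push Not at hcon
  apply hnab
  have hall := rad_all ρ N e hc hL hcon
  haveI : Fact (Nat.Prime 2) := ⟨Nat.prime_two⟩
  obtain ⟨k, hk⟩ := (IsPGroup.iff_card (p := 2) (G := N)).1 hN
  have hone : ∀ n ∈ N, n ^ 2 ^ k = 1 := by
    intro n hn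
    have h1 : (⟨n, hn⟩ : N) ^ Nat.card N = 1 := pow_card_eq_one'
    rw [hk] at h1
    exact congrArg Subtype.val h1
  have htriv : ∀ c ∈ ⁅N, N⁆, ρ c * e = e := by
    intro c hcN
    obtain ⟨s, hs, hs2⟩ := rad_iter ρ N e hc hall k c hcN
    rw [hs2, hone s (rad_comm_le N hs), map_one, one_mul]
  intro u hu v hv
  have h1 : u * v = ⁅u, v⁆ * (v * u) := by
    rw [commutatorElement_def]; group
  rw [← map_mul, ← map_mul, h1, map_mul, mul_assoc, hc _ (N.mul_mem hv hu), ← mul_assoc,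
    htriv _ (Subgroup.commutator_mem_commutator hu hv)]

end Pool.Agent.Helper218.NV
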