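import Pool.Agent.Helper218.NV.Defs
import Pool.Agent.Helper218.NV.P_abelian_stab
import Pool.Agent.Helper218.NV.P_bf_hom
import Pool.Agent.Helper218.NV.P_bf_bilin
import Pool.Agent.Helper218.NV.P_fv_lemma
import Pool.Agent.Helper218.NV.P_rad_proper



namespace Pool.Agent.Helper218.NV
open scoped BigOperators commutatorElement


theorem choose_lemma_bf {H : Type} [Group H] {q : ℕ} {V : Type} [AddCommGroup V]
    [Module (ZMod q) V] (ρ : Representation (ZMod q) H V) (N : Subgroup H)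
    (e : Module.End (ZMod q) V) (c : H) : Bf ρ N e c = 0 ↔ SqV ρ N e c := by
  unfold Bf
  split_ifs with h
  · exact ⟨fun _ => h, fun _ => rfl⟩
  · exact ⟨fun h1 => absurd h1 one_ne_zero, fun h1 => absurd h1 h⟩

/-- a symmetric bilinear commutator form vanishing on conjugates of `y` vanishes -/
theorem choose_lemma_closure {H : Type} [Group H] (N : Subgroup H) (B : H → ZMod 2)
    (S : Set H) (hS : Subgroup.closure S = N)
    (h1 : ∀ u ∈ N, ∀ u' ∈ N, ∀ v ∈ N, B ⁅u * u', v⁆ = B ⁅u, v⁆ + B ⁅u', v⁆)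
    (h2 : ∀ u ∈ N, ∀ v ∈ N, B ⁅u, v⁆ = B ⁅v, u⁆)
    (h0 : ∀ u ∈ S, ∀ v ∈ S, B ⁅u, v⁆ = 0) : ∀ u ∈ N, ∀ v ∈ N, B ⁅u, v⁆ = 0 := by
  have hSN : ∀ u ∈ S, u ∈ N := fun u hu => hS ▸ Subgroup.subset_closure hu
  have hone : ∀ v ∈ N, B ⁅(1 : H), v⁆ = 0 := by
    intro v hv
    have h3 := h1 1 N.one_mem 1 N.one_mem v hv
    rw [one_mul] at h3
    exact left_eq_add.1 h3
  have hinv : ∀ u ∈ N, ∀ v ∈ N, B ⁅u, v⁆ = 0 → B ⁅u⁻¹, v⁆ = 0 := by
    intro u hu v hv h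
    have h3 := h1 u⁻¹ (N.inv_mem hu) u hu v hv
    rw [inv_mul_cancel, hone v hv, h, add_zero] at h3
    exact h3.symm
  have key : ∀ v ∈ N, (∀ u ∈ S, B ⁅u, v⁆ = 0) → ∀ u ∈ N, B ⁅u, v⁆ = 0 := by
    intro v hv hSv u hu
    have hu' : u ∈ Subgroup.closure S := by rw [hS]; exact hu
    induction hu' using Subgroup.closure_induction with
    | mem x hx => exact hSv x hx
    | one => exact hone v hv
    | mul x y hx hy ihx ihy =>
      have hx' : x ∈ N := by rw [← hS]; exact hx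
      have hy' : y ∈ N := by rw [← hS]; exact hy
      rw [h1 x hx' y hy' v hv, ihx hx', ihy hy', add_zero]
    | inv x hx ih =>
      have hx' : x ∈ N := by rw [← hS]; exact hx
      exact hinv x hx' v hv (ih hx')
  intro u hu v hv
  refine key v hv (fun s hs => ?_) u hu
  rw [h2 s (hSN s hs) v hv]
  exact key s (hSN s hs) (fun s' hs' => h0 s' hs' s hs) v hv

theorem choose_lemma {H : Type} [Group H] [Finite H] {q : ℕ} [Fact q.Prime] (hq : q ≠ 2)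
    {V : Type} [AddCommGroup V] [Module (ZMod q) V] [Finite V]
    (ρ : Representation (ZMod q) H V) (E : Finset (Module.End (ZMod q) V)) (hE : Dec ρ E)
    (N : Subgroup H) (hNn : N.Normal) (hN : IsPGroup 2 N) (y : H)
    (hy : Subgroup.normalClosure {y} = N)
    (hc : ∀ n ∈ N, ∀ e ∈ E, ρ n * e = e * ρ n)
    (hfix : ∀ v : V, ∃ g : H, ρ (g * y * g⁻¹) v = v) (e : Module.End (ZMod q) V) (he : e ∈ E)
    (hL : Loc2V ρ N e) (hnab : ¬ ∀ u ∈ N, ∀ v ∈ N, ρ u * ρ v * e = ρ v * ρ u * e)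
    (J : Subgroup H) (hJN : J ≤ N) (hJ : ∀ u ∈ J, ∀ v ∈ J, SqV ρ N e ⁅u, v⁆) :
    ∃ v : V, v ≠ 0 ∧ e v = v ∧ ∀ u ∈ J, ρ u v = v → ∀ w ∈ N, SqV ρ N e ⁅u, w⁆ := by
  have hce : ∀ n ∈ N, ρ n * e = e * ρ n := fun n hn => hc n hn e he
  have hidem := hE.idem e he
  have hmem : ∀ u ∈ N, ∀ v ∈ N, ⁅u, v⁆ ∈ ⁅N, N⁆ := fun u hu v hv =>
    Subgroup.commutator_mem_commutator hu hv
  rcases hL.dich with hA | hB
  · -- case (a)
    have hsq : ∀ c, SqV ρ N e c → ρ c * e = e := by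
      rintro c ⟨s, hs, h⟩
      rw [h, hA s hs]
    have hcop : Nat.Coprime (Nat.card J) q := by
      have hJ2 : IsPGroup 2 J := hN.to_le hJN
      obtain ⟨n, hn⟩ := IsPGroup.iff_card.1 hJ2
      rw [hn]
      exact Nat.Coprime.pow_left n ((Nat.coprime_primes Nat.prime_two (Fact.out)).2 (Ne.symm hq))
    have hJc : ∀ u ∈ J, ∀ v ∈ J, ρ u * ρ v * e = ρ v * ρ u * e := by
      intro u hu v hv
      have h1 := hsq _ (hJ u hu v hv)
      have e1 : u * v = ⁅u, v⁆ * (v * u) := by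
        rw [commutatorElement_def]; group
      calc ρ u * ρ v * e = ρ (u * v) * e := by rw [map_mul]
        _ = ρ ⁅u, v⁆ * (ρ (v * u) * e) := by rw [e1, map_mul, mul_assoc]
        _ = ρ ⁅u, v⁆ * (e * ρ (v * u)) := by
            rw [hce _ (N.mul_mem (hJN hv) (hJN hu))]
        _ = (ρ ⁅u, v⁆ * e) * ρ (v * u) := by rw [mul_assoc]
        _ = ρ (v * u) * e := by
            rw [h1, hce _ (N.mul_mem (hJN hv) (hJN hu))]
        _ = ρ v * ρ u * e := by rw [map_mul]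
    obtain ⟨v, hv0, hev, hv⟩ := abelian_stab ρ J hcop e hidem (hE.ne e he)
      (fun u hu => hce u (hJN hu)) hJc
    refine ⟨v, hv0, hev, fun u hu huv w hw => ⟨1, Subgroup.one_mem _, ?_⟩⟩
    have h1 := hv u hu huv
    have h2 : ρ u⁻¹ * e = e := by
      calc ρ u⁻¹ * e = ρ u⁻¹ * (ρ u * e) := by rw [h1]
        _ = (ρ (u⁻¹ * u)) * e := by rw [map_mul, mul_assoc]
        _ = e := by rw [inv_mul_cancel, map_one, one_mul]
    rw [one_mul, map_one, one_mul, commutatorElement_def, map_mul, map_mul, map_mul, mul_assoc,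
      mul_assoc, mul_assoc, hce _ (N.inv_mem hw), ← mul_assoc (ρ u⁻¹), h2, ← mul_assoc (ρ w),
      hce w hw, mul_assoc e, ← map_mul, mul_inv_cancel, map_one, mul_one, h1]
  · -- case (b)
    obtain ⟨b1, b2, _⟩ := bf_bilin ρ N hNn e hce hL
    have hsymm : ∀ u ∈ N, ∀ v ∈ N, (SqV ρ N e ⁅u, v⁆ ↔ SqV ρ N e ⁅v, u⁆) := by
      intro u hu v hv
      rw [← choose_lemma_bf, ← choose_lemma_bf, b2 u hu v hv]
    have hyN : ∀ g : H, g * y * g⁻¹ ∈ N := by
      intro g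
      apply hNn.conj_mem
      rw [← hy]
      exact Subgroup.subset_normalClosure rfl
    have hex : ∃ g1 g2 : H, ¬ SqV ρ N e ⁅g1 * y * g1⁻¹, g2 * y * g2⁻¹⁆ := by
      by_contra hno
      push Not at hno
      obtain ⟨u, hu, v, hv, huv⟩ := rad_proper ρ N hNn hN e hce hL hnab
      apply huv
      rw [← choose_lemma_bf]
      refine choose_lemma_closure N (Bf ρ N e) (Group.conjugatesOfSet {y}) hy b1 b2 ?_ u hu v hv
      intro a ha b hb
      obtain ⟨y1, hy1, hay⟩ := Group.mem_conjugatesOfSet_iff.1 ha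
      obtain ⟨y2, hy2, hby⟩ := Group.mem_conjugatesOfSet_iff.1 hb
      rw [Set.mem_singleton_iff] at hy1 hy2
      subst hy1
      subst hy2
      obtain ⟨g1, hg1⟩ := isConj_iff.1 hay
      obtain ⟨g2, hg2⟩ := isConj_iff.1 hby
      rw [← hg1, ← hg2, choose_lemma_bf]
      exact hno g1 g2
    obtain ⟨g1, g2, hns⟩ := hex
    obtain ⟨v1, hv10, hev1, hyv1⟩ := fv_lemma ρ E hE N hNn y hy hc hfix g1 e he
    obtain ⟨v2, hv20, hev2, hyv2⟩ := fv_lemma ρ E hE N hNn y hy hc hfix g2 e he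
    have hy1N := hyN g1
    have hy2N := hyN g2
    generalize g1 * y * g1⁻¹ = y1 at *
    generalize g2 * y * g2⁻¹ = y2 at *
    have hfixinv : ∀ (h : H) (v : V), ρ h v = v → ρ h⁻¹ v = v := by
      intro h v hv
      calc ρ h⁻¹ v = ρ h⁻¹ (ρ h v) := by rw [hv]
        _ = (ρ h⁻¹ * ρ h) v := rfl
        _ = v := by rw [← map_mul, inv_mul_cancel, map_one]; rfl
    -- the claim for one vector
    have claim : ∀ (v : V) (z u : H), v ≠ 0 → e v = v → z ∈ N → u ∈ N → ρ z v = v → ρ u v = v →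
        SqV ρ N e ⁅u, z⁆ := by
      intro v z u hv0 hev hz hu hzv huv
      refine ⟨1, Subgroup.one_mem _, ?_⟩
      rw [one_mul, map_one, one_mul]
      apply hL.fpf _ (hmem u hu z hz) v hv0 hev
      rw [commutatorElement_def, map_mul, map_mul, map_mul]
      change ρ u (ρ z (ρ u⁻¹ (ρ z⁻¹ v))) = v
      rw [hfixinv z v hzv, hfixinv u v huv, hzv, huv]
    by_contra hno
    have n1 : ∃ u ∈ J, ρ u v1 = v1 ∧ ∃ w ∈ N, ¬ SqV ρ N e ⁅u, w⁆ := by
      by_contra hn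
      push Not at hn
      exact hno ⟨v1, hv10, hev1, fun u hu huv w hw => hn u hu huv w hw⟩
    have n2 : ∃ u ∈ J, ρ u v2 = v2 ∧ ∃ w ∈ N, ¬ SqV ρ N e ⁅u, w⁆ := by
      by_contra hn
      push Not at hn
      exact hno ⟨v2, hv20, hev2, fun u hu huv w hw => hn u hu huv w hw⟩
    obtain ⟨u1, hu1, huv1, w1, hw1, hs1⟩ := n1
    obtain ⟨u2, hu2, huv2, w2, hw2, hs2⟩ := n2
    have c1 := claim v1 y1 u1 hv10 hev1 hy1N (hJN hu1) hyv1 huv1
    have c2 := claim v2 y2 u2 hv20 hev2 hy2N (hJN hu2) hyv2 huv2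
    have d1 := hB u1 (hJN hu1) y1 hy1N c1 ⟨w1, hw1, hs1⟩ ⟨y2, hy2N, hns⟩
    have hns' : ¬ SqV ρ N e ⁅y2, y1⁆ := fun h => hns ((hsymm y1 hy1N y2 hy2N).2 h)
    have d2 := hB u2 (hJN hu2) y2 hy2N c2 ⟨w2, hw2, hs2⟩ ⟨y1, hy1N, hns'⟩
    apply hns'
    rw [← d2 y1 hy1N, ← hsymm y1 hy1N u2 (hJN hu2), ← d1 u2 (hJN hu2)]
    exact hJ u1 hu1 u2 hu2

end Pool.Agent.Helper218.NV
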