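import Pool.Agent.Helper218.NV.Defs



namespace Pool.Agent.Helper218.NV
open scoped BigOperators commutatorElement


theorem iso_lemma {G I : Type} [Group G] (s : Finset I) (B : I → G → G → ZMod 2)
    (R : I → Subgroup G) (P : I → Set (Subgroup G))
    (hR : ∀ i ∈ s, ∀ u ∈ R i, ∀ v : G, B i u v = 0)
    (hsum : ∀ u v : G, ∑ i ∈ s, B i u v = 0)
    (hL : ∀ i ∈ s, ∀ J : Subgroup G, (∀ u ∈ J, ∀ v ∈ J, B i u v = 0) →
      ∃ L ∈ P i, (∀ u ∈ L, ∀ v ∈ L, B i u v = 0) ∧ ∀ u ∈ J, u ∈ L → u ∈ R i) :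
    ∃ L : I → Subgroup G, (∀ i ∈ s, L i ∈ P i) ∧
      ∀ u : G, (∀ i ∈ s, u ∈ L i) → ∀ i ∈ s, u ∈ R i := by
  classical
  have key : ∀ t : Finset I, t ⊆ s → ∃ L : I → Subgroup G,
      (∀ i ∈ t, L i ∈ P i ∧ ∀ u ∈ L i, ∀ v ∈ L i, B i u v = 0) ∧
      ∀ u : G, (∀ i ∈ t, u ∈ L i) → (∀ i ∈ s, i ∉ t → u ∈ R i) → ∀ i ∈ t, u ∈ R i := by
    intro t
    induction t using Finset.induction_on with
    | empty => exact fun _ => ⟨fun _ => ⊤, by simp, by simp⟩
    | insert i0 t hi0 ih =>
      intro hts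
      have hi0s : i0 ∈ s := hts (Finset.mem_insert_self _ _)
      obtain ⟨L, hL1, hL2⟩ := ih ((Finset.subset_insert i0 t).trans hts)
      let J : Subgroup G :=
        { carrier := {u | (∀ i ∈ t, u ∈ L i) ∧ (∀ i ∈ s, i ∉ insert i0 t → u ∈ R i)}
          one_mem' := ⟨fun i _ => (L i).one_mem, fun i _ _ => (R i).one_mem⟩
          mul_mem' := fun {a b} ha hb =>
            ⟨fun i hi => (L i).mul_mem (ha.1 i hi) (hb.1 i hi),
              fun i hi hi' => (R i).mul_mem (ha.2 i hi hi') (hb.2 i hi hi')⟩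
          inv_mem' := fun {a} ha =>
            ⟨fun i hi => (L i).inv_mem (ha.1 i hi), fun i hi hi' => (R i).inv_mem (ha.2 i hi hi')⟩ }
      have hJ : ∀ u : G, u ∈ J ↔ (∀ i ∈ t, u ∈ L i) ∧ (∀ i ∈ s, i ∉ insert i0 t → u ∈ R i) :=
        fun u => Iff.rfl
      have hJB : ∀ u ∈ J, ∀ v ∈ J, B i0 u v = 0 := by
        intro u hu v hv
        rw [hJ] at hu hv
        have h1 := hsum u v
        rw [Finset.sum_eq_single i0] at h1
        · exact h1
        · intro i hi hne
          by_cases hit : i ∈ t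
          · exact (hL1 i hit).2 u (hu.1 i hit) v (hv.1 i hit)
          · exact hR i hi u (hu.2 i hi (by simp [hne, hit])) v
        · exact fun h => absurd hi0s h
      obtain ⟨L0, hL0P, hL0B, hL0R⟩ := hL i0 hi0s J hJB
      refine ⟨Function.update L i0 L0, ?_, ?_⟩
      · intro i hi
        by_cases hii : i = i0
        · subst hii
          rw [Function.update_self]
          exact ⟨hL0P, hL0B⟩
        · rw [Function.update_of_ne hii]
          exact hL1 i ((Finset.mem_insert.1 hi).resolve_left hii)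
      · intro u hu1 hu2
        have hut : ∀ i ∈ t, u ∈ L i := by
          intro i hi
          have h1 := hu1 i (Finset.mem_insert_of_mem hi)
          rwa [Function.update_of_ne] at h1
          rintro rfl
          exact hi0 hi
        have hu0 : u ∈ L0 := by
          have h1 := hu1 i0 (Finset.mem_insert_self _ _)
          rwa [Function.update_self] at h1
        have huR : u ∈ R i0 := hL0R u ((hJ u).2 ⟨hut, hu2⟩) hu0
        intro i hi
        rcases Finset.mem_insert.1 hi with rfl | hi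
        · exact huR
        · refine hL2 u hut ?_ i hi
          intro j hj hjt
          by_cases hj0 : j = i0
          · subst hj0
            exact huR
          · exact hu2 j hj (by simp [hj0, hjt])
  obtain ⟨L, hL1, hL2⟩ := key s (Finset.Subset.refl s)
  exact ⟨L, fun i hi => (hL1 i hi).1, fun u hu => hL2 u hu fun i hi hi' => absurd hi hi'⟩

end Pool.Agent.Helper218.NV
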