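import Pool.Agent.Helper218.NV.Defs
import Pool.Agent.Helper218.NV.P_bf_hom
import Pool.Agent.Helper218.NV.P_bf_bilin
import Pool.Agent.Helper218.NV.P_bf_conj



namespace Pool.Agent.Helper218.NV
open scoped BigOperators commutatorElement


/-- sign -/
def sumz_sgn (a : ZMod 2) : ℤˣ := if a = 0 then 1 else -1

theorem sumz_sgn_add : ∀ a b : ZMod 2, sumz_sgn (a + b) = sumz_sgn a * sumz_sgn b := by
  unfold sumz_sgn; decide

theorem sumz_sgn_one : ∀ a : ZMod 2, sumz_sgn a = 1 → a = 0 := by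
  unfold sumz_sgn; decide

theorem sumz_conj {H : Type} [Group H] {q : ℕ} [Fact q.Prime]
    {V : Type} [AddCommGroup V] [Module (ZMod q) V]
    (ρ : Representation (ZMod q) H V) (E : Finset (Module.End (ZMod q) V)) (hE : Dec ρ E)
    (N : Subgroup H) (hNn : N.Normal) (h c : H) :
    ∑ e ∈ E, Bf ρ N e (h * c * h⁻¹) = ∑ e ∈ E, Bf ρ N e c := by
  have h1 : ρ h * ρ h⁻¹ = 1 := by rw [← map_mul, mul_inv_cancel, map_one]
  have h2 : ρ h⁻¹ * ρ h = 1 := by rw [← map_mul, inv_mul_cancel, map_one]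
  have h3 : ∀ e, ρ h * (ρ h⁻¹ * e * ρ h) * ρ h⁻¹ = e := by
    intro e
    calc ρ h * (ρ h⁻¹ * e * ρ h) * ρ h⁻¹ = (ρ h * ρ h⁻¹) * e * (ρ h * ρ h⁻¹) := by
          simp only [mul_assoc]
      _ = e := by rw [h1, one_mul, mul_one]
  have h4 : ∀ e, ρ h⁻¹ * (ρ h * e * ρ h⁻¹) * ρ h = e := by
    intro e
    calc ρ h⁻¹ * (ρ h * e * ρ h⁻¹) * ρ h = (ρ h⁻¹ * ρ h) * e * (ρ h⁻¹ * ρ h) := by
          simp only [mul_assoc]
      _ = e := by rw [h2, one_mul, mul_one]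
  refine Finset.sum_nbij' (fun e => ρ h⁻¹ * e * ρ h) (fun e => ρ h * e * ρ h⁻¹) ?_ ?_ ?_ ?_ ?_
  · intro e he
    have := hE.inv h⁻¹ e he
    rwa [inv_inv] at this
  · intro e he
    exact hE.inv h e he
  · intro e _; exact h3 e
  · intro e _; exact h4 e
  · intro e _
    have := bf_conj ρ N hNn (ρ h⁻¹ * e * ρ h) h c
    rw [h3] at this
    exact this

theorem sum_zero {H : Type} [Group H] [Finite H] {q : ℕ} [Fact q.Prime]
    {V : Type} [AddCommGroup V] [Module (ZMod q) V] [Finite V]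
    (ρ : Representation (ZMod q) H V) (E : Finset (Module.End (ZMod q) V)) (hE : Dec ρ E)
    (N : Subgroup H) (hNn : N.Normal) (y : H) (hy : Subgroup.normalClosure {y} = N)
    (hc : ∀ n ∈ N, ∀ e ∈ E, ρ n * e = e * ρ n) (hL : ∀ e ∈ E, Loc2V ρ N e)
    (hS : ∀ ν : (⁅N, N⁆ : Subgroup H) →* ℤˣ,
      (∀ (g : H) (c : (⁅N, N⁆ : Subgroup H)), ν (MulAut.conjNormal g c) = ν c) →
      ∀ b ∈ N, ∀ hb : ⁅y, b⁆ ∈ ⁅N, N⁆, ν ⟨⁅y, b⁆, hb⟩ = 1) :
    ∀ u ∈ N, ∀ v ∈ N, ∑ e ∈ E, Bf ρ N e ⁅u, v⁆ = 0 := by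
  have hadd : ∀ c ∈ ⁅N, N⁆, ∀ c' ∈ ⁅N, N⁆, ∑ e ∈ E, Bf ρ N e (c * c') =
      ∑ e ∈ E, Bf ρ N e c + ∑ e ∈ E, Bf ρ N e c' := by
    intro c hcN c' hc'N
    rw [← Finset.sum_add_distrib]
    refine Finset.sum_congr rfl fun e he => ?_
    exact bf_hom ρ N hNn e (fun n hn => hc n hn e he) (hL e he) c hcN c' hc'N
  have hone : ∑ e ∈ E, Bf ρ N e 1 = 0 := by
    have h1 := hadd 1 (Subgroup.one_mem _) 1 (Subgroup.one_mem _)
    rw [mul_one] at h1
    have h2 := congrArg (fun t => t - ∑ e ∈ E, Bf ρ N e 1) h1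
    simpa using h2.symm
  let ν : (⁅N, N⁆ : Subgroup H) →* ℤˣ :=
    { toFun := fun c => sumz_sgn (∑ e ∈ E, Bf ρ N e (c : H))
      map_one' := by
        show sumz_sgn (∑ e ∈ E, Bf ρ N e 1) = 1
        rw [hone]; rfl
      map_mul' := by
        intro c c'
        show sumz_sgn (∑ e ∈ E, Bf ρ N e ((c : H) * c')) = _
        rw [hadd _ c.2 _ c'.2, sumz_sgn_add] }
  have hν : ∀ c : (⁅N, N⁆ : Subgroup H), ν c = sumz_sgn (∑ e ∈ E, Bf ρ N e (c : H)) := fun c => rfl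
  have hyN : y ∈ N := by
    rw [← hy]; exact Subgroup.subset_normalClosure (Set.mem_singleton y)
  have hy0 : ∀ b ∈ N, ∑ e ∈ E, Bf ρ N e ⁅y, b⁆ = 0 := by
    intro b hb
    have hcm : ⁅y, b⁆ ∈ ⁅N, N⁆ := Subgroup.commutator_mem_commutator hyN hb
    have h1 := hS ν (fun g c => by
      rw [hν, hν, MulAut.conjNormal_apply, sumz_conj ρ E hE N hNn]) b hb hcm
    rw [hν] at h1
    exact sumz_sgn_one _ h1
  have hmul : ∀ u ∈ N, ∀ u' ∈ N, ∀ v ∈ N, ∑ e ∈ E, Bf ρ N e ⁅u * u', v⁆ =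
      ∑ e ∈ E, Bf ρ N e ⁅u, v⁆ + ∑ e ∈ E, Bf ρ N e ⁅u', v⁆ := by
    intro u hu u' hu' v hv
    rw [← Finset.sum_add_distrib]
    refine Finset.sum_congr rfl fun e he => ?_
    exact (bf_bilin ρ N hNn e (fun n hn => hc n hn e he) (hL e he)).1 u hu u' hu' v hv
  have key : ∀ u ∈ Subgroup.closure (Group.conjugatesOfSet {y}),
      u ∈ N ∧ ∀ v ∈ N, ∑ e ∈ E, Bf ρ N e ⁅u, v⁆ = 0 := by
    intro u hu
    induction hu using Subgroup.closure_induction with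
    | mem x hx =>
      rw [Group.mem_conjugatesOfSet_iff] at hx
      obtain ⟨a, ha, hax⟩ := hx
      rw [Set.mem_singleton_iff] at ha
      subst ha
      obtain ⟨g, rfl⟩ := isConj_iff.mp hax
      refine ⟨hNn.conj_mem _ hyN g, fun v hv => ?_⟩
      have e1 : ⁅g * a * g⁻¹, v⁆ = g * ⁅a, g⁻¹ * v * g⁆ * g⁻¹ := by
        simp only [commutatorElement_def]
        group
      rw [e1, sumz_conj ρ E hE N hNn]
      exact hy0 _ (by simpa using hNn.conj_mem v hv g⁻¹)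
    | one =>
      refine ⟨N.one_mem, fun v hv => ?_⟩
      rw [commutatorElement_one_left]
      exact hone
    | mul x x' _ _ hx hx' =>
      refine ⟨N.mul_mem hx.1 hx'.1, fun v hv => ?_⟩
      rw [hmul x hx.1 x' hx'.1 v hv, hx.2 v hv, hx'.2 v hv, add_zero]
    | inv x _ hx =>
      refine ⟨N.inv_mem hx.1, fun v hv => ?_⟩
      have h1 := hmul x⁻¹ (N.inv_mem hx.1) x hx.1 v hv
      rw [inv_mul_cancel, commutatorElement_one_left, hone, hx.2 v hv, add_zero] at h1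
      exact h1.symm
  intro u hu
  have hu' : u ∈ Subgroup.closure (Group.conjugatesOfSet {y}) := by
    rw [← hy] at hu
    exact hu
  exact (key u hu').2

end Pool.Agent.Helper218.NV
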