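import Pool.Agent.Helper218.NV.Defs
import Pool.Agent.Helper218.NV.P_dec_exists
import Pool.Agent.Helper218.NV.P_block_fix
import Pool.Agent.Helper218.NV.P_block_loc2V
import Pool.Agent.Helper218.NV.P_bf_bilin
import Pool.Agent.Helper218.NV.P_bf_conj
import Pool.Agent.Helper218.NV.P_sum_zero
import Pool.Agent.Helper218.NV.P_iso_lemma
import Pool.Agent.Helper218.NV.P_rad_proper
import Pool.Agent.Helper218.NV.P_choose_lemma



namespace Pool.Agent.Helper218.NV
open scoped BigOperators commutatorElement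


theorem key_two_bf {H : Type} [Group H] {q : ℕ} {V : Type} [AddCommGroup V] [Module (ZMod q) V]
    (ρ : Representation (ZMod q) H V) (N : Subgroup H) (e : Module.End (ZMod q) V) (c : H) :
    Bf ρ N e c = 0 ↔ SqV ρ N e c := by
  unfold Bf
  split_ifs with h
  · simp [h]
  · simp [h]

theorem key_two_sq_one {H : Type} [Group H] {q : ℕ} {V : Type} [AddCommGroup V]
    [Module (ZMod q) V] (ρ : Representation (ZMod q) H V) (N : Subgroup H)
    (e : Module.End (ZMod q) V) (c : H) (h : ρ c * e = e) : SqV ρ N e c :=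
  ⟨1, Subgroup.one_mem _, by rw [mul_one, map_one, one_mul]; exact h⟩

/-- the condition defining the radical -/
def key_two_Rp {H : Type} [Group H] {q : ℕ} {V : Type} [AddCommGroup V] [Module (ZMod q) V]
    (ρ : Representation (ZMod q) H V) (N : Subgroup H) (e : Module.End (ZMod q) V) (n : H) : Prop :=
  ((∀ u ∈ N, ∀ v ∈ N, ρ u * ρ v * e = ρ v * ρ u * e) → ρ n * e = e) ∧
  ((¬ ∀ u ∈ N, ∀ v ∈ N, ρ u * ρ v * e = ρ v * ρ u * e) → ∀ w ∈ N, SqV ρ N e ⁅n, w⁆)

theorem key_two_sub {H : Type} [Group H] {q : ℕ} {V : Type} [AddCommGroup V] [Module (ZMod q) V]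
    (ρ : Representation (ZMod q) H V) (N : Subgroup H) (hNn : N.Normal)
    (e : Module.End (ZMod q) V) (hc : ∀ n ∈ N, ρ n * e = e * ρ n) (hL : Loc2V ρ N e) :
    ∃ S : Subgroup H, ∀ n, n ∈ S ↔ n ∈ N ∧ key_two_Rp ρ N e n := by
  obtain ⟨hb1, -, -⟩ := bf_bilin ρ N hNn e hc hL
  have hone : ∀ w : H, Bf ρ N e ⁅(1 : H), w⁆ = 0 := by
    intro w
    rw [key_two_bf]
    apply key_two_sq_one
    rw [commutatorElement_one_left, map_one, one_mul]
  refine ⟨{ carrier := {n | n ∈ N ∧ key_two_Rp ρ N e n}, mul_mem' := ?_, one_mem' := ?_,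
            inv_mem' := ?_ }, fun n => Iff.rfl⟩
  · rintro a b ⟨ha, ha1, ha2⟩ ⟨hb, hb3, hb2⟩
    refine ⟨N.mul_mem ha hb, ?_, ?_⟩
    · intro hab
      rw [map_mul, mul_assoc, hb3 hab, ha1 hab]
    · intro hab w hw
      rw [← key_two_bf, hb1 a ha b hb w hw, (key_two_bf ρ N e _).mpr (ha2 hab w hw),
        (key_two_bf ρ N e _).mpr (hb2 hab w hw), add_zero]
  · refine ⟨N.one_mem, ?_, ?_⟩
    · intro _
      rw [map_one, one_mul]
    · intro _ w _
      exact (key_two_bf ρ N e _).mp (hone w)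
  · rintro a ⟨ha, ha1, ha2⟩
    refine ⟨N.inv_mem ha, ?_, ?_⟩
    · intro hab
      have h1 := ha1 hab
      calc ρ a⁻¹ * e = ρ a⁻¹ * (ρ a * e) := by rw [h1]
        _ = ρ (a⁻¹ * a) * e := by rw [map_mul, mul_assoc]
        _ = e := by rw [inv_mul_cancel, map_one, one_mul]
    · intro hab w hw
      have h1 := hb1 a ha a⁻¹ (N.inv_mem ha) w hw
      rw [mul_inv_cancel, hone, (key_two_bf ρ N e _).mpr (ha2 hab w hw), zero_add] at h1
      exact (key_two_bf ρ N e _).mp h1.symm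

theorem key_two_conj {H : Type} [Group H] {q : ℕ} {V : Type} [AddCommGroup V]
    [Module (ZMod q) V] (ρ : Representation (ZMod q) H V) (N : Subgroup H) (hNn : N.Normal)
    (e : Module.End (ZMod q) V) (h n : H) (hR : key_two_Rp ρ N e n) :
    key_two_Rp ρ N (ρ h * e * ρ h⁻¹) (h * n * h⁻¹) := by
  have hhi : ρ h⁻¹ * ρ h = 1 := by rw [← map_mul, inv_mul_cancel, map_one]
  have hhi' : ρ h * ρ h⁻¹ = 1 := by rw [← map_mul, mul_inv_cancel, map_one]
  have habiff : (∀ u ∈ N, ∀ v ∈ N, ρ u * ρ v * e = ρ v * ρ u * e) ↔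
      (∀ u ∈ N, ∀ v ∈ N, ρ u * ρ v * (ρ h * e * ρ h⁻¹) = ρ v * ρ u * (ρ h * e * ρ h⁻¹)) := by
    constructor
    · intro hab u hu v hv
      have hu' : h⁻¹ * u * h ∈ N := by
        have := hNn.conj_mem u hu h⁻¹
        rwa [inv_inv] at this
      have hv' : h⁻¹ * v * h ∈ N := by
        have := hNn.conj_mem v hv h⁻¹
        rwa [inv_inv] at this
      have key := hab _ hu' _ hv'
      have e1 : ∀ a b : H, ρ a * ρ b * (ρ h * e * ρ h⁻¹) =
          ρ h * (ρ (h⁻¹ * a * h) * ρ (h⁻¹ * b * h) * e) * ρ h⁻¹ := by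
        intro a b
        have e2 : ρ h * (ρ (h⁻¹ * a * h) * ρ (h⁻¹ * b * h)) = ρ a * ρ b * ρ h := by
          rw [← map_mul, ← map_mul, ← map_mul, ← map_mul]
          congr 1
          group
        calc ρ a * ρ b * (ρ h * e * ρ h⁻¹) = (ρ a * ρ b * ρ h) * e * ρ h⁻¹ := by
              simp only [mul_assoc]
          _ = (ρ h * (ρ (h⁻¹ * a * h) * ρ (h⁻¹ * b * h))) * e * ρ h⁻¹ := by rw [e2]
          _ = _ := by simp only [mul_assoc]
      rw [e1, e1, key]
    · intro hab u hu v hv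
      have key := hab _ (hNn.conj_mem u hu h) _ (hNn.conj_mem v hv h)
      have e1 : ∀ a b : H, ρ h⁻¹ * (ρ (h * a * h⁻¹) * ρ (h * b * h⁻¹) * (ρ h * e * ρ h⁻¹)) * ρ h =
          ρ a * ρ b * e := by
        intro a b
        have e2 : ρ h⁻¹ * (ρ (h * a * h⁻¹) * ρ (h * b * h⁻¹)) * ρ h = ρ a * ρ b := by
          rw [← map_mul, ← map_mul, ← map_mul, ← map_mul]
          congr 1
          group
        calc ρ h⁻¹ * (ρ (h * a * h⁻¹) * ρ (h * b * h⁻¹) * (ρ h * e * ρ h⁻¹)) * ρ h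
            = (ρ h⁻¹ * (ρ (h * a * h⁻¹) * ρ (h * b * h⁻¹)) * ρ h) * e * (ρ h⁻¹ * ρ h) := by
              simp only [mul_assoc]
          _ = ρ a * ρ b * e := by rw [e2, hhi, mul_one]
      rw [← e1 u v, ← e1 v u, key]
  constructor
  · intro hab
    have h1 := hR.1 (habiff.mpr hab)
    calc ρ (h * n * h⁻¹) * (ρ h * e * ρ h⁻¹)
        = ρ h * ρ n * (ρ h⁻¹ * ρ h) * e * ρ h⁻¹ := by
          rw [map_mul, map_mul]; simp only [mul_assoc]
      _ = ρ h * (ρ n * e) * ρ h⁻¹ := by rw [hhi, mul_one]; simp only [mul_assoc]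
      _ = ρ h * e * ρ h⁻¹ := by rw [h1]
  · intro hab w hw
    have h1 := hR.2 (fun hh => hab (habiff.mp hh))
    have hw' : h⁻¹ * w * h ∈ N := by
      have := hNn.conj_mem w hw h⁻¹
      rwa [inv_inv] at this
    have h2 := h1 _ hw'
    rw [← key_two_bf] at h2 ⊢
    have e3 : ⁅h * n * h⁻¹, w⁆ = h * ⁅n, h⁻¹ * w * h⁆ * h⁻¹ := by
      simp only [commutatorElement_def]
      group
    rw [e3, bf_conj ρ N hNn e h]
    exact h2

theorem key_two_stab {H : Type} [Group H] {q : ℕ} {V : Type} [AddCommGroup V]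
    [Module (ZMod q) V] (ρ : Representation (ZMod q) H V) (N : Subgroup H) (v : V) :
    ∃ L : Subgroup N, ∀ n : N, n ∈ L ↔ ρ (n : H) v = v := by
  refine ⟨{ carrier := {n | ρ (n : H) v = v}, mul_mem' := ?_, one_mem' := ?_, inv_mem' := ?_ },
    fun n => Iff.rfl⟩
  · intro a b ha hb
    show ρ ((a * b : N) : H) v = v
    rw [Subgroup.coe_mul, map_mul]
    show ρ (a : H) (ρ (b : H) v) = v
    rw [show ρ (b : H) v = v from hb]
    exact ha
  · show ρ ((1 : N) : H) v = v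
    rw [Subgroup.coe_one, map_one]
    rfl
  · intro a ha
    show ρ ((a⁻¹ : N) : H) v = v
    have h1 : ρ (a : H) v = v := ha
    have h2 : ρ ((a : H)⁻¹) (ρ (a : H) v) = v := by
      have : (ρ ((a : H)⁻¹) * ρ (a : H)) v = v := by
        rw [← map_mul, inv_mul_cancel, map_one]; rfl
      exact this
    rw [h1] at h2
    exact h2

theorem key_two {H : Type} [Group H] [Finite H] {q : ℕ} [Fact q.Prime] (hq : q ≠ 2)
    {V : Type} [AddCommGroup V] [Module (ZMod q) V] [Finite V]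
    (ρ : Representation (ZMod q) H V) (N : Subgroup H) (hNn : N.Normal) (hN : IsPGroup 2 N)
    (y : H) (hy : Subgroup.normalClosure {y} = N)
    (hfix : ∀ v : V, ∃ g : H, ρ (g * y * g⁻¹) v = v)
    (hS : ∀ ν : (⁅N, N⁆ : Subgroup H) →* ℤˣ,
      (∀ (g : H) (c : (⁅N, N⁆ : Subgroup H)), ν (MulAut.conjNormal g c) = ν c) →
      ∀ b ∈ N, ∀ hb : ⁅y, b⁆ ∈ ⁅N, N⁆, ν ⟨⁅y, b⁆, hb⟩ = 1) : ρ y = 1 := by
  classical
  obtain ⟨E, hE⟩ := dec_exists ρ
  haveI : Fact (Nat.Prime 2) := ⟨Nat.prime_two⟩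
  have hc : ∀ n ∈ N, ∀ e ∈ E, ρ n * e = e * ρ n := block_fix ρ E hE 2 N hN y hy hfix
  have hL : ∀ e ∈ E, Loc2V ρ N e := block_loc2V hq ρ E hE N hNn hN hc
  have hsum := sum_zero ρ E hE N hNn y hy hc hL hS
  have hRex : ∀ e ∈ E, ∃ S : Subgroup H, ∀ n, n ∈ S ↔ n ∈ N ∧ key_two_Rp ρ N e n :=
    fun e he => key_two_sub ρ N hNn e (fun n hn => hc n hn e he) (hL e he)
  choose! Rs hRs using hRex
  -- abelian blocks: commutators act trivially
  have habB : ∀ e : Module.End (ZMod q) V,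
      (∀ u ∈ N, ∀ v ∈ N, ρ u * ρ v * e = ρ v * ρ u * e) →
      ∀ u ∈ N, ∀ v ∈ N, ρ ⁅u, v⁆ * e = e := by
    intro e hab u hu v hv
    have h1 := hab u⁻¹ (N.inv_mem hu) v⁻¹ (N.inv_mem hv)
    calc ρ ⁅u, v⁆ * e = ρ u * ρ v * (ρ u⁻¹ * ρ v⁻¹ * e) := by
          rw [commutatorElement_def, map_mul, map_mul, map_mul]; simp only [mul_assoc]
      _ = ρ u * ρ v * (ρ v⁻¹ * ρ u⁻¹ * e) := by rw [h1]
      _ = ρ (u * v * v⁻¹ * u⁻¹) * e := by
          rw [map_mul, map_mul, map_mul]; simp only [mul_assoc]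
      _ = e := by
          rw [mul_inv_cancel_right, mul_inv_cancel, map_one, one_mul]
  obtain ⟨L, hLP, hLR⟩ := iso_lemma (G := N) E (fun e u v => Bf ρ N e ⁅(u : H), (v : H)⁆)
    (fun e => (Rs e).subgroupOf N)
    (fun e => {L : Subgroup N | ∃ v : V, v ≠ 0 ∧ e v = v ∧ ∀ n : N, n ∈ L ↔ ρ (n : H) v = v})
    (by
      intro e he u hu v
      rw [Subgroup.mem_subgroupOf, hRs e he] at hu
      rw [key_two_bf]
      by_cases hab : ∀ u ∈ N, ∀ v ∈ N, ρ u * ρ v * e = ρ v * ρ u * e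
      · exact key_two_sq_one ρ N e _ (habB e hab _ u.2 _ v.2)
      · exact hu.2.2 hab _ v.2)
    (fun u v => hsum _ u.2 _ v.2)
    (by
      intro e he J hJ
      by_cases hab : ∀ u ∈ N, ∀ v ∈ N, ρ u * ρ v * e = ρ v * ρ u * e
      · obtain ⟨w, hw⟩ : ∃ w, e w ≠ 0 := by
          by_contra hall
          push Not at hall
          exact hE.ne e he (LinearMap.ext hall)
        have hew : e (e w) = e w := by
          have := congrArg (fun f : Module.End (ZMod q) V => f w) (hE.idem e he)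
          exact this
        obtain ⟨L, hL1⟩ := key_two_stab ρ N (e w)
        refine ⟨L, ⟨e w, hw, hew, hL1⟩, ?_, ?_⟩
        · intro u _ v _
          rw [key_two_bf]
          exact key_two_sq_one ρ N e _ (habB e hab _ u.2 _ v.2)
        · intro u _ huL
          rw [Subgroup.mem_subgroupOf, hRs e he]
          refine ⟨u.2, fun _ => ?_, fun hn => absurd hab hn⟩
          exact (hL e he).ab hab u u.2 (e w) hw hew ((hL1 u).mp huL)
      · obtain ⟨v, hv0, hev, hv⟩ := choose_lemma hq ρ E hE N hNn hN y hy hc hfix e he (hL e he) hab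
          (J.map N.subtype) (by rintro _ ⟨x, _, rfl⟩; exact x.2)
          (by
            rintro _ ⟨u, hu, rfl⟩ _ ⟨v, hv, rfl⟩
            exact (key_two_bf ρ N e _).mp (hJ u hu v hv))
        obtain ⟨L, hL1⟩ := key_two_stab ρ N v
        refine ⟨L, ⟨v, hv0, hev, hL1⟩, ?_, ?_⟩
        · intro u hu u' hu'
          rw [key_two_bf]
          apply key_two_sq_one
          have hmem : ⁅(u : H), (u' : H)⁆ ∈ ⁅N, N⁆ := Subgroup.commutator_mem_commutator u.2 u'.2
          refine (hL e he).fpf _ hmem v hv0 hev ?_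
          have h3 : ⁅u, u'⁆ ∈ L := by
            rw [commutatorElement_def]
            exact L.mul_mem (L.mul_mem (L.mul_mem hu hu') (L.inv_mem hu)) (L.inv_mem hu')
          have h4 := (hL1 _).mp h3
          exact h4
        · intro u huJ huL
          rw [Subgroup.mem_subgroupOf, hRs e he]
          refine ⟨u.2, fun hn => absurd hn hab, fun _ => ?_⟩
          exact hv u ⟨u, huJ, rfl⟩ ((hL1 u).mp huL))
  have hLP' : ∀ e ∈ E, ∃ v : V, v ≠ 0 ∧ e v = v ∧ ∀ n : N, n ∈ L e ↔ ρ (n : H) v = v :=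
    fun e he => hLP e he
  choose! vv hv0 hve hvL using hLP'
  set w : V := ∑ e ∈ E, vv e with hw
  have hew : ∀ e ∈ E, e w = vv e := by
    intro e he
    rw [hw, map_sum, Finset.sum_eq_single e]
    · exact hve e he
    · intro f hf hfe
      have h1 : e (vv f) = (e * f) (vv f) := by
        show e (vv f) = e (f (vv f))
        rw [hve f hf]
      rw [h1, hE.orth e he f hf (Ne.symm hfe)]
      rfl
    · intro h; exact absurd he h
  have hyN : y ∈ N := by
    rw [← hy]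
    exact Subgroup.subset_normalClosure (Set.mem_singleton y)
  obtain ⟨g, hg⟩ := hfix w
  have huN : g * y * g⁻¹ ∈ N := hNn.conj_mem y hyN g
  have huL : ∀ e ∈ E, (⟨g * y * g⁻¹, huN⟩ : N) ∈ L e := by
    intro e he
    rw [hvL e he]
    show ρ (g * y * g⁻¹) (vv e) = vv e
    rw [← hew e he]
    have h1 : (ρ (g * y * g⁻¹) * e) w = (e * ρ (g * y * g⁻¹)) w := by rw [hc _ huN e he]
    calc ρ (g * y * g⁻¹) (e w) = e (ρ (g * y * g⁻¹) w) := h1
      _ = e w := by rw [hg]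
  have huR := hLR _ huL
  -- the intersection of the radicals is normal
  let K : Subgroup H := ⨅ e ∈ E, Rs e
  have hK : ∀ n, n ∈ K ↔ ∀ e ∈ E, n ∈ N ∧ key_two_Rp ρ N e n := by
    intro n
    simp only [K, Subgroup.mem_iInf]
    constructor
    · intro h e he
      exact (hRs e he n).mp (h e he)
    · intro h e he
      exact (hRs e he n).mpr (h e he)
  have hKconj : ∀ n ∈ K, ∀ h : H, h * n * h⁻¹ ∈ K := by
    intro n hn h
    rw [hK] at hn ⊢
    intro e he
    have he' := hE.inv h⁻¹ e he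
    rw [inv_inv] at he'
    obtain ⟨h1, h2⟩ := hn _ he'
    refine ⟨hNn.conj_mem n h1 h, ?_⟩
    have h3 := key_two_conj ρ N hNn _ h n h2
    have e4 : ρ h * (ρ h⁻¹ * e * ρ h) * ρ h⁻¹ = e := by
      have hhi' : ρ h * ρ h⁻¹ = 1 := by rw [← map_mul, mul_inv_cancel, map_one]
      calc ρ h * (ρ h⁻¹ * e * ρ h) * ρ h⁻¹ = (ρ h * ρ h⁻¹) * e * (ρ h * ρ h⁻¹) := by
            simp only [mul_assoc]
        _ = e := by rw [hhi', one_mul, mul_one]
    rwa [e4] at h3
  have huK : g * y * g⁻¹ ∈ K := by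
    rw [hK]
    intro e he
    have := huR e he
    rw [Subgroup.mem_subgroupOf, hRs e he] at this
    exact this
  have hyK : y ∈ K := by
    have := hKconj _ huK g⁻¹
    have e5 : g⁻¹ * (g * y * g⁻¹) * g⁻¹⁻¹ = y := by group
    rwa [e5] at this
  haveI hKn : K.Normal := ⟨hKconj⟩
  have hNK : N ≤ K := by
    rw [← hy]
    exact Subgroup.normalClosure_le_normal (by
      intro z hz
      rw [Set.mem_singleton_iff] at hz
      rw [hz]; exact hyK)
  have hallab : ∀ e ∈ E, ∀ u ∈ N, ∀ v ∈ N, ρ u * ρ v * e = ρ v * ρ u * e := by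
    intro e he
    by_contra hnab
    obtain ⟨u, hu, v, hv, huv⟩ := rad_proper ρ N hNn hN e (fun n hn => hc n hn e he) (hL e he) hnab
    exact huv (((hK u).mp (hNK hu) e he).2.2 hnab v hv)
  have hye : ∀ e ∈ E, ρ y * e = e := fun e he => ((hK y).mp hyK e he).2.1 (hallab e he)
  calc ρ y = ρ y * ∑ e ∈ E, e := by rw [hE.sum, mul_one]
    _ = ∑ e ∈ E, e := by
        rw [Finset.mul_sum]
        exact Finset.sum_congr rfl hye
    _ = 1 := hE.sum

end Pool.Agent.Helper218.NV
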