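import Pool.Agent.Helper218.NV.Defs
import Pool.Agent.Helper218.NV.P_exists_irr_over



namespace Pool.Agent.Helper218.NV
open scoped BigOperators commutatorElement


theorem nv_comm {G : Type} [Group G] [Finite G] (x : G) (hx : Nonvanishing x) (C : Subgroup G)
    [C.Normal] (ν : C →* ℂˣ) (hν : ∀ g : G, ∀ c : C, ν (MulAut.conjNormal g c) = ν c)
    (b : G) (hb : ⁅x, b⁆ ∈ C) : ν ⟨⁅x, b⁆, hb⟩ = 1 := by
  obtain ⟨V, i1, i2, i3, ρ, hirr, hspan⟩ := exists_irr_over C ν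
  have key : ∀ c : C, ∀ v : V, ρ (c : G) v = ((ν c : ℂˣ) : ℂ) • v := by
    intro c v
    have hv : v ∈ Submodule.span ℂ {v : V | ∃ g : G, ∀ n : C,
        ρ (n : G) v = ((ν (MulAut.conjNormal g⁻¹ n) : ℂˣ) : ℂ) • v} := by rw [hspan]; trivial
    induction hv using Submodule.span_induction with
    | mem v h =>
      obtain ⟨g, hg⟩ := h
      rw [hg c, hν]
    | zero => simp
    | add a b _ _ ha hb => rw [map_add, ha, hb, smul_add]
    | smul t a _ ha => rw [map_smul, ha, smul_comm]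
  have hne := hx V ρ hirr
  have e : x = ((⟨⁅x, b⁆, hb⟩ : C) : G) * (b * x * b⁻¹) := by
    simp only [commutatorElement_def]; group
  have h1 : ρ x = ((ν ⟨⁅x, b⁆, hb⟩ : ℂˣ) : ℂ) • ρ (b * x * b⁻¹) := by
    conv_lhs => rw [e]
    rw [map_mul]
    ext v
    simp only [Module.End.mul_apply, LinearMap.smul_apply]
    exact key ⟨⁅x, b⁆, hb⟩ _
  have h2 : ρ.character x = ((ν ⟨⁅x, b⁆, hb⟩ : ℂˣ) : ℂ) * ρ.character x := by
    conv_lhs => rw [Representation.character, h1, map_smul, smul_eq_mul]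
    congr 1
    exact Representation.char_conj ρ x b
  have h3 : ((ν ⟨⁅x, b⁆, hb⟩ : ℂˣ) : ℂ) = 1 := by
    have : (((ν ⟨⁅x, b⁆, hb⟩ : ℂˣ) : ℂ) - 1) * ρ.character x = 0 := by
      rw [sub_mul, one_mul, ← h2, sub_self]
    rcases mul_eq_zero.1 this with h | h
    · exact sub_eq_zero.1 h
    · exact absurd h hne
  exact Units.ext h3

end Pool.Agent.Helper218.NV
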