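import Pool.Agent.Helper218.NV.Defs



namespace Pool.Agent.Helper218.NV
open scoped BigOperators commutatorElement


def nv_quot_iso {G H : Type} [Group G] [Group H] (f : G →* H) (hf : Function.Surjective f)
    {V : Type} [AddCommGroup V] [Module ℂ V] (ρ : Representation ℂ H V) :
    Subrepresentation (ρ.comp f : Representation ℂ G V) ≃o Subrepresentation ρ where
  toFun σ := ⟨σ.toSubmodule, fun h v hv => by
    obtain ⟨g, rfl⟩ := hf h
    exact σ.apply_mem_toSubmodule g hv⟩
  invFun σ := ⟨σ.toSubmodule, fun g v hv => σ.apply_mem_toSubmodule (f g) hv⟩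
  left_inv σ := rfl
  right_inv σ := rfl
  map_rel_iff' := Iff.rfl

theorem nv_quot {G H : Type} [Group G] [Group H] (f : G →* H) (hf : Function.Surjective f)
    (x : G) (hx : Nonvanishing x) : Nonvanishing (f x) := by
  intro V _ _ _ ρ hρ
  exact hx V (ρ.comp f : Representation ℂ G V)
    ((OrderIso.isSimpleOrder_iff (nv_quot_iso f hf ρ)).2 hρ)

end Pool.Agent.Helper218.NV
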