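import Pool.Agent.Helper218.NV.Defs



namespace Pool.Agent.Helper218.NV
open scoped BigOperators commutatorElement


theorem oq_trivial {G : Type} [Group G] [Finite G] (q : ℕ) [Fact q.Prime] (K L : Subgroup G)
    [hK : K.Normal] [hL : L.Normal] (hLK : L < K)
    (hch : ∀ M : Subgroup G, M.Normal → L ≤ M → M ≤ K → M = L ∨ M = K)
    (hexp : ∀ k ∈ K, k ^ q ∈ L) [hC : (cent K L).Normal]
    (P : Subgroup (G ⧸ cent K L)) (hPn : P.Normal) (hP : IsPGroup q P) : P = ⊥ := by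
  classical
  set P1 : Subgroup G := P.comap (QuotientGroup.mk' (cent K L)) with hP1
  have hP1n : P1.Normal := Subgroup.Normal.comap hPn _
  let M : Subgroup G :=
    { carrier := {k | k ∈ K ∧ ∀ g ∈ P1, g * k * g⁻¹ * k⁻¹ ∈ L}
      one_mem' := ⟨K.one_mem, fun g _ => by simp [L.one_mem]⟩
      mul_mem' := by
        rintro a b ⟨ha, ha'⟩ ⟨hb, hb'⟩
        refine ⟨K.mul_mem ha hb, fun g hg => ?_⟩
        have h1 := ha' g hg
        have h2 := hL.conj_mem _ (hb' g hg) a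
        have h3 := L.mul_mem h1 h2
        have e : g * (a * b) * g⁻¹ * (a * b)⁻¹ =
          (g * a * g⁻¹ * a⁻¹) * (a * (g * b * g⁻¹ * b⁻¹) * a⁻¹) := by group
        rw [e]; exact h3
      inv_mem' := by
        rintro a ⟨ha, ha'⟩
        refine ⟨K.inv_mem ha, fun g hg => ?_⟩
        have h1 := L.inv_mem (ha' g hg)
        have h2 := hL.conj_mem _ h1 a⁻¹
        have e : g * a⁻¹ * g⁻¹ * a⁻¹⁻¹ = a⁻¹ * (g * a * g⁻¹ * a⁻¹)⁻¹ * a⁻¹⁻¹ := by group
        rw [e]; exact h2 }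
  have hMmem : ∀ k, k ∈ M ↔ (k ∈ K ∧ ∀ g ∈ P1, g * k * g⁻¹ * k⁻¹ ∈ L) := fun k => Iff.rfl
  have hMn : M.Normal := by
    refine ⟨fun k hk h => ?_⟩
    rw [hMmem] at hk ⊢
    refine ⟨hK.conj_mem _ hk.1 h, fun g hg => ?_⟩
    have hg' : h⁻¹ * g * h ∈ P1 := by
      have := hP1n.conj_mem g hg h⁻¹
      simpa using this
    have h1 := hL.conj_mem _ (hk.2 _ hg') h
    have e : g * (h * k * h⁻¹) * g⁻¹ * (h * k * h⁻¹)⁻¹ =
      h * ((h⁻¹ * g * h) * k * (h⁻¹ * g * h)⁻¹ * k⁻¹) * h⁻¹ := by group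
    rw [e]; exact h1
  have hLM : L ≤ M := by
    intro l hl
    rw [hMmem]
    exact ⟨hLK.le hl, fun g _ => L.mul_mem (hL.conj_mem _ hl g) (L.inv_mem hl)⟩
  have hMK : M ≤ K := fun k hk => ((hMmem k).1 hk).1
  -- the quotient
  set K' : Subgroup (G ⧸ L) := K.map (QuotientGroup.mk' L) with hK'
  haveI hK'n : K'.Normal := Subgroup.Normal.map hK _ (QuotientGroup.mk'_surjective L)
  let φ : G →* MulAut K' := (MulAut.conjNormal (H := K')).comp (QuotientGroup.mk' L)
  have hφ : ∀ c ∈ cent K L, φ c = 1 := by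
    intro c hc
    ext ⟨x, hx⟩
    obtain ⟨k, hk, rfl⟩ := hx
    have h1 : c * k * c⁻¹ * k⁻¹ ∈ L := hc k hk
    simp only [φ, MonoidHom.comp_apply, MulAut.conjNormal_apply, MulAut.one_apply]
    have h2 : (QuotientGroup.mk' L) (c * k * c⁻¹ * k⁻¹) = 1 := by
      rw [QuotientGroup.mk'_apply, QuotientGroup.eq_one_iff]; exact h1
    simp only [map_mul, map_inv] at h2
    rw [mul_inv_eq_one] at h2
    exact h2
  let ψ : (G ⧸ cent K L) →* MulAut K' := QuotientGroup.lift (cent K L) φ hφ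
  letI act : MulAction P K' := MulAction.compHom K' (ψ.comp P.subtype)
  have hact : ∀ (p : P) (x : K'), p • x = ψ (p : G ⧸ cent K L) x := fun p x => rfl
  have hK'q : IsPGroup q K' := by
    rintro ⟨x, hx⟩
    obtain ⟨k, hk, rfl⟩ := hx
    refine ⟨1, ?_⟩
    apply Subtype.ext
    rw [pow_one, Subgroup.coe_pow, OneMemClass.coe_one]
    change (QuotientGroup.mk' L k) ^ q = 1
    rw [← map_pow, QuotientGroup.mk'_apply, QuotientGroup.eq_one_iff]
    exact hexp k hk
  obtain ⟨k0, hk0, hk0L⟩ := Set.exists_of_ssubset hLK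
  have hk0ne : (⟨QuotientGroup.mk' L k0, ⟨k0, hk0, rfl⟩⟩ : K') ≠ 1 := by
    intro h
    have h1 := congrArg Subtype.val h
    simp only [OneMemClass.coe_one] at h1
    rw [QuotientGroup.mk'_apply, QuotientGroup.eq_one_iff] at h1
    exact hk0L h1
  haveI : Nontrivial K' := ⟨_, _, hk0ne⟩
  have hdvd : q ∣ Nat.card K' := by
    obtain ⟨n, hn⟩ := (IsPGroup.iff_card).1 hK'q
    have h1 : 1 < Nat.card K' := Finite.one_lt_card
    have hn0 : n ≠ 0 := by
      rintro rfl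
      rw [pow_zero] at hn
      omega
    rw [hn]
    exact dvd_pow_self q hn0
  have hfix1 : (1 : K') ∈ MulAction.fixedPoints P K' := by
    intro p
    rw [hact, map_one]
  obtain ⟨b, hb, hb1⟩ := hP.exists_fixed_point_of_prime_dvd_card_of_fixed_point K' hdvd hfix1
  obtain ⟨⟨x, hx⟩, rfl⟩ : ∃ b' : K', b' = b := ⟨b, rfl⟩
  obtain ⟨k, hk, rfl⟩ := hx
  have hkM : k ∈ M := by
    rw [hMmem]
    refine ⟨hk, fun g hg => ?_⟩
    have hgP : (QuotientGroup.mk' (cent K L)) g ∈ P := hg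
    have h1 := hb ⟨_, hgP⟩
    rw [hact] at h1
    have h2 := congrArg Subtype.val h1
    have h3 : ψ ((QuotientGroup.mk' (cent K L)) g) = φ g := rfl
    simp only at h2
    rw [h3] at h2
    simp only [φ, MonoidHom.comp_apply, MulAut.conjNormal_apply] at h2
    have h4 : (QuotientGroup.mk' L) (g * k * g⁻¹ * k⁻¹) = 1 := by
      simp only [map_mul, map_inv]
      rw [mul_inv_eq_one]
      exact h2
    rw [QuotientGroup.mk'_apply, QuotientGroup.eq_one_iff] at h4
    exact h4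
  have hkL : k ∉ L := by
    intro h
    apply hb1
    apply Subtype.ext
    simp only [OneMemClass.coe_one]
    symm
    rw [QuotientGroup.mk'_apply, QuotientGroup.eq_one_iff]
    exact h
  rcases hch M hMn hLM hMK with h | h
  · exact absurd (h ▸ hkM) hkL
  · rw [eq_bot_iff]
    intro x hx
    obtain ⟨g, rfl⟩ := QuotientGroup.mk'_surjective (cent K L) x
    rw [Subgroup.mem_bot, QuotientGroup.mk'_apply, QuotientGroup.eq_one_iff]
    intro k' hk'
    rw [← h, hMmem] at hk'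
    exact hk'.2 g hx

end Pool.Agent.Helper218.NV
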