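import Pool.Agent.Helper218.NV.Defs



namespace Pool.Agent.Helper218.NV
open scoped BigOperators commutatorElement


theorem sn_zpowers {G : Type} [Group G] (z : G) (p k : ℕ) (hz : z ^ (p ^ k) = 1) :
    IsPGroup p (Subgroup.zpowers z) := by
  rintro ⟨y, hy⟩
  obtain ⟨i, rfl⟩ := Subgroup.mem_zpowers_iff.mp hy
  refine ⟨k, ?_⟩
  apply Subtype.ext
  show (z ^ i) ^ (p ^ k) = 1
  rw [← zpow_natCast, ← zpow_mul, mul_comm, zpow_mul, zpow_natCast, hz, one_zpow]

theorem sn_commute {G : Type} [Group G] [Finite G] [Group.IsNilpotent G] (p : ℕ)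
    [Fact p.Prime] (S : Sylow p G) (s : G) (hs : s ∈ S) (n : ℕ) :
    n.Coprime p → ∀ z : G, z ^ n = 1 → Commute z s := by
  induction n using Nat.recOnPosPrimePosCoprime with
  | prime_pow r k hr hk =>
    intro hcop z hz
    haveI : Fact r.Prime := ⟨hr⟩
    have hne : r ≠ p := by
      intro h
      rw [h] at hcop
      have h1 := (Nat.coprime_pow_left_iff hk p p).mp hcop
      rw [Nat.coprime_self] at h1
      exact (Fact.out : p.Prime).one_lt.ne' h1
    obtain ⟨Q, hQ⟩ := (sn_zpowers z r k hz).exists_le_sylow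
    exact Subgroup.commute_of_normal_of_disjoint (Q : Subgroup G) (S : Subgroup G)
      inferInstance inferInstance (IsPGroup.disjoint_of_ne r p hne _ _ Q.isPGroup' S.isPGroup')
      z s (hQ (Subgroup.mem_zpowers z)) hs
  | zero =>
    intro hcop
    exfalso
    rw [Nat.coprime_zero_left] at hcop
    exact (Fact.out : p.Prime).one_lt.ne' hcop
  | one =>
    intro _ z hz
    rw [pow_one] at hz
    rw [hz]
    exact Commute.one_left s
  | coprime a b ha hb hab iha ihb =>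
    intro hcop z hz
    have h1 : Commute (z ^ a) s := ihb (Nat.Coprime.coprime_mul_left hcop) (z ^ a) (by
      rw [← pow_mul]
      exact hz)
    have h2 : Commute (z ^ b) s := iha (Nat.Coprime.coprime_mul_right hcop) (z ^ b) (by
      rw [← pow_mul, mul_comm]
      exact hz)
    have h3 : z = (z ^ a) ^ (Nat.gcdA a b) * (z ^ b) ^ (Nat.gcdB a b) := by
      have h4 := Nat.gcd_eq_gcd_ab a b
      rw [hab] at h4
      rw [← zpow_natCast z a, ← zpow_natCast z b, ← zpow_mul, ← zpow_mul, ← zpow_add, ← h4]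
      simp
    rw [h3]
    exact (h1.zpow_left _).mul_left (h2.zpow_left _)

theorem split_nilp {H : Type} [Group H] [Finite H] (x : H) (N0 : Subgroup H) (hn : N0.Normal)
    (hnil : Group.IsNilpotent N0) (hx : x ∈ N0) (p : ℕ) [Fact p.Prime] :
    ∃ (m : ℕ) (P : Subgroup H), Nat.Coprime p m ∧ P.Normal ∧ IsPGroup p P ∧ x ^ m ∈ P ∧
      ∀ b ∈ P, ⁅x, b⁆ = ⁅x ^ m, b⁆ := by
  have hp : p.Prime := Fact.out
  obtain ⟨S⟩ : Nonempty (Sylow p N0) := inferInstance
  have hSn : (S : Subgroup N0).Normal := inferInstance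
  have hchar : (S : Subgroup N0).Characteristic := Sylow.characteristic_of_normal S hSn
  obtain ⟨a, m0, hm0, ho⟩ := Nat.exists_eq_pow_mul_and_not_dvd (orderOf_pos x).ne' p hp.ne_one
  have hcop0 : Nat.Coprime p m0 := hp.coprime_iff_not_dvd.mpr hm0
  have hcop1 : Nat.Coprime (p ^ (a + 1)) m0 := Nat.Coprime.pow_left _ hcop0
  obtain ⟨m, hm1, hm2⟩ := Nat.chineseRemainder hcop1 1 0
  have hm0m : m0 ∣ m := (Nat.modEq_zero_iff_dvd).mp hm2
  have hmpos : 1 ≤ m := by
    by_contra h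
    have h0 : m = 0 := by omega
    rw [h0] at hm1
    have h1 : p ^ (a + 1) ∣ 1 := (Nat.modEq_zero_iff_dvd).mp hm1.symm
    have h2 : p ∣ 1 := dvd_trans (dvd_pow_self p (by omega)) h1
    exact hp.one_lt.ne' (Nat.dvd_one.mp h2)
  obtain ⟨k, rfl⟩ : ∃ k, m = k + 1 := ⟨m - 1, by omega⟩
  have hk : p ^ (a + 1) ∣ k := by
    have h1 := (Nat.modEq_iff_dvd' hmpos).mp hm1.symm
    simpa using h1
  have hpk : p ∣ k := dvd_trans (dvd_pow_self p (by omega)) hk
  have hpak : p ^ a ∣ k := dvd_trans (pow_dvd_pow p (by omega)) hk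
  set x' : N0 := ⟨x, hx⟩ with hx'
  have hord : orderOf x' = p ^ a * m0 := by
    rw [← ho]
    exact (Subgroup.orderOf_mk x hx)
  have hz : (x' ^ k) ^ m0 = 1 := by
    rw [← pow_mul, ← orderOf_dvd_iff_pow_eq_one, hord]
    exact Nat.mul_dvd_mul hpak (dvd_refl m0)
  have hy : (x' ^ (k + 1)) ^ (p ^ a) = 1 := by
    rw [← pow_mul, ← orderOf_dvd_iff_pow_eq_one, hord, mul_comm]
    exact Nat.mul_dvd_mul hm0m (dvd_refl _)
  have hyS : x' ^ (k + 1) ∈ (S : Subgroup N0) := by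
    obtain ⟨Q, hQ⟩ := (sn_zpowers (x' ^ (k + 1)) p a hy).exists_le_sylow
    letI := Sylow.unique_of_normal S hSn
    have hQS : Q = S := Subsingleton.elim Q S
    rw [← hQS]
    exact hQ (Subgroup.mem_zpowers _)
  refine ⟨k + 1, (S : Subgroup N0).map N0.subtype, ?_, ?_, ?_, ?_, ?_⟩
  · rw [hp.coprime_iff_not_dvd]
    intro h
    have h1 : p ∣ 1 := (Nat.dvd_add_right hpk).mp h
    exact hp.one_lt.ne' (Nat.dvd_one.mp h1)
  · exact ConjAct.normal_of_characteristic_of_normal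
  · exact S.isPGroup'.map N0.subtype
  · exact ⟨x' ^ (k + 1), hyS, rfl⟩
  · rintro b ⟨b', hb', rfl⟩
    have hc : Commute (x' ^ k) b' := sn_commute p S b' hb' m0 hcop0.symm (x' ^ k) hz
    have hc' : x ^ k * (b' : H) = (b' : H) * x ^ k := congrArg Subtype.val hc.eq
    show ⁅x, (b' : H)⁆ = ⁅x ^ (k + 1), (b' : H)⁆
    rw [commutatorElement_def, commutatorElement_def, pow_succ']
    have h5 : x * x ^ k * (b' : H) * (x * x ^ k)⁻¹ * (b' : H)⁻¹
        = x * (x ^ k * (b' : H)) * (x ^ k)⁻¹ * x⁻¹ * (b' : H)⁻¹ := by group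
    rw [h5, hc']
    group

end Pool.Agent.Helper218.NV
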