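import Pool.Agent.Helper218.NV.Defs
import Pool.Agent.Helper218.NV.P_nv_quot
import Pool.Agent.Helper218.NV.P_nv_comm
import Pool.Agent.Helper218.NV.P_key_two
import Pool.Agent.Helper218.NV.P_key_odd
import Pool.Agent.Helper218.NV.P_cent_normal
import Pool.Agent.Helper218.NV.P_chief_q
import Pool.Agent.Helper218.NV.P_dual_rep
import Pool.Agent.Helper218.NV.P_oq_trivial
import Pool.Agent.Helper218.NV.P_split_nilp



namespace Pool.Agent.Helper218.NV
open scoped BigOperators commutatorElement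


theorem cs_nu {H : Type} [Group H] [Finite H] (z : H) (hz : Nonvanishing z) (m : ℕ)
    (N : Subgroup H) (hNn : N.Normal) (hcm : ∀ b ∈ N, ⁅z, b⁆ = ⁅z ^ m, b⁆)
    (ν : (⁅N, N⁆ : Subgroup H) →* ℤˣ)
    (hν : ∀ (g : H) (c : (⁅N, N⁆ : Subgroup H)), ν (MulAut.conjNormal g c) = ν c)
    (b : H) (hb : b ∈ N) (hbc : ⁅z ^ m, b⁆ ∈ ⁅N, N⁆) : ν ⟨⁅z ^ m, b⁆, hbc⟩ = 1 := by
  have hzb : ⁅z, b⁆ ∈ ⁅N, N⁆ := by rw [hcm b hb]; exact hbc
  have h1 := nv_comm z hz ⁅N, N⁆ ((Units.map (Int.castRingHom ℂ).toMonoidHom).comp ν)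
    (fun g c => by
      rw [MonoidHom.comp_apply, MonoidHom.comp_apply, hν]) b hzb
  have h2 : (⟨⁅z, b⁆, hzb⟩ : (⁅N, N⁆ : Subgroup H)) = ⟨⁅z ^ m, b⁆, hbc⟩ := Subtype.ext (hcm b hb)
  rw [h2, MonoidHom.comp_apply] at h1
  have h3 := congrArg Units.val h1
  apply Units.ext
  have h4 : ((((ν ⟨⁅z ^ m, b⁆, hbc⟩ : ℤˣ) : ℤ) : ℂ)) = ((1 : ℤ) : ℂ) := by
    rw [Int.cast_one]
    exact h3
  exact Int.cast_injective h4

theorem chief_step {G : Type} [Group G] [Finite G] [Group.IsSolvable G] (x : G)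
    (hx : Nonvanishing x) (K L : Subgroup G) [hK : K.Normal] [hL : L.Normal] (hLK : L < K)
    (hch : ∀ M : Subgroup G, M.Normal → L ≤ M → M ≤ K → M = L ∨ M = K)
    (IH : ∀ (H : Type) [Group H] [Finite H] [Group.IsSolvable H] (z : H), Nonvanishing z →
      Nat.card H < Nat.card G → ∃ N0 : Subgroup H, N0.Normal ∧ Group.IsNilpotent N0 ∧ z ∈ N0) :
    ∀ k ∈ K, x * k * x⁻¹ * k⁻¹ ∈ L := by
  have hC : (cent K L).Normal := cent_normal K L
  obtain ⟨q, hq, hab, hexp⟩ := chief_q K L hK hL hLK hch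
  have : Fact q.Prime := ⟨hq⟩
  have hKC : K ≤ cent K L := by
    intro a ha k hk
    have := hab a ha k hk
    rwa [commutatorElement_def] at this
  have hKbot : K ≠ ⊥ := fun h => by
    rw [h] at hLK
    exact not_lt_bot hLK
  have hCbot : cent K L ≠ ⊥ := fun h => hKbot (le_bot_iff.1 (h ▸ hKC))
  have hCcard : 1 < Nat.card (cent K L) := by
    rw [Finite.one_lt_card_iff_nontrivial]
    exact (Subgroup.nontrivial_iff_ne_bot _).2 hCbot
  have hcard : Nat.card (G ⧸ cent K L) < Nat.card G := by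
    rw [Subgroup.card_eq_card_quotient_mul_card_subgroup (cent K L)]
    have h0 : 0 < Nat.card (G ⧸ cent K L) := Nat.card_pos
    exact lt_mul_of_one_lt_right h0 hCcard
  have hz : Nonvanishing (QuotientGroup.mk' (cent K L) x) :=
    nv_quot _ (QuotientGroup.mk'_surjective _) x hx
  obtain ⟨N0, hn, hnil, hzN⟩ := IH (G ⧸ cent K L) (QuotientGroup.mk' (cent K L) x) hz hcard
  obtain ⟨V, iV1, iV2, iV3, ρ, hfaith, hfx⟩ := dual_rep q K L hLK.le hab hexp
  set z := QuotientGroup.mk' (cent K L) x with hzdef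
  have claim : ∀ p : ℕ, p.Prime → ∃ m : ℕ, Nat.Coprime p m ∧ z ^ m = 1 := by
    intro p hp
    have : Fact p.Prime := ⟨hp⟩
    obtain ⟨m, P, hpm, hPn, hPp, hxm, hcm⟩ := split_nilp z N0 hn hnil hzN p
    refine ⟨m, hpm, ?_⟩
    by_cases hpq : p = q
    · subst hpq
      have h1 := oq_trivial p K L hLK hch hexp P hPn hPp
      rw [h1] at hxm
      exact Subgroup.mem_bot.1 hxm
    · have hNP : Subgroup.normalClosure {z ^ m} ≤ P :=
        Subgroup.normalClosure_le_normal (Set.singleton_subset_iff.2 hxm)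
      have hNp : IsPGroup p (Subgroup.normalClosure {z ^ m}) := hPp.to_le hNP
      have hNn : (Subgroup.normalClosure {z ^ m}).Normal := Subgroup.normalClosure_normal
      have hfix : ∀ v : V, ∃ g : G ⧸ cent K L, ρ (g * z ^ m * g⁻¹) v = v := by
        intro v
        obtain ⟨g, hg⟩ := hfx x hx v
        refine ⟨(g : G ⧸ cent K L), ?_⟩
        have e1 : ((g * x * g⁻¹ : G) : G ⧸ cent K L) =
            (g : G ⧸ cent K L) * z * (g : G ⧸ cent K L)⁻¹ := rfl
        rw [e1] at hg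
        rw [← conj_pow, map_pow]
        have h2 : ∀ j : ℕ, (ρ ((g : G ⧸ cent K L) * z * (g : G ⧸ cent K L)⁻¹) ^ j) v = v := by
          intro j
          induction j with
          | zero => simp
          | succ j ih => rw [pow_succ, Module.End.mul_apply, hg, ih]
        exact h2 m
      have hρ : ρ (z ^ m) = 1 := by
        by_cases hp2 : p = 2
        · subst hp2
          refine key_two (fun h => hpq h.symm) ρ _ hNn hNp (z ^ m) rfl hfix ?_
          intro ν hν b hb hbc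
          exact cs_nu z hz m _ hNn (fun b hb => hcm b (hNP hb)) ν hν b hb hbc
        · exact key_odd p hp2 hpq ρ _ hNn hNp (z ^ m) rfl hfix
      exact hfaith _ hρ
  have hz1 : z = 1 := by
    rw [← orderOf_eq_one_iff]
    by_contra hne
    obtain ⟨p, hp, hpd⟩ := Nat.exists_prime_and_dvd hne
    obtain ⟨m, hm1, hm2⟩ := claim p hp
    have h1 : orderOf z ∣ m := orderOf_dvd_of_pow_eq_one hm2
    have h2 : p ∣ m := hpd.trans h1
    have h3 : p ∣ 1 := by
      rw [← hm1]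
      exact Nat.dvd_gcd dvd_rfl h2
    exact hp.one_lt.ne' (Nat.dvd_one.1 h3)
  have hxC : x ∈ cent K L := (QuotientGroup.eq_one_iff x).1 hz1
  exact hxC

end Pool.Agent.Helper218.NV
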