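import Pool.Agent.Helper218.NV.Defs
import Pool.Agent.Helper218.NV.P_cent_normal
import Pool.Agent.Helper218.NV.P_cent_nilp
import Pool.Agent.Helper218.NV.P_chief_step



namespace Pool.Agent.Helper218.NV
open scoped BigOperators commutatorElement


theorem main_thm (n : ℕ) : ∀ (G : Type) [Group G] [Finite G] [Group.IsSolvable G] (x : G),
    Nonvanishing x → Nat.card G ≤ n →
    ∃ N0 : Subgroup G, N0.Normal ∧ Group.IsNilpotent N0 ∧ x ∈ N0 := by
  induction n with
  | zero =>
    intro G _ _ _ x _ hc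
    have := Nat.card_pos (α := G)
    omega
  | succ n ih =>
    intro G _ _ _ x hx hc
    let P : Type := {p : Subgroup G × Subgroup G // p.1.Normal ∧ p.2.Normal ∧ p.2 < p.1 ∧
      ∀ M : Subgroup G, M.Normal → p.2 ≤ M → M ≤ p.1 → M = p.2 ∨ M = p.1}
    let c : P → Subgroup G := fun p => @cent G _ p.1.1 p.1.2 p.2.1 p.2.2.1
    have hcn : ∀ p : P, (c p).Normal := fun p => @cent_normal G _ p.1.1 p.1.2 p.2.1 p.2.2.1
    have hI : (⨅ p, c p).Normal := Subgroup.normal_iInf_normal hcn
    refine ⟨⨅ p, c p, hI, ?_, ?_⟩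
    · refine cent_nilp _ hI fun K L hK hL hLK hch g hg => ?_
      have h1 : g ∈ c ⟨(K, L), hK, hL, hLK, hch⟩ := (Subgroup.mem_iInf.1 hg) _
      exact h1
    · refine Subgroup.mem_iInf.2 fun p => ?_
      have hK : p.1.1.Normal := p.2.1
      have hL : p.1.2.Normal := p.2.2.1
      have h1 := chief_step x hx p.1.1 p.1.2 p.2.2.2.1 p.2.2.2.2
        (fun H _ _ _ z hz hlt => ih H z hz (by omega))
      exact h1

end Pool.Agent.Helper218.NV
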